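import Mathlib

/-!
Simplicial cochains over a field with explicit signs: acyclicity in a given size, the two
Mayer-Vietoris gluing lemmas, cones, and transfer along an order embedding.
-/

set_option autoImplicit false

namespace Pool.Agent.H36

open Finset

section Defs

variable {W : Type*} [LinearOrder W] (K : Type*) [Field K]

/-- The sign of a vertex in a finite set. -/
def sg (v : W) (τ : Finset W) : K := (-1) ^ (τ.filter (· < v)).card

/-- The cochain differential. -/
def cob (f : Finset W → K) (τ : Finset W) : K := ∑ v ∈ τ, sg K v τ * f (τ.erase v)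

/-- Cochain exactness, at sets of size `t`, of the simplicial complex given by the predicate `P`. -/
def Ex (P : Finset W → Prop) (t : ℕ) : Prop :=
  ∀ f : Finset W → K, (∀ τ, P τ → τ.card = t + 1 → cob K f τ = 0) →
    ∃ g : Finset W → K, ∀ σ, P σ → σ.card = t → f σ = cob K g σ

end Defs

/-- Down-closed predicates on finite sets. -/
def DC {W : Type*} (P : Finset W → Prop) : Prop := ∀ σ τ, σ ⊆ τ → P τ → P σ

section Basic

variable {W : Type*} [LinearOrder W] {K : Type*} [Field K]

lemma sg_mul_self (v : W) (τ : Finset W) : sg K v τ * sg K v τ = 1 := by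
  unfold sg
  rw [← mul_pow]; simp

lemma sg_erase_lt {u v : W} {τ : Finset W} (hv : u < v) : sg K u (τ.erase v) = sg K u τ := by
  unfold sg
  congr 2
  ext x
  simp only [mem_filter, mem_erase]
  constructor
  · rintro ⟨⟨-, h⟩, h'⟩; exact ⟨h, h'⟩
  · rintro ⟨h, h'⟩; exact ⟨⟨(h'.trans hv).ne, h⟩, h'⟩

lemma sg_erase_gt {u v : W} {τ : Finset W} (hu : u ∈ τ) (hv : u < v) :
    sg K v (τ.erase u) = - sg K v τ := by
  unfold sg
  have h1 : (τ.erase u).filter (· < v) = (τ.filter (· < v)).erase u := by
    ext x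
    simp only [mem_filter, mem_erase]
    tauto
  have h2 : u ∈ τ.filter (· < v) := by simp [hu, hv]
  rw [h1, card_erase_of_mem h2]
  have h3 : 0 < (τ.filter (· < v)).card := card_pos.mpr ⟨u, h2⟩
  obtain ⟨k, hk⟩ : ∃ k, (τ.filter (· < v)).card = k + 1 := ⟨_, (Nat.succ_pred_eq_of_pos h3).symm⟩
  rw [hk, pow_succ]; simp

lemma sg_swap {u v : W} {τ : Finset W} (hu : u ∈ τ) (hv : v ∈ τ) (h : u ≠ v) :
    sg K v τ * sg K u (τ.erase v) = - (sg K u τ * sg K v (τ.erase u)) := by
  rcases lt_or_gt_of_ne h with h' | h'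
  · rw [sg_erase_lt h', sg_erase_gt hu h']; ring
  · rw [sg_erase_lt h', sg_erase_gt hv h']; ring

lemma cob_congr {f g : Finset W → K} {τ : Finset W} (h : ∀ v ∈ τ, f (τ.erase v) = g (τ.erase v)) :
    cob K f τ = cob K g τ := by
  unfold cob
  exact sum_congr rfl (fun v hv => by rw [h v hv])

lemma cob_sub (f g : Finset W → K) (τ : Finset W) :
    cob K (fun σ => f σ - g σ) τ = cob K f τ - cob K g τ := by
  unfold cob
  rw [← sum_sub_distrib]
  exact sum_congr rfl (fun v _ => by ring)

lemma cob_empty (f : Finset W → K) : cob K f ∅ = 0 := by simp [cob]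

lemma cob_cob (f : Finset W → K) (τ : Finset W) : cob K (cob K f) τ = 0 := by
  unfold cob
  have h1 : ∀ v ∈ τ, sg K v τ * ∑ u ∈ τ.erase v, sg K u (τ.erase v) * f ((τ.erase v).erase u)
      = ∑ u ∈ τ, if u = v then 0 else
          sg K v τ * sg K u (τ.erase v) * f ((τ.erase v).erase u) := by
    intro v hv
    rw [mul_sum, ← Finset.sum_erase (s := τ) (a := v)]
    · apply sum_congr rfl
      intro u hu
      rw [if_neg (mem_erase.mp hu).1]; ring
    · simp
  rw [sum_congr rfl h1]
  rw [← Finset.sum_product']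
  apply Finset.sum_involution (fun p _ => (p.2, p.1))
  · intro p hp
    simp only [mem_product] at hp
    by_cases h : p.1 = p.2
    · simp [h]
    · rw [if_neg (Ne.symm h), if_neg h, sg_swap hp.2 hp.1 (Ne.symm h), erase_right_comm]
      ring
  · intro p hp h h'
    apply h
    have : p.2 = p.1 := (Prod.ext_iff.mp h').1
    rw [if_pos this]
  · intro p hp
    simp only [mem_product] at hp ⊢
    exact ⟨hp.2, hp.1⟩
  · intro p hp
    rfl

lemma Ex.congr {P Q : Finset W → Prop} {t : ℕ} (h : ∀ σ, P σ ↔ Q σ) (hP : Ex K P t) :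
    Ex K Q t := by
  have : P = Q := funext fun σ => propext (h σ)
  rwa [← this]

/-- The empty complex is exact everywhere. -/
lemma Ex_void {P : Finset W → Prop} (t : ℕ) (h : ∀ σ, ¬ P σ) : Ex K P t := by
  intro f _
  exact ⟨fun _ => 0, fun σ hσ => absurd hσ (h σ)⟩

/-- A complex whose only possible face is the empty one is exact in positive sizes. -/
lemma Ex_of_empty {P : Finset W → Prop} {t : ℕ} (ht : 1 ≤ t) (h : ∀ σ, P σ → σ = ∅) :
    Ex K P t := by
  intro f _
  refine ⟨fun _ => 0, fun σ hσ hc => ?_⟩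
  rw [h σ hσ] at hc
  simp at hc; omega

/-- Gluing (union from the parts). -/
lemma Ex_union {P Q : Finset W → Prop} {t : ℕ} (hP : DC P) (hQ : DC Q)
    (h1 : Ex K P t) (h2 : Ex K Q t) (h3 : 1 ≤ t → Ex K (fun σ => P σ ∧ Q σ) (t - 1)) :
    Ex K (fun σ => P σ ∨ Q σ) t := by
  intro f hf
  obtain ⟨g1, hg1⟩ := h1 f (fun τ hτ hc => hf τ (Or.inl hτ) hc)
  obtain ⟨g2, hg2⟩ := h2 f (fun τ hτ hc => hf τ (Or.inr hτ) hc)
  rcases Nat.eq_zero_or_pos t with ht | ht
  · subst ht
    refine ⟨fun _ => 0, fun σ hσ hc => ?_⟩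
    have : σ = ∅ := card_eq_zero.mp hc
    subst this
    rw [cob_empty]
    rcases hσ with h | h
    · rw [hg1 _ h rfl, cob_empty]
    · rw [hg2 _ h rfl, cob_empty]
  · obtain ⟨h, hh⟩ := h3 ht (fun σ => g1 σ - g2 σ) (by
      intro τ hτ hc
      have hc' : τ.card = t := by omega
      rw [cob_sub, ← hg1 τ hτ.1 hc', ← hg2 τ hτ.2 hc']; ring)
    classical
    refine ⟨fun ρ => if P ρ then g1 ρ - cob K h ρ else g2 ρ, fun σ hσ hc => ?_⟩
    rcases hσ with hσ | hσ
    · rw [cob_congr (g := fun ρ => g1 ρ - cob K h ρ)]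
      · rw [cob_sub, cob_cob, hg1 σ hσ hc]; ring
      · intro v hv
        rw [if_pos (hP _ _ (erase_subset v σ) hσ)]
    · rw [cob_congr (g := g2)]
      · exact hg2 σ hσ hc
      · intro v hv
        split_ifs with hp
        · have := hh (σ.erase v) ⟨hp, hQ _ _ (erase_subset v σ) hσ⟩
            (by rw [card_erase_of_mem hv, hc])
          linear_combination this
        · rfl

/-- Gluing (one part from the union and the intersection). -/
lemma Ex_part {P Q : Finset W → Prop} {t : ℕ} (hP : DC P) (hQ : DC Q)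
    (h1 : Ex K (fun σ => P σ ∨ Q σ) t) (h2 : Ex K (fun σ => P σ ∧ Q σ) t) :
    Ex K P t := by
  intro f hf
  obtain ⟨u, hu⟩ := h2 f (fun τ hτ hc => hf τ hτ.1 hc)
  classical
  obtain ⟨g, hg⟩ := h1 (fun σ => if P σ then f σ else cob K u σ) (by
    intro τ hτ hc
    rcases hτ with hτ | hτ
    · rw [cob_congr (g := f)]
      · exact hf τ hτ hc
      · intro v hv
        rw [if_pos (hP _ _ (erase_subset v τ) hτ)]
    · rw [cob_congr (g := cob K u)]
      · exact cob_cob u τ
      · intro v hv
        split_ifs with hp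
        · exact hu _ ⟨hp, hQ _ _ (erase_subset v τ) hτ⟩ (by rw [card_erase_of_mem hv, hc]; rfl)
        · rfl)
  refine ⟨g, fun σ hσ hc => ?_⟩
  have := hg σ (Or.inl hσ) hc
  rwa [if_pos hσ] at this

/-- Cones are exact. -/
lemma Ex_cone {P : Finset W → Prop} (w : W) (h : ∀ σ, P σ → P (insert w σ)) (t : ℕ) :
    Ex K P t := by
  intro f hf
  refine ⟨fun ρ => if w ∈ ρ then 0 else sg K w (insert w ρ) * f (insert w ρ), fun σ hσ hc => ?_⟩
  by_cases hw : w ∈ σ
  · unfold cob
    rw [Finset.sum_eq_single_of_mem w hw]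
    · beta_reduce
      rw [if_neg (notMem_erase w σ), insert_erase hw, ← mul_assoc, sg_mul_self, one_mul]
    · intro v hv hvw
      beta_reduce
      rw [if_pos (mem_erase.mpr ⟨Ne.symm hvw, hw⟩), mul_zero]
  · have h1 := hf (insert w σ) (h σ hσ) (by rw [card_insert_of_notMem hw, hc])
    unfold cob at h1 ⊢
    rw [sum_insert hw, erase_insert hw] at h1
    have h2 : ∀ v ∈ σ, sg K v σ * (if w ∈ σ.erase v then (0:K) else
        sg K w (insert w (σ.erase v)) * f (insert w (σ.erase v))) =
        - sg K w (insert w σ) * (sg K v (insert w σ) * f ((insert w σ).erase v)) := by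
      intro v hv
      have hvw : v ≠ w := fun h => hw (h ▸ hv)
      rw [if_neg (fun h' => hw (mem_of_mem_erase h'))]
      have h3 : insert w (σ.erase v) = (insert w σ).erase v := by
        rw [erase_insert_of_ne (Ne.symm hvw)]
      rw [h3]
      have h4 := sg_swap (K := K) (u := v) (v := w) (τ := insert w σ) (mem_insert_of_mem hv)
        (mem_insert_self w σ) hvw
      rw [erase_insert hw] at h4
      have h5 := sg_mul_self (K := K) v (insert w σ)
      have h6 := sg_mul_self (K := K) w (insert w σ)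
      have h7 := sg_mul_self (K := K) w ((insert w σ).erase v)
      have h8 : sg K v σ * sg K w ((insert w σ).erase v) =
          - (sg K w (insert w σ) * sg K v (insert w σ)) := by
        calc sg K v σ * sg K w ((insert w σ).erase v)
            = sg K w (insert w σ) * (sg K w (insert w σ) * sg K v σ) *
              sg K w ((insert w σ).erase v) := by
                rw [← mul_assoc (sg K w (insert w σ)) (sg K w (insert w σ)), h6, one_mul]
          _ = - (sg K w (insert w σ) * sg K v (insert w σ)) *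
              (sg K w ((insert w σ).erase v) * sg K w ((insert w σ).erase v)) := by
                rw [h4]; ring
          _ = _ := by rw [h7]; ring
      calc sg K v σ * (sg K w ((insert w σ).erase v) * f ((insert w σ).erase v))
          = (sg K v σ * sg K w ((insert w σ).erase v)) * f ((insert w σ).erase v) := by ring
        _ = _ := by rw [h8]; ring
    rw [sum_congr rfl h2, ← mul_sum]
    have h9 := sg_mul_self (K := K) w (insert w σ)
    have h10 : ∑ v ∈ σ, sg K v (insert w σ) * f ((insert w σ).erase v) =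
        - (sg K w (insert w σ) * f σ) := by linear_combination h1
    rw [h10]
    linear_combination (- f σ) * h9

end Basic

section Transfer

variable {V W : Type*} [LinearOrder V] [LinearOrder W] {K : Type*} [Field K]

lemma sg_map (e : V ↪o W) (v : V) (τ : Finset V) :
    sg K (e v) (τ.map e.toEmbedding) = sg K v τ := by
  unfold sg
  congr 1
  rw [filter_map, card_map]
  congr 1
  ext x
  simp

/-- Transfer of exactness along an order embedding. -/
lemma Ex_transfer (e : V ↪o W) {P : Finset V → Prop} {Q : Finset W → Prop} {t : ℕ}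
    (h1 : ∀ σ, P σ → Q (σ.map e.toEmbedding))
    (h2 : ∀ ρ, Q ρ → ∃ σ, P σ ∧ ρ = σ.map e.toEmbedding) (h : Ex K Q t) : Ex K P t := by
  classical
  intro f hf
  let f' : Finset W → K := fun ρ => f (ρ.preimage e (e.injective.injOn))
  have hpre : ∀ σ : Finset V, (σ.map e.toEmbedding).preimage e (e.injective.injOn) = σ := by
    intro σ; ext x; simp
  have hcob : ∀ (u : Finset W → K) (σ : Finset V),
      cob K u (σ.map e.toEmbedding) = cob K (fun ρ => u (ρ.map e.toEmbedding)) σ := by
    intro u σ
    unfold cob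
    rw [sum_map]
    apply sum_congr rfl
    intro v hv
    have : (σ.map e.toEmbedding).erase (e.toEmbedding v) = (σ.erase v).map e.toEmbedding := by
      ext x
      simp only [mem_erase, mem_map, RelEmbedding.coe_toEmbedding, ne_eq]
      constructor
      · rintro ⟨h, a, ha, rfl⟩
        exact ⟨a, ⟨fun h' => h (by rw [h']), ha⟩, rfl⟩
      · rintro ⟨a, ⟨h, ha⟩, rfl⟩
        exact ⟨fun h' => h (e.injective h'), a, ha, rfl⟩
    rw [this]
    congr 1
    exact sg_map e v σ
  obtain ⟨g, hg⟩ := h f' (by
    intro τ hτ hc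
    obtain ⟨σ, hσ, rfl⟩ := h2 τ hτ
    rw [card_map] at hc
    rw [hcob]
    have := hf σ hσ hc
    rw [← this]
    apply cob_congr
    intro v hv
    simp only [f', hpre])
  refine ⟨fun ρ => g (ρ.map e.toEmbedding), fun σ hσ hc => ?_⟩
  have := hg _ (h1 σ hσ) (by rw [card_map, hc])
  rw [hcob] at this
  simpa only [f', hpre] using this

end Transfer

end Pool.Agent.H36
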