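import Pool.Agent.H36.Star

/-!
Degree complexes of powers of edge ideals of gap-free graphs.
-/

set_option autoImplicit false
set_option linter.unusedSectionVars false
set_option linter.unusedVariables false

namespace Pool.Agent.H36

open Finset

section PwLemmas

variable {V : Type*} [DecidableEq V] {G : SimpleGraph V}

lemma PwF_mono {q : ℕ} : ∀ {F F' : Finset V} {b b' : V → ℕ}, F ⊆ F' → (∀ w, w ∉ F' → b w ≤ b' w) →
    PwF G q F b → PwF G q F' b' := by
  induction q with
  | zero => intro F F' b b' _ _ _; trivial
  | succ q ih =>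
    intro F F' b b' hF hb h
    obtain ⟨u, v, huv, hu, hv, h'⟩ := h
    refine ⟨u, v, huv, fun hu' => (hu (fun h => hu' (hF h))).trans (hb u hu'),
      fun hv' => (hv (fun h => hv' (hF h))).trans (hb v hv'), ih hF ?_ h'⟩
    intro w hw
    have := hb w hw
    unfold sub2
    split_ifs <;> omega

lemma PwF_of_edge {F : Finset V} {u v : V} (huv : G.Adj u v) (hu : u ∈ F) (hv : v ∈ F) (q : ℕ) :
    ∀ (b : V → ℕ), PwF G q F b := by
  induction q with
  | zero => intro b; trivial
  | succ q ih => intro b; exact ⟨u, v, huv, fun h => absurd hu h, fun h => absurd hv h, ih _⟩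

lemma le_sum_of_PwF [Fintype V] {F : Finset V} (hF : ∀ u ∈ F, ∀ v ∈ F, ¬ G.Adj u v) (q : ℕ) :
    ∀ (b : V → ℕ), PwF G q F b → q ≤ ∑ v, b v := by
  induction q with
  | zero => intro b _; omega
  | succ q ih =>
    intro b h
    obtain ⟨u, v, huv, hu, hv, h'⟩ := h
    have h1 := ih _ h'
    have h2 : ∑ w, sub2 b u v w < ∑ w, b w := by
      apply Finset.sum_lt_sum
      · intro w _
        unfold sub2
        split_ifs <;> omega
      · by_cases huF : u ∈ F
        · have hvF : v ∉ F := fun h => hF u huF v h huv
          refine ⟨v, mem_univ v, ?_⟩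
          have := hv hvF
          unfold sub2
          rw [if_pos rfl]
          split_ifs <;> omega
        · refine ⟨u, mem_univ u, ?_⟩
          have := hu huF
          unfold sub2
          rw [if_pos rfl]
          split_ifs <;> omega
    omega

end PwLemmas

section Count

variable {V : Type*} [LinearOrder V] [Fintype V] {ι : Type*} [LinearOrder ι] [Fintype ι]

/-- Number of indices in `J` mapping to `v`. -/
def aJ (α : ι → V) (J : Finset ι) (v : V) : ℕ := (J.filter (fun i => α i = v)).card

lemma aJ_erase (α : ι → V) {J : Finset ι} {i : ι} (hi : i ∈ J) (w : V) :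
    aJ α (J.erase i) w + (if w = α i then 1 else 0) = aJ α J w := by
  unfold aJ
  split_ifs with h
  · have h1 : (J.erase i).filter (fun i => α i = w) = (J.filter (fun i => α i = w)).erase i := by
      ext x; simp only [mem_filter, mem_erase]; tauto
    have h2 : i ∈ J.filter (fun i => α i = w) := by simp [hi, h]
    rw [h1, card_erase_of_mem h2]
    have := card_pos.mpr ⟨i, h2⟩
    omega
  · have h1 : (J.erase i).filter (fun i => α i = w) = J.filter (fun i => α i = w) := by
      ext x; simp only [mem_filter, mem_erase]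
      constructor
      · rintro ⟨⟨-, h2⟩, h3⟩; exact ⟨h2, h3⟩
      · rintro ⟨h2, h3⟩
        refine ⟨⟨?_, h2⟩, h3⟩
        intro h4; rw [h4] at h3; exact h h3.symm
    rw [h1]; rfl

lemma aJ_pos {α : ι → V} {J : Finset ι} {i : ι} (hi : i ∈ J) : 1 ≤ aJ α J (α i) :=
  card_pos.mpr ⟨i, by simp [hi]⟩

lemma exists_of_aJ_pos {α : ι → V} {J : Finset ι} {v : V} (h : 1 ≤ aJ α J v) :
    ∃ i ∈ J, α i = v := by
  obtain ⟨i, hi⟩ := card_pos.mp h
  exact ⟨i, (mem_filter.mp hi).1, (mem_filter.mp hi).2⟩

variable (G : SimpleGraph V) (α : ι → V)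

/-- From edges to a matching. -/
lemma matching_of_PwF {X : Finset V} (hX : ∀ u ∈ X, ∀ v ∈ X, ¬ G.Adj u v) (q : ℕ) :
    ∀ (J : Finset ι), PwF G q X (aJ α J) →
    ∃ m, IsM (G.comap α) (phi G α X ∩ J) m ∧ 2 * q ≤ (msup m).card + 2 * (J \ phi G α X).card := by
  induction q with
  | zero =>
    intro J _
    exact ⟨id, IsM_id _ _, by omega⟩
  | succ q ih =>
    have hone : ∀ (J : Finset ι) (u v : V), G.Adj u v → u ∉ X → v ∈ X → 1 ≤ aJ α J u →
        PwF G q X (sub2 (aJ α J) u v) →
        ∃ m, IsM (G.comap α) (phi G α X ∩ J) m ∧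
          2 * (q + 1) ≤ (msup m).card + 2 * (J \ phi G α X).card := by
      intro J u v huv hu hv h1 h2
      obtain ⟨i, hi, hiu⟩ := exists_of_aJ_pos h1
      have hiphi : i ∉ phi G α X := by
        rw [mem_phi]; intro h
        exact h v hv (by rw [hiu]; exact huv.symm)
      obtain ⟨m, hm, hc⟩ := ih (J.erase i) (PwF_mono (Subset.refl X) (by
        intro w _
        have := aJ_erase α hi w
        rw [hiu] at this
        unfold sub2
        split_ifs at this ⊢ <;> omega) h2)
      refine ⟨m, hm.mono (inter_subset_inter_left (erase_subset i J)), ?_⟩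
      have h3 : (J.erase i) \ phi G α X = (J \ phi G α X).erase i := by
        ext x; simp only [mem_sdiff, mem_erase]; tauto
      have h4 : i ∈ J \ phi G α X := mem_sdiff.mpr ⟨hi, hiphi⟩
      rw [h3, card_erase_of_mem h4] at hc
      have := card_pos.mpr ⟨i, h4⟩
      omega
    intro J h
    obtain ⟨u, v, huv, hu, hv, h'⟩ := h
    by_cases huX : u ∈ X
    · have hvX : v ∉ X := fun h => hX u huX v h huv
      apply hone J v u huv.symm hvX huX (hv hvX)
      have : sub2 (aJ α J) v u = sub2 (aJ α J) u v := by
        funext w; unfold sub2; split_ifs <;> omega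
      rw [this]; exact h'
    by_cases hvX : v ∈ X
    · exact hone J u v huv huX hvX (hu huX) h'
    obtain ⟨i, hi, hiu⟩ := exists_of_aJ_pos (hu huX)
    obtain ⟨j, hj, hjv⟩ := exists_of_aJ_pos (hv hvX)
    have hne : i ≠ j := by
      intro h; rw [h, hjv] at hiu; exact huv.ne hiu.symm
    have hj' : j ∈ J.erase i := mem_erase.mpr ⟨Ne.symm hne, hj⟩
    obtain ⟨m, hm, hc⟩ := ih ((J.erase i).erase j) (PwF_mono (Subset.refl X) (by
      intro w _
      have h1 := aJ_erase α hi w
      have h2 := aJ_erase α hj' w
      rw [hiu] at h1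
      rw [hjv] at h2
      unfold sub2
      split_ifs at h1 h2 ⊢ <;> omega) h')
    have hsub : (J.erase i).erase j ⊆ J := (erase_subset _ _).trans (erase_subset _ _)
    by_cases hij : i ∈ phi G α X ∧ j ∈ phi G α X
    · have hmi : m i = i := by
        by_contra hcon
        have := (mem_inter.mp (hm.2 i hcon).2).2
        rw [mem_erase, mem_erase] at this
        exact this.2.1 rfl
      have hmj : m j = j := by
        by_contra hcon
        have := (mem_inter.mp (hm.2 j hcon).2).2
        rw [mem_erase] at this
        exact this.1 rfl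
      refine ⟨swp m i j, hm.swp (inter_subset_inter_left hsub) hmi ?_
        (mem_inter.mpr ⟨hij.1, hi⟩) (mem_inter.mpr ⟨hij.2, hj⟩), ?_⟩
      · show G.Adj (α i) (α j)
        rw [hiu, hjv]; exact huv
      · rw [card_msup_swp_add hm hmi hmj hne]
        have := card_le_card (sdiff_subset_sdiff hsub (Subset.refl (phi G α X)))
        omega
    · refine ⟨m, hm.mono (inter_subset_inter_left hsub), ?_⟩
      obtain ⟨k, hk1, hk2, hk3⟩ : ∃ k, k ∈ J ∧ k ∉ phi G α X ∧ k ∉ (J.erase i).erase j := by
        by_cases hi2 : i ∈ phi G α X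
        · exact ⟨j, hj, fun h => hij ⟨hi2, h⟩, notMem_erase _ _⟩
        · exact ⟨i, hi, hi2, fun h => (mem_erase.mp (mem_erase.mp h).2).1 rfl⟩
      have h3 : insert k (((J.erase i).erase j) \ phi G α X) ⊆ J \ phi G α X := by
        apply insert_subset (mem_sdiff.mpr ⟨hk1, hk2⟩)
        exact sdiff_subset_sdiff hsub (Subset.refl _)
      have h4 := card_le_card h3
      rw [card_insert_of_notMem (fun h => hk3 (mem_sdiff.mp h).1)] at h4
      omega

/-- From a matching to edges. -/
lemma PwF_of_matching {X : Finset V} (hX : ∀ u ∈ X, ∀ v ∈ X, ¬ G.Adj u v) (q : ℕ) :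
    ∀ (J : Finset ι) (m : ι → ι), IsM (G.comap α) (phi G α X ∩ J) m →
    2 * q ≤ (msup m).card + 2 * (J \ phi G α X).card + 1 → PwF G q X (aJ α J) := by
  induction q with
  | zero => intro J m _ _; trivial
  | succ q ih =>
    intro J m hm hc
    rcases (J \ phi G α X).eq_empty_or_nonempty with hJ | hJ
    · have hpos : 0 < (msup m).card := by
        rw [hJ, card_empty] at hc; omega
      obtain ⟨i, hi⟩ := card_pos.mp hpos
      have hi' : m i ≠ i := mem_msup.mp hi
      have hadj : G.Adj (α i) (α (m i)) := (hm.2 i hi').1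
      have hiJ : i ∈ J := (mem_inter.mp (hm.msup_subset hi)).2
      have hjJ : m i ∈ J := (mem_inter.mp (hm.msup_subset (hm.apply_mem_msup hi))).2
      set j := m i with hj
      have hj' : j ∈ J.erase i := mem_erase.mpr ⟨hi', hjJ⟩
      refine ⟨α i, α j, hadj, fun _ => aJ_pos hiJ, fun _ => aJ_pos hjJ, ?_⟩
      have hsub : (J.erase i).erase j ⊆ J := (erase_subset _ _).trans (erase_subset _ _)
      have h1 : PwF G q X (aJ α ((J.erase i).erase j)) := by
        apply ih _ (rst m (phi G α X ∩ ((J.erase i).erase j))) hm.rst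
        have h2 : ((msup m).erase i).erase j ⊆
            msup (rst m (phi G α X ∩ ((J.erase i).erase j))) := by
          intro x hx
          rw [mem_erase, mem_erase] at hx
          obtain ⟨hxj, hxi, hxm⟩ := hx
          have hx1 := mem_inter.mp (hm.msup_subset hxm)
          have hx2 := mem_inter.mp (hm.msup_subset (hm.apply_mem_msup hxm))
          rw [mem_msup_rst, mem_inter, mem_inter, mem_erase, mem_erase, mem_erase, mem_erase]
          refine ⟨⟨hx1.1, hxj, hxi, hx1.2⟩, ⟨hx2.1, ?_, ?_, hx2.2⟩, mem_msup.mp hxm⟩
          · intro h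
            apply hxi
            have h3 : m (m x) = m j := by rw [h]
            rw [hm.1, hj, hm.1] at h3
            exact h3
          · intro h
            apply hxj
            have h3 : m (m x) = m i := by rw [h]
            rw [hm.1] at h3
            exact h3
        have h3 := card_le_card h2
        have h4 : (((msup m).erase i).erase j).card = (msup m).card - 1 - 1 := by
          rw [card_erase_of_mem, card_erase_of_mem hi]
          exact mem_erase.mpr ⟨hi', hm.apply_mem_msup hi⟩
        rw [hJ, card_empty] at hc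
        omega
      refine PwF_mono (Subset.refl X) ?_ h1
      intro w _
      have h1 := aJ_erase α hiJ w
      have h2 := aJ_erase α hj' w
      unfold sub2
      split_ifs at h1 h2 ⊢ <;> omega
    · obtain ⟨i, hi⟩ := hJ
      have hi' := mem_sdiff.mp hi
      have h1 : ∃ v ∈ X, G.Adj v (α i) := by
        by_contra hcon
        push Not at hcon
        exact hi'.2 ((mem_phi G α).mpr hcon)
      obtain ⟨v, hv, hvi⟩ := h1
      refine ⟨α i, v, hvi.symm, fun _ => aJ_pos hi'.1, fun h => absurd hv h, ?_⟩
      have h2 : PwF G q X (aJ α (J.erase i)) := by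
        apply ih _ m
        · refine ⟨hm.1, fun x hx => ⟨(hm.2 x hx).1, ?_⟩⟩
          have hx1 := mem_inter.mp (hm.2 x hx).2
          rw [mem_inter, mem_erase]
          refine ⟨hx1.1, ?_, hx1.2⟩
          intro h; rw [h] at hx1; exact hi'.2 hx1.1
        · have h3 : (J.erase i) \ phi G α X = (J \ phi G α X).erase i := by
            ext x; simp only [mem_sdiff, mem_erase]; tauto
          rw [h3, card_erase_of_mem hi]
          have := card_pos.mpr ⟨i, hi⟩
          omega
      refine PwF_mono (Subset.refl X) ?_ h2
      intro w hw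
      have h1 := aJ_erase α hi'.1 w
      have h3 : w ≠ v := fun h => hw (h ▸ hv)
      unfold sub2
      rw [if_neg h3]
      split_ifs at h1 ⊢ <;> omega

lemma PwF_iff_not_Rho {X : Finset V} (hX : ∀ u ∈ X, ∀ v ∈ X, ¬ G.Adj u v) {q : ℕ}
    (hq : q ≤ Fintype.card ι) :
    ¬ PwF G q X (aJ α univ) ↔ Rho (G.comap α) (Fintype.card ι - q + 1) (phi G α X) := by
  have hc : (univ \ phi G α X).card + (phi G α X).card = Fintype.card ι := by
    rw [card_sdiff_add_card_eq_card (subset_univ _), card_univ]
  constructor
  · intro h
    by_contra hR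
    apply h
    unfold Rho at hR
    push Not at hR
    obtain ⟨m, hm, hcm⟩ := hR
    apply PwF_of_matching G α hX q univ m
    · rw [inter_univ]; exact hm
    · omega
  · intro hR h
    obtain ⟨m, hm, hcm⟩ := matching_of_PwF G α hX q univ h
    rw [inter_univ] at hm
    have := hR m hm
    omega

end Count

section Main

variable {V : Type*} [LinearOrder V] [Fintype V] (G : SimpleGraph V) {K : Type*} [Field K]

/-- Every finitely supported exponent is the counting function of a family. -/
lemma exists_family (a : V → ℕ) : ∃ α : Fin (∑ v, a v) → V, ∀ v, aJ α univ v = a v := by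
  classical
  have hc : Fintype.card (Fin (∑ v, a v)) = Fintype.card (Σ v : V, Fin (a v)) := by
    simp
  let e : Fin (∑ v, a v) ≃ (Σ v : V, Fin (a v)) := Fintype.equivOfCardEq hc
  refine ⟨fun i => (e i).1, fun v => ?_⟩
  unfold aJ
  have h : (univ.filter (fun i => (e i).1 = v)) =
      (univ : Finset (Fin (a v))).image (fun k => e.symm ⟨v, k⟩) := by
    ext i
    simp only [mem_filter, mem_univ, true_and, mem_image]
    constructor
    · intro h
      subst h
      exact ⟨(e i).2, by simp⟩
    · rintro ⟨k, rfl⟩
      simp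
  rw [h, card_image_of_injective]
  · simp
  · intro k k' hkk
    have := e.symm.injective hkk
    simpa using this

/-- The intermediate complexes. -/
def DT (q : ℕ) (T : Finset V) (a : V → ℕ) (τ : Finset V) : Finset V → Prop :=
  fun X => X ⊆ τ ∧ ¬ PwF G q (X ∩ T) (fun v => a v + ind X v)

lemma ind_mono {X Y : Finset V} (h : X ⊆ Y) (v : V) : ind X v ≤ ind Y v := by
  unfold ind
  split_ifs with h1 h2
  · exact le_refl _
  · exact absurd (h h1) h2
  · omega
  · exact le_refl _

lemma DT_DC (q : ℕ) (T : Finset V) (a : V → ℕ) (τ : Finset V) : DC (DT G q T a τ) := by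
  intro σ ρ h hρ
  refine ⟨h.trans hρ.1, fun hp => hρ.2 ?_⟩
  refine PwF_mono (inter_subset_inter_right h) (fun w _ => ?_) hp
  have := ind_mono h w
  omega

theorem DT_main (hG : GapFree G) (hInd : ∀ (τ : Finset V) (t : ℕ), 3 ≤ t → Ex K (Ind G τ) t)
    (q : ℕ) (hq : 2 ≤ q) (τ : Finset V) : ∀ (k : ℕ) (T : Finset V), T ⊆ τ → (τ \ T).card = k →
    ∀ (a : V → ℕ), (∀ v, v ∉ τ → a v = 0) → ∀ t, 2 * q ≤ t + ∑ v, a v →
      Ex K (DT G q T a τ) t := by
  intro k
  induction k with
  | zero =>
    intro T hT hk a ha t ht
    have hTτ : T = τ := Subset.antisymm hT (by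
      rw [card_eq_zero, sdiff_eq_empty_iff_subset] at hk; exact hk)
    subst hTτ
    have hDT : ∀ X, DT G q T a T X ↔ X ⊆ T ∧ ¬ PwF G q X a := by
      intro X
      unfold DT
      constructor
      · rintro ⟨h1, h2⟩
        refine ⟨h1, fun h => h2 ?_⟩
        rw [inter_eq_left.mpr h1]
        exact PwF_mono (Subset.refl X) (fun w _ => by omega) h
      · rintro ⟨h1, h2⟩
        refine ⟨h1, fun h => h2 ?_⟩
        rw [inter_eq_left.mpr h1] at h
        refine PwF_mono (Subset.refl X) (fun w hw => ?_) h
        simp [ind, hw]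
    rcases Nat.lt_or_ge (∑ v, a v) q with hlt | hge
    · refine (hInd T t (by omega)).congr (fun X => ?_)
      rw [hDT]
      unfold Ind
      constructor
      · rintro ⟨h1, h2⟩
        refine ⟨h1, fun h => ?_⟩
        have := le_sum_of_PwF h2 q a h
        omega
      · rintro ⟨h1, h2⟩
        refine ⟨h1, fun u hu v hv huv => h2 ?_⟩
        exact PwF_of_edge huv hu hv q a
    · obtain ⟨α, hα⟩ := exists_family a
      have hα' : aJ α univ = a := funext hα
      have hατ : ∀ i, α i ∈ T := by
        intro i
        by_contra h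
        have h1 := ha _ h
        rw [← hα'] at h1
        have h2 := aJ_pos (α := α) (mem_univ i)
        omega
      have hstar := star (K := K) G α T hG hατ (∑ v, a v - q + 1) (by omega) t (by
        rw [Fintype.card_fin]; omega)
      refine hstar.congr (fun X => ?_)
      rw [hDT]
      have hcard : Fintype.card (Fin (∑ v, a v)) = ∑ v, a v := Fintype.card_fin _
      constructor
      · rintro ⟨h1, h2⟩
        refine ⟨h1.1, ?_⟩
        rw [← hα', PwF_iff_not_Rho G α h1.2 (by rw [hcard]; exact hge), hcard]
        exact h2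
      · rintro ⟨h1, h2⟩
        have h3 : ∀ u ∈ X, ∀ v ∈ X, ¬ G.Adj u v := fun u hu v hv huv =>
          h2 (PwF_of_edge huv hu hv q a)
        refine ⟨⟨h1, h3⟩, ?_⟩
        rw [← hα', PwF_iff_not_Rho G α h3 (by rw [hcard]; exact hge), hcard] at h2
        exact h2
  | succ k ih =>
    intro T hT hk a ha t ht
    obtain ⟨x, hx⟩ : (τ \ T).Nonempty := card_pos.mp (by omega)
    rw [mem_sdiff] at hx
    have hT' : insert x T ⊆ τ := insert_subset hx.1 hT
    have hk' : (τ \ insert x T).card = k := by
      have : τ \ insert x T = (τ \ T).erase x := by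
        ext y; simp only [mem_sdiff, mem_insert, mem_erase]; tauto
      rw [this, card_erase_of_mem (mem_sdiff.mpr hx), hk]; rfl
    have k1 := ih (insert x T) hT' hk' a ha t ht
    let C : Finset V → Prop := fun X => X ⊆ τ ∧ ¬ PwF G q (X ∩ T) (fun v => a v + ind (insert x X) v)
    have hC : DC C := by
      intro σ ρ h hρ
      refine ⟨h.trans hρ.1, fun hp => hρ.2 ?_⟩
      refine PwF_mono (inter_subset_inter_right h) (fun w _ => ?_) hp
      have := ind_mono (insert_subset_insert x h) w
      omega
    have k2 : Ex K C t := by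
      apply Ex_cone x
      rintro X ⟨h1, h2⟩
      refine ⟨insert_subset hx.1 h1, fun h => h2 ?_⟩
      have h3 : insert x X ∩ T = X ∩ T := by rw [insert_inter_of_notMem hx.2]
      rw [h3, insert_idem] at h
      exact h
    have k3 : 1 ≤ t → Ex K (DT G q (insert x T) (fun v => a v + (if v = x then 1 else 0)) τ)
        (t - 1) := by
      intro ht1
      apply ih (insert x T) hT' hk'
      · intro v hv
        have hvx : v ≠ x := fun h => hv (h ▸ hx.1)
        rw [ha v hv, if_neg hvx]
      · rw [sum_add_distrib, sum_ite_eq' univ x, if_pos (mem_univ x)]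
        omega
    have hU := Ex_union (DT_DC G q (insert x T) a τ) hC k1 k2 (fun ht1 =>
      (k3 ht1).congr (fun X => by
        unfold DT
        by_cases hxX : x ∈ X
        · have h1 : X ∩ insert x T = insert x (X ∩ T) := by rw [inter_insert_of_mem hxX]
          constructor
          · rintro ⟨h2, h3⟩
            refine ⟨⟨h2, fun h => h3 ?_⟩, h2, fun h => h3 ?_⟩
            · refine PwF_mono (Subset.refl _) (fun w _ => ?_) h
              beta_reduce
              omega
            · rw [h1]
              refine PwF_mono (subset_insert _ _) (fun w _ => ?_) h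
              beta_reduce
              rw [insert_eq_of_mem hxX]
              omega
          · rintro ⟨⟨h2, h3⟩, h4, h5⟩
            refine ⟨h2, fun h => h3 ?_⟩
            refine PwF_mono (Subset.refl _) (fun w hw => ?_) h
            have hwx : w ≠ x := by
              intro h; apply hw; rw [h, h1]; exact mem_insert_self _ _
            beta_reduce
            rw [if_neg hwx]
            omega
        · have h1 : X ∩ insert x T = X ∩ T := by rw [inter_insert_of_notMem hxX]
          have h6 : ∀ w, a w + (if w = x then 1 else 0) + ind X w = a w + ind (insert x X) w := by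
            intro w
            unfold ind
            by_cases hwx : w = x
            · subst hwx; simp [hxX]
            · simp [hwx]
          rw [h1]
          constructor
          · rintro ⟨h2, h3⟩
            refine ⟨⟨h2, fun h => h3 ?_⟩, h2, fun h => h3 ?_⟩
            · refine PwF_mono (Subset.refl _) (fun w _ => ?_) h
              beta_reduce
              omega
            · refine PwF_mono (Subset.refl _) (fun w _ => ?_) h
              beta_reduce
              rw [h6]
          · rintro ⟨⟨h2, h3⟩, h4, h5⟩
            refine ⟨h2, fun h => h5 ?_⟩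
            refine PwF_mono (Subset.refl _) (fun w _ => ?_) h
            beta_reduce
            rw [h6]))
    refine hU.congr (fun X => ?_)
    constructor
    · rintro (⟨h1, h2⟩ | ⟨h1, h2⟩)
      · refine ⟨h1, fun h => h2 ?_⟩
        exact PwF_mono (inter_subset_inter_left (subset_insert x T)) (fun w _ => le_refl _) h
      · refine ⟨h1, fun h => h2 ?_⟩
        refine PwF_mono (Subset.refl _) (fun w _ => ?_) h
        have := ind_mono (subset_insert x X) w
        omega
    · rintro ⟨h1, h2⟩
      by_cases hxX : x ∈ X
      · right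
        refine ⟨h1, ?_⟩
        rw [insert_eq_of_mem hxX]
        exact h2
      · left
        refine ⟨h1, ?_⟩
        rw [inter_insert_of_notMem hxX]
        exact h2

/-- Half A: the degree complexes of the powers are exact in the required range. -/
theorem halfA (hG : GapFree G) (hInd : ∀ (τ : Finset V) (t : ℕ), 3 ≤ t → Ex K (Ind G τ) t)
    (q : ℕ) (hq : 2 ≤ q) (a : V → ℕ) (τ : Finset V) (t : ℕ) (ha : ∀ v, v ∉ τ → a v = 0)
    (ht : 2 * q ≤ t + ∑ v, a v) : Ex K (Dq G q a τ) t := by
  have h := DT_main G hG hInd q hq τ (τ \ ∅).card ∅ (empty_subset _) rfl a ha t ht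
  refine h.congr (fun X => ?_)
  unfold DT Dq
  rw [inter_empty]

end Main

end Pool.Agent.H36
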