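import Pool.Agent.H36.Koszul
import Pool.Agent.H36.Degree

/-!
Membership in powers of edge ideals and the Koszul vanishing for them.
-/

set_option autoImplicit false
set_option linter.unusedSectionVars false
set_option linter.unusedVariables false

namespace Pool.Agent.H36

open Finset MvPolynomial

variable {n : ℕ} {K : Type*} [Field K] (G : SimpleGraph (Fin n))

/-- The edge ideal. -/
noncomputable def EI (K : Type*) [Field K] {n : ℕ} (G : SimpleGraph (Fin n)) :
    Ideal (MvPolynomial (Fin n) K) :=
  Ideal.span {f : MvPolynomial (Fin n) K |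
          ∃ i j : Fin n, G.Adj i j ∧ f = MvPolynomial.X i * MvPolynomial.X j}

lemma EI_eq : EI K G = Ideal.span ((fun s => monomial s (1 : K)) ''
    {e : Fin n →₀ ℕ | ∃ i j, G.Adj i j ∧ e = Finsupp.single i 1 + Finsupp.single j 1}) := by
  unfold EI
  congr 1
  ext f
  simp only [Set.mem_ofPred_eq, Set.mem_image]
  constructor
  · rintro ⟨i, j, hij, rfl⟩
    refine ⟨_, ⟨i, j, hij, rfl⟩, ?_⟩
    rw [X, X, monomial_mul, one_mul]
  · rintro ⟨e, ⟨i, j, hij, rfl⟩, rfl⟩
    refine ⟨i, j, hij, ?_⟩
    rw [X, X, monomial_mul, one_mul]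

lemma EI_pow_eq (q : ℕ) : (EI K G) ^ q = Ideal.span ((fun s => monomial s (1 : K)) ''
    {e : Fin n →₀ ℕ | PwF G q ∅ e}) := by
  induction q with
  | zero =>
    rw [pow_zero, Ideal.one_eq_top]
    symm
    rw [Ideal.eq_top_iff_one]
    apply Ideal.subset_span
    exact ⟨0, trivial, rfl⟩
  | succ q ih =>
    rw [pow_succ, ih, EI_eq, Ideal.span_mul_span']
    congr 1
    ext f
    simp only [Set.mem_mul, Set.mem_image, Set.mem_ofPred_eq]
    constructor
    · rintro ⟨_, ⟨e, he, rfl⟩, _, ⟨_, ⟨i, j, hij, rfl⟩, rfl⟩, rfl⟩
      refine ⟨e + (Finsupp.single i 1 + Finsupp.single j 1), ?_, by rw [monomial_mul, one_mul]⟩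
      refine ⟨i, j, hij, fun _ => ?_, fun _ => ?_, ?_⟩
      · simp only [Finsupp.add_apply, Finsupp.single_apply, if_pos]
        omega
      · simp only [Finsupp.add_apply, Finsupp.single_apply, if_pos]
        omega
      · refine PwF_mono (Subset.refl _) (fun w _ => ?_) he
        unfold sub2
        simp only [Finsupp.add_apply, Finsupp.single_apply]
        by_cases h1 : i = w
        · by_cases h2 : j = w
          · simp [h1, h2]
          · simp [h1, h2, Ne.symm h2]
        · by_cases h2 : j = w
          · simp [h1, h2, Ne.symm h1]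
          · simp [h1, h2, Ne.symm h1, Ne.symm h2]
    · rintro ⟨e, ⟨u, v, huv, hu, hv, he⟩, rfl⟩
      have hu' := hu (notMem_empty u)
      have hv' := hv (notMem_empty v)
      refine ⟨_, ⟨Finsupp.equivFunOnFinite.symm (sub2 e u v), he, rfl⟩, _,
        ⟨_, ⟨u, v, huv, rfl⟩, rfl⟩, ?_⟩
      rw [monomial_mul, one_mul]
      apply congrArg (fun s => monomial s (1 : K))
      ext w
      rw [Finsupp.add_apply, Finsupp.add_apply, Finsupp.single_apply, Finsupp.single_apply]
      show sub2 e u v w + _ = _
      unfold sub2
      have hne := huv.ne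
      by_cases h1 : u = w
      · subst h1
        simp only [if_pos, if_neg hne, if_neg (Ne.symm hne)]
        omega
      · by_cases h2 : v = w
        · subst h2
          simp only [if_pos, if_neg hne, if_neg (Ne.symm hne)]
          omega
        · simp [h1, h2, Ne.symm h1, Ne.symm h2]

lemma mem_EI_pow {q : ℕ} {f : MvPolynomial (Fin n) K} :
    f ∈ (EI K G) ^ q ↔ ∀ e : Fin n →₀ ℕ, ¬ PwF G q ∅ e → coeff e f = 0 := by
  rw [EI_pow_eq, mem_ideal_span_monomial_image]
  constructor
  · intro h e he
    by_contra hcon
    obtain ⟨e0, he0, hle⟩ := h e (mem_support_iff.mpr hcon)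
    exact he (PwF_mono (Subset.refl _) (fun w _ => hle w) he0)
  · intro h e he
    refine ⟨e, ?_, le_refl e⟩
    by_contra hcon
    exact (mem_support_iff.mp he) (h e hcon)

lemma mem_EI {f : MvPolynomial (Fin n) K} :
    f ∈ EI K G ↔ ∀ e : Fin n →₀ ℕ, ¬ PwF G 1 ∅ e → coeff e f = 0 := by
  have := mem_EI_pow (K := K) G (q := 1) (f := f)
  rwa [pow_one] at this

lemma exq_zs (b : Fin n → ℕ) {X : Finset (Fin n)} (hX : X ⊆ ns b) (v : Fin n) :
    exq b (zs b ∪ X) v = (b v - 1) + ind X v := by
  rw [exq_apply]
  unfold ind
  by_cases h : b v = 0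
  · have h1 : v ∉ X := fun h' => (mem_ns.mp (hX h')) h
    rw [if_pos (mem_union_left _ (mem_zs.mpr h)), if_neg h1]
    omega
  · by_cases h1 : v ∈ X
    · rw [if_pos (mem_union_right _ h1), if_pos h1]
      omega
    · have h2 : v ∉ zs b ∪ X := by
        rw [mem_union, not_or]
        exact ⟨fun h' => h (mem_zs.mp h'), h1⟩
      rw [if_neg h2, if_neg h1]
      rfl

/-- Exactness of the degree complexes gives the Koszul vanishing for the powers. -/
theorem KV_of_Dq (q r : ℕ)
    (h : ∀ (a : Fin n → ℕ) (τ : Finset (Fin n)) (t : ℕ), (∀ v, v ∉ τ → a v = 0) →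
      r ≤ t + ∑ v, a v → Ex K (Dq G q a τ) t) (m t : ℕ) (hm : r ≤ m) :
    KV (fun _ : Fin 1 => 0) (IV ((EI K G) ^ q)) m t := by
  intro F hF hN
  obtain ⟨g, hg⟩ := multideg (fun e => PwF G q ∅ e) t (fun X => F X 0) (by
    intro Y hY e he
    rw [← kd_apply]
    exact (mem_EI_pow G).mp (hN Y hY) e he) (by
    intro X hX e he t' ht'
    set b := bx X e with hb
    have hdeg : ∑ v, e v = m := by
      rcases hF X hX 0 with h0 | ⟨-, h0⟩
      · rw [h0] at he; simp at he
      · have := h0 he
        rw [Finsupp.weight_apply] at this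
        simp only [Pi.one_apply, smul_eq_mul, mul_one, Nat.sub_zero] at this
        rw [← this, Finsupp.sum_fintype]
        intro i; rfl
    have hzX : zs b ⊆ X := by
      intro v hv
      by_contra hcon
      rw [mem_zs, hb] at hv
      unfold bx at hv
      rw [if_neg hcon] at hv
      omega
    have hsum : t' + ∑ v, (b v - 1) = m := by
      have h1 : ∀ v, (b v - 1) + ind (X \ zs b) v = e v := by
        intro v
        unfold ind
        by_cases hvX : v ∈ X
        · by_cases hvz : v ∈ zs b
          · rw [if_neg (fun h => (mem_sdiff.mp h).2 hvz)]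
            have := mem_zs.mp hvz
            rw [this]
            rw [hb] at this
            unfold bx at this
            omega
          · rw [if_pos (mem_sdiff.mpr ⟨hvX, hvz⟩)]
            have h2 : b v ≠ 0 := fun h => hvz (mem_zs.mpr h)
            have h3 : b v = e v := by rw [hb]; unfold bx; rw [if_pos hvX]; rfl
            omega
        · rw [if_neg (fun h => hvX (mem_sdiff.mp h).1)]
          have h3 : b v = e v + 1 := by rw [hb]; unfold bx; rw [if_neg hvX]
          omega
      have h2 : ∑ v, ind (X \ zs b) v = t' := by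
        unfold ind
        rw [sum_boole]
        simp only [filter_mem_eq_inter, univ_inter, Nat.cast_id]
        have := card_sdiff_add_card_eq_card hzX
        omega
      have h3 : ∑ v, ((b v - 1) + ind (X \ zs b) v) = ∑ v, e v := sum_congr rfl (fun v _ => h1 v)
      rw [sum_add_distrib, h2, hdeg] at h3
      omega
    have hE := h (fun v => b v - 1) (ns b) t' (by
      intro v hv
      have : b v = 0 := by
        by_contra hcon
        exact hv (mem_ns.mpr hcon)
      simp [this]) (by omega)
    refine hE.congr (fun X' => ?_)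
    unfold Dq
    constructor
    · rintro ⟨h1, h2⟩
      refine ⟨h1, fun h => h2 ?_⟩
      refine PwF_mono (Subset.refl _) (fun w _ => ?_) h
      rw [exq_zs b h1]
    · rintro ⟨h1, h2⟩
      refine ⟨h1, fun h => h2 ?_⟩
      refine PwF_mono (Subset.refl _) (fun w _ => ?_) h
      rw [exq_zs b h1])
  refine ⟨fun X _ => g X, fun X hX => ?_⟩
  show (F X - kd K (fun X (_ : Fin 1) => g X) X) 0 ∈ (EI K G) ^ q
  rw [mem_EI_pow]
  intro e he
  have h1 : (F X - kd K (fun X (_ : Fin 1) => g X) X) 0 = F X 0 - kd K g X := by
    rw [Pi.sub_apply, kd_apply]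
  rw [h1]
  exact hg X hX e he

/-- From the Koszul vanishing for the edge ideal to exactness of the independence complexes. -/
theorem hInd_of_KV (r : ℕ) (h : ∀ m t, r ≤ m → t ≤ n → KV (fun _ : Fin 1 => 0) (IV (EI K G)) m t)
    (τ : Finset (Fin n)) (t : ℕ) (ht : r ≤ t) : Ex K (Ind G τ) t := by
  classical
  rcases Nat.lt_or_ge τ.card t with hlt | hge
  · intro f _
    refine ⟨fun _ => 0, fun σ hσ hc => ?_⟩
    have := card_le_card hσ.1
    omega
  intro f hf
  set b : Fin n → ℕ := ind τ with hb
  have hns : ns b = τ := by
    ext v; rw [mem_ns, hb]; unfold ind; split_ifs with h <;> simp [h]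
  have hzs : zs b = τᶜ := by
    ext v; rw [mem_zs, hb, mem_compl]; unfold ind; split_ifs with h <;> simp [h]
  have hzc : (zs b).card + τ.card = n := by
    rw [hzs, card_compl, Fintype.card_fin]
    have := card_le_univ τ
    rw [Fintype.card_fin] at this
    omega
  let F : Finset (Fin n) → (Fin 1 → MvPolynomial (Fin n) K) := fun X _ =>
    if zs b ⊆ X then monomial (exq b X) (eta K b (X ∩ ns b) * f (X ∩ ns b)) else 0
  have hsplit : ∀ Z : Finset (Fin n), zs b ⊆ Z → zs b ∪ (Z ∩ ns b) = Z := by
    intro Z hZ
    ext v
    simp only [mem_union, mem_inter, mem_zs, mem_ns]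
    constructor
    · rintro (h | h)
      · exact hZ (mem_zs.mpr h)
      · exact h.1
    · intro h
      by_cases h' : b v = 0
      · exact Or.inl h'
      · exact Or.inr ⟨h, h'⟩
  have hex : ∀ X : Finset (Fin n), ∀ v, exq b X v = ind (X ∩ ns b) v := by
    intro X v
    rw [exq_apply, hb, ← hb, hns, hb]
    unfold ind
    by_cases h1 : v ∈ X <;> by_cases h2 : v ∈ τ <;> simp [h1, h2]
  have hwt : ∀ X : Finset (Fin n), ∑ v, exq b X v = (X ∩ ns b).card := by
    intro X
    rw [sum_congr rfl (fun v _ => hex X v)]
    unfold ind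
    rw [sum_boole]
    simp only [filter_mem_eq_inter, univ_inter, Nat.cast_id]
  have hind : ∀ X : Finset (Fin n), X ⊆ ns b → ((∀ u ∈ X, ∀ v ∈ X, ¬ G.Adj u v) ↔
      ¬ PwF G 1 ∅ (exq b (zs b ∪ X))) := by
    intro X hX
    have hXX : (zs b ∪ X) ∩ ns b = X := by
      ext w
      simp only [mem_inter, mem_union, mem_zs, mem_ns]
      constructor
      · rintro ⟨h | h, h'⟩
        · exact absurd h h'
        · exact h
      · intro h; exact ⟨Or.inr h, mem_ns.mp (hX h)⟩
    constructor
    · rintro h ⟨u, v, huv, hu, hv, -⟩
      have hu' := hu (notMem_empty u)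
      have hv' := hv (notMem_empty v)
      rw [hex, hXX] at hu' hv'
      unfold ind at hu' hv'
      have h1 : u ∈ X := by
        by_contra hcon; rw [if_neg hcon] at hu'; omega
      have h2 : v ∈ X := by
        by_contra hcon; rw [if_neg hcon] at hv'; omega
      exact h u h1 v h2 huv
    · intro h u hu v hv huv
      apply h
      refine ⟨u, v, huv, fun _ => ?_, fun _ => ?_, trivial⟩
      · rw [hex, hXX]; unfold ind; rw [if_pos hu]
      · rw [hex, hXX]; unfold ind; rw [if_pos hv]
  obtain ⟨g, hg⟩ := h t (t + (zs b).card) ht (by omega) F (by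
    intro X hX k
    by_cases hz : zs b ⊆ X
    · right
      refine ⟨Nat.zero_le _, ?_⟩
      simp only [F, if_pos hz]
      apply isHomogeneous_monomial
      rw [Finsupp.degree_eq_sum, hwt]
      have h1 := hsplit X hz
      have h2 := card_union_of_disjoint (zs_disj b (Y := X ∩ ns b) inter_subset_right)
      rw [h1, hX] at h2
      omega
    · left
      simp only [F, if_neg hz]) (by
    intro Y hY
    show kd K F Y 0 ∈ EI K G
    rw [kd_apply, mem_EI]
    intro e he
    by_cases hz : zs b ⊆ Y
    · have hYs := hsplit Y hz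
      by_cases hee : e = exq b Y
      · have h1 := coeff_kd b (Y := Y ∩ ns b) inter_subset_right (fun X => F X 0)
        rw [hYs, ← hee] at h1
        rw [h1]
        have h2 : cob K (fun X => eta K b X * coeff (exq b (zs b ∪ X)) (F (zs b ∪ X) 0))
            (Y ∩ ns b) = cob K f (Y ∩ ns b) := by
          apply cob_congr
          intro v hv
          simp only [F, if_pos subset_union_left]
          rw [coeff_monomial, if_pos rfl]
          have h3 : (zs b ∪ (Y ∩ ns b).erase v) ∩ ns b = (Y ∩ ns b).erase v := by
            ext w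
            simp only [mem_inter, mem_union, mem_erase, mem_zs, mem_ns]
            constructor
            · rintro ⟨h | h, h'⟩
              · exact absurd h h'
              · exact h
            · rintro ⟨h, h', h''⟩
              exact ⟨Or.inr ⟨h, h', h''⟩, h''⟩
          rw [h3, ← mul_assoc, eta_mul_self, one_mul]
        rw [h2, hf, mul_zero]
        · refine ⟨by rw [hns]; exact inter_subset_right, ?_⟩
          rw [hind _ inter_subset_right, hYs, ← hee]
          exact he
        · have h2 := card_union_of_disjoint (zs_disj b (Y := Y ∩ ns b) inter_subset_right)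
          rw [hYs, hY] at h2
          omega
      · unfold kd
        rw [coeff_sum]
        apply sum_eq_zero
        intro v hv
        rw [smul_eq_mul, mul_assoc, coeff_C_mul, coeff_X_mul']
        split_ifs with hvs
        · simp only [F]
          split_ifs with hz2
          · rw [coeff_monomial, if_neg, mul_zero]
            intro h3
            apply hee
            have hvn : v ∉ zs b := by
              intro hvz
              exact notMem_erase v Y (hz2 hvz)
            have hbv : b v = 1 := by
              rw [mem_zs] at hvn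
              rw [hb] at hvn ⊢
              unfold ind at hvn ⊢
              split_ifs at hvn ⊢ with h
              · rfl
              · exact absurd rfl hvn
            ext w
            have h4 : exq b (Y.erase v) w = (e - Finsupp.single v 1 : Fin n →₀ ℕ) w := by
              rw [h3]
            rw [Finsupp.tsub_apply, Finsupp.single_apply, exq_apply] at h4
            rw [exq_apply]
            by_cases hw : v = w
            · subst hw
              rw [if_pos hv]
              rw [if_neg (notMem_erase v Y), if_pos rfl] at h4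
              rw [Finsupp.mem_support_iff] at hvs
              omega
            · rw [if_neg hw] at h4
              have : w ∈ Y.erase v ↔ w ∈ Y := by
                rw [mem_erase]; exact ⟨fun h => h.2, fun h => ⟨fun h' => hw h'.symm, h⟩⟩
              simp only [this] at h4
              omega
          · simp
        · simp
    · have h1 : kd K (fun X => F X 0) Y = 0 := by
        unfold kd
        apply sum_eq_zero
        intro v hv
        have : ¬ zs b ⊆ Y.erase v := fun h => hz (h.trans (erase_subset v Y))
        simp only [F, if_neg this, smul_zero]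
      rw [h1]; simp)
  refine ⟨fun X' => eta K b X' * coeff (exq b (zs b ∪ X')) (g (zs b ∪ X') 0), ?_⟩
  rintro X' ⟨hX1, hX2⟩ hXc
  have hXn : X' ⊆ ns b := by rw [hns]; exact hX1
  have h1 := hg (zs b ∪ X') (by rw [card_union_of_disjoint (zs_disj b hXn)]; omega)
  have h2 : (F (zs b ∪ X') - kd K g (zs b ∪ X')) 0 ∈ EI K G := h1
  rw [mem_EI] at h2
  have h3 := h2 _ ((hind X' hXn).mp hX2)
  rw [Pi.sub_apply, coeff_sub, kd_apply, coeff_kd b hXn] at h3
  have h4 : (zs b ∪ X') ∩ ns b = X' := by
    ext w
    simp only [mem_inter, mem_union, mem_zs, mem_ns]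
    constructor
    · rintro ⟨h | h, h'⟩
      · exact absurd h h'
      · exact h
    · intro h; exact ⟨Or.inr h, mem_ns.mp (hXn h)⟩
  simp only [F, if_pos subset_union_left] at h3
  rw [coeff_monomial, if_pos rfl, h4] at h3
  have h5 := eta_mul_self (K := K) b X'
  have h6 : eta K b X' ≠ 0 := by
    intro h; rw [h] at h5; simp at h5
  apply mul_left_cancel₀ h6
  exact sub_eq_zero.mp h3

end Pool.Agent.H36
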