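import Pool.Agent.H36.Matching

/-!
Exactness for unions of members of a family of subcomplexes indexed by finite sets, and the
connectivity lemma for the complex cut out by the matching deficiency.
-/

set_option autoImplicit false
set_option linter.unusedSectionVars false
set_option linter.unusedVariables false

namespace Pool.Agent.H36

open Finset

section Fam

variable {W : Type*} [LinearOrder W] {ι : Type*} [DecidableEq ι] {K : Type*} [Field K]

/-- The member of the family attached to `X`. -/
def Cx (B : Finset W → Prop) (φ : Finset W → Finset ι) (X : Finset ι) : Finset W → Prop :=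
  fun F => B F ∧ X ⊆ φ F

lemma Cx_DC {B : Finset W → Prop} {φ : Finset W → Finset ι} (hB : DC B) (hφ : Antitone φ)
    (X : Finset ι) : DC (Cx B φ X) :=
  fun σ τ h hτ => ⟨hB σ τ h hτ.1, hτ.2.trans (hφ h)⟩

/-- The subcomplex of faces `F` with `W0 ⊆ φ F` and `M (φ F ∩ A)`. -/
def Un (B : Finset W → Prop) (φ : Finset W → Finset ι) (W0 A : Finset ι)
    (M : Finset ι → Prop) : Finset W → Prop :=
  fun F => B F ∧ W0 ⊆ φ F ∧ M (φ F ∩ A)

lemma Un_DC {B : Finset W → Prop} {φ : Finset W → Finset ι} (hB : DC B) (hφ : Antitone φ)
    (W0 A : Finset ι) {M : Finset ι → Prop} (hM : ∀ X Y, X ⊆ Y → M X → M Y) :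
    DC (Un B φ W0 A M) :=
  fun σ τ h hτ => ⟨hB σ τ h hτ.1, hτ.2.1.trans (hφ h),
    hM _ _ (inter_subset_inter_right (hφ h)) hτ.2.2⟩

/-- Union lemma: if all the relevant members are exact everywhere, so is the union. -/
lemma Ex_Un {B : Finset W → Prop} {φ : Finset W → Finset ι} (hB : DC B) (hφ : Antitone φ)
    (A : Finset ι) : ∀ (W0 : Finset ι) (M : Finset ι → Prop)
    (_ : ∀ X Y, X ⊆ Y → M X → M Y)
    (_ : ∀ X, X ⊆ A → M X → ∀ t, Ex K (Cx B φ (W0 ∪ X)) t) (t : ℕ),
    Ex K (Un B φ W0 A M) t := by
  induction A using Finset.induction_on with
  | empty =>
    intro W0 M hM hX t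
    by_cases h : M ∅
    · have h1 := hX ∅ (Subset.refl _) h t
      refine h1.congr (fun F => ?_)
      unfold Cx Un
      rw [union_empty, inter_empty]
      exact ⟨fun h2 => ⟨h2.1, h2.2, h⟩, fun h2 => ⟨h2.1, h2.2.1⟩⟩
    · apply Ex_void
      intro F hF
      unfold Un at hF
      rw [inter_empty] at hF
      exact h hF.2.2
  | insert a A1 ha ih =>
    intro W0 M hM hX t
    have hM2 : ∀ X Y, X ⊆ Y → M (insert a X) → M (insert a Y) :=
      fun X Y h h' => hM _ _ (insert_subset_insert a h) h'
    have k1 : ∀ t, Ex K (Un B φ W0 A1 M) t := by
      apply ih W0 M hM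
      intro X hXA hMX t
      exact hX X (hXA.trans (subset_insert a A1)) hMX t
    have hassoc : ∀ X : Finset ι, W0 ∪ insert a X = insert a W0 ∪ X := by
      intro X; ext x; simp only [mem_union, mem_insert]; tauto
    have k2 : ∀ t, Ex K (Un B φ (insert a W0) A1 (fun X => M (insert a X))) t := by
      apply ih (insert a W0) _ hM2
      intro X hXA hMX t
      have := hX (insert a X) (insert_subset_insert a hXA) hMX t
      rwa [hassoc] at this
    have k3 : ∀ t, Ex K (Un B φ (insert a W0) A1 M) t := by
      apply ih (insert a W0) M hM
      intro X hXA hMX t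
      have := hX (insert a X) (insert_subset_insert a hXA) (hM _ _ (subset_insert a X) hMX) t
      rwa [hassoc] at this
    have h1 := Ex_union (Un_DC hB hφ W0 A1 hM) (Un_DC hB hφ (insert a W0) A1 hM2) (k1 t) (k2 t)
      (fun _ => (k3 (t - 1)).congr (fun F => by
        unfold Un
        constructor
        · rintro ⟨h1, h2, h3⟩
          exact ⟨⟨h1, (subset_insert a W0).trans h2, h3⟩, h1, h2,
            hM _ _ (subset_insert a _) h3⟩
        · rintro ⟨⟨h1, h2, h3⟩, h4, h5, h6⟩
          exact ⟨h1, h5, h3⟩))
    refine h1.congr (fun F => ?_)
    unfold Un
    constructor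
    · rintro (⟨h1, h2, h3⟩ | ⟨h1, h2, h3⟩)
      · exact ⟨h1, h2, hM _ _ (inter_subset_inter_left (subset_insert a A1)) h3⟩
      · refine ⟨h1, (subset_insert a W0).trans h2, ?_⟩
        have h4 : a ∈ φ F := h2 (mem_insert_self a W0)
        rw [inter_insert_of_mem h4]
        exact h3
    · rintro ⟨h1, h2, h3⟩
      by_cases h4 : a ∈ φ F
      · right
        rw [inter_insert_of_mem h4] at h3
        exact ⟨h1, insert_subset h4 h2, h3⟩
      · left
        rw [inter_insert_of_notMem h4] at h3
        exact ⟨h1, h2, h3⟩

end Fam

section FB

variable {W : Type*} [LinearOrder W] {ι : Type*} [Fintype ι] [DecidableEq ι]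
  {K : Type*} [Field K]

/-- The connectivity lemma. -/
theorem Ex_FB {B : Finset W → Prop} {φ : Finset W → Finset ι} (hB : DC B) (hφ : Antitone φ)
    (Γ : SimpleGraph ι) (s : ℕ) : ∀ (N : ℕ) (O R W0 : Finset ι), O.card = N → Disjoint O R →
    (∀ X, X ⊆ O → X ≠ O → ∀ t, Ex K (Cx B φ (W0 ∪ X)) t) →
    (∀ t, 1 ≤ t → Ex K (Cx B φ (W0 ∪ O)) t) →
    Conn Γ O →
    (∃ m, IsM Γ R m ∧ ∀ r ∈ R, (∀ o ∈ O, ¬ Γ.Adj r o) → r ∈ msup m) →
    ∀ t, O.card + R.card + 2 ≤ t + 2 * s →
      Ex K (Un B φ W0 O (fun X => Rho Γ s (R ∪ X))) t := by
  intro N
  induction N with
  | zero =>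
    intro O R W0 hN _ _ _ hC
    exact absurd hC.1 (by rw [card_eq_zero.mp hN]; simp)
  | succ N ih =>
    intro O R W0 hN hdis h1 h2 h3 h4 t ht
    have hMono : ∀ (R' : Finset ι) (X Y : Finset ι), X ⊆ Y → Rho Γ s (R' ∪ X) →
        Rho Γ s (R' ∪ Y) := fun R' X Y h h' => Rho_mono (union_subset_union_right h) h'
    rcases Nat.eq_zero_or_pos N with hN0 | hN0
    · -- one vertex
      subst hN0
      obtain ⟨w, rfl⟩ := card_eq_one.mp hN
      by_cases hR : Rho Γ s R
      · have h5 := h1 ∅ (empty_subset _) (by simp) t
        refine h5.congr (fun F => ?_)
        unfold Cx Un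
        rw [union_empty]
        exact ⟨fun h => ⟨h.1, h.2, Rho_mono subset_union_left hR⟩, fun h => ⟨h.1, h.2.1⟩⟩
      · by_cases hRw : Rho Γ s (R ∪ {w})
        · -- the complex is the member at `w`
          have ht1 : 1 ≤ t := by
            by_contra hcon
            have ht0 : t = 0 := by omega
            subst ht0
            rw [card_singleton] at ht
            obtain ⟨m0, hm0, hcov⟩ := h4
            obtain ⟨m, hm, hmax, hsup⟩ := exists_max_matching hm0
            have hwR : w ∉ R := by
              intro h; exact (disjoint_left.mp hdis) (mem_singleton_self w) h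
            have hcR : (R ∪ {w}).card = R.card + 1 := by
              rw [union_comm, ← insert_eq, card_insert_of_notMem hwR]
            have hmw : m w = w := by
              by_contra h
              exact hwR (hm.2 w h).2
            have h6 : 2 * R.card < (msup m).card + 2 * s := by
              by_contra h
              apply hR
              intro m2 hm2
              have := hmax m2 hm2
              omega
            have h7 : R ⊆ msup m := by
              intro r hr
              by_contra hrm
              have hmr : m r = r := by
                by_contra h; exact hrm (mem_msup.mpr h)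
              have hadj : Γ.Adj r w := by
                by_contra hna
                apply hrm
                apply hsup
                apply hcov r hr
                intro o ho
                rw [mem_singleton.mp ho]; exact hna
              have h8 := hRw _ (hm.swp (i := r) (j := w) subset_union_left hmr hadj
                (mem_union_left _ hr) (mem_union_right _ (mem_singleton_self w)))
              rw [card_msup_swp_add hm hmr hmw hadj.ne, hcR] at h8
              omega
            have h8 : (msup m).card = R.card :=
              le_antisymm (card_le_card hm.msup_subset) (card_le_card h7)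
            have h9 := hRw _ (hm.mono subset_union_left)
            rw [hcR] at h9
            omega
          have h5 := h2 t ht1
          refine h5.congr (fun F => ?_)
          unfold Cx Un
          constructor
          · rintro ⟨ha, hb⟩
            have hw : w ∈ φ F := hb (mem_union_right _ (mem_singleton_self w))
            refine ⟨ha, subset_union_left.trans hb, ?_⟩
            rw [inter_singleton_of_mem hw]
            exact hRw
          · rintro ⟨ha, hb, hc⟩
            refine ⟨ha, union_subset hb ?_⟩
            rw [singleton_subset_iff]
            by_contra hw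
            rw [inter_singleton_of_notMem hw, union_empty] at hc
            exact hR hc
        · apply Ex_void
          intro F hF
          apply hRw
          exact hMono R _ _ inter_subset_right hF.2.2
    · -- at least two vertices
      obtain ⟨w, hw, hconn⟩ := exists_noncut h3 (by omega)
      set O' := O.erase w with hO'
      have hOi : insert w O' = O := insert_erase hw
      have hwO' : w ∉ O' := notMem_erase w O
      have hcO' : O'.card = N := by rw [hO', card_erase_of_mem hw, hN]; rfl
      have hO'O : O' ⊆ O := erase_subset w O
      have hO'ne : O' ≠ O := by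
        intro h; apply hwO'; rw [h]; exact hw
      have hdis' : Disjoint O' R := disjoint_of_subset_left hO'O hdis
      have hwR : w ∉ R := fun h => (disjoint_left.mp hdis) hw h
      have k1 : ∀ t, Ex K (Un B φ W0 O' (fun X => Rho Γ s (R ∪ X))) t := by
        apply Ex_Un hB hφ O' W0 _ (hMono R)
        intro X hX _ t
        exact h1 X (hX.trans hO'O) (fun h => hO'ne (Subset.antisymm hO'O (h ▸ hX))) t
      by_cases hcase : ∃ m, IsM Γ R m ∧ ∀ r ∈ R, (∀ o ∈ O', ¬ Γ.Adj r o) → r ∈ msup m
      · -- split off `w`
        have hassoc : ∀ X : Finset ι, insert w W0 ∪ X = W0 ∪ insert w X := by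
          intro X; ext x; simp only [mem_union, mem_insert]; tauto
        have h1' : ∀ X, X ⊆ O' → X ≠ O' → ∀ t, Ex K (Cx B φ (insert w W0 ∪ X)) t := by
          intro X hX hne t
          rw [hassoc]
          apply h1 _ (by rw [← hOi]; exact insert_subset_insert w hX)
          intro h
          apply hne
          apply Subset.antisymm hX
          intro x hx
          have hxw : x ≠ w := fun h' => hwO' (h' ▸ hx)
          have : x ∈ insert w X := by rw [h]; exact hO'O hx
          exact (mem_insert.mp this).resolve_left hxw
        have h2' : ∀ t, 1 ≤ t → Ex K (Cx B φ (insert w W0 ∪ O')) t := by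
          intro t ht
          rw [hassoc, hOi]; exact h2 t ht
        have k2 : Ex K (Un B φ (insert w W0) O' (fun X => Rho Γ s (insert w R ∪ X))) t := by
          apply ih O' (insert w R) (insert w W0) hcO'
          · rw [disjoint_insert_right]; exact ⟨hwO', hdis'⟩
          · exact h1'
          · exact h2'
          · exact hconn
          · obtain ⟨m, hm, hcov⟩ := hcase
            refine ⟨m, hm.mono (subset_insert w R), ?_⟩
            intro r hr hno
            rcases mem_insert.mp hr with h | h
            · exfalso
              subst h
              obtain ⟨a, ha, b, hb, hbA, hab⟩ := h3.2 {r} (singleton_subset_iff.mpr hw)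
                (singleton_nonempty r) (by
                  intro h; rw [← h] at hN; simp at hN; omega)
              rw [mem_singleton] at ha
              subst ha
              apply hno b _ hab
              rw [hO', mem_erase]
              exact ⟨fun h => hbA (mem_singleton.mpr h), hb⟩
            · exact hcov r h hno
          · rw [card_insert_of_notMem hwR]; omega
        have k3 : 1 ≤ t → Ex K (Un B φ (insert w W0) O' (fun X => Rho Γ s (R ∪ X))) (t - 1) := by
          intro ht1
          apply ih O' R (insert w W0) hcO' hdis' h1' h2' hconn hcase
          omega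
        have hunion := Ex_union (Un_DC hB hφ W0 O' (hMono R))
          (Un_DC hB hφ (insert w W0) O' (hMono (insert w R))) (k1 t) k2
          (fun ht1 => (k3 ht1).congr (fun F => by
            unfold Un
            constructor
            · rintro ⟨ha, hb, hc⟩
              exact ⟨⟨ha, (subset_insert w W0).trans hb, hc⟩, ha, hb,
                Rho_mono (union_subset_union_left (subset_insert w R)) hc⟩
            · rintro ⟨⟨ha, hb, hc⟩, hd, he, hf⟩
              exact ⟨ha, he, hc⟩))
        refine hunion.congr (fun F => ?_)
        unfold Un
        have hsplit : w ∈ φ F → R ∪ φ F ∩ O = insert w R ∪ φ F ∩ O' := by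
          intro hwF
          rw [← hOi, inter_insert_of_mem hwF]
          ext x; simp only [mem_union, mem_insert]; tauto
        constructor
        · rintro (⟨ha, hb, hc⟩ | ⟨ha, hb, hc⟩)
          · exact ⟨ha, hb, hMono R _ _ (inter_subset_inter_left hO'O) hc⟩
          · refine ⟨ha, (subset_insert w W0).trans hb, ?_⟩
            have hwF : w ∈ φ F := hb (mem_insert_self w W0)
            beta_reduce
            rw [hsplit hwF]; exact hc
        · rintro ⟨ha, hb, hc⟩
          by_cases hwF : w ∈ φ F
          · right
            refine ⟨ha, insert_subset hwF hb, ?_⟩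
            beta_reduce at hc ⊢
            rw [← hsplit hwF]; exact hc
          · left
            refine ⟨ha, hb, ?_⟩
            beta_reduce at hc ⊢
            rwa [← hOi, inter_insert_of_notMem hwF] at hc
      · -- `w` is irrelevant
        have hkey : ∀ Z, Z ⊆ O' → Rho Γ s (insert w (R ∪ Z)) → Rho Γ s (R ∪ Z) := by
          intro Z hZ hRho
          by_contra hnot
          obtain ⟨m0, hm0, hcov⟩ := h4
          obtain ⟨m, hm, hmax, hsup⟩ := exists_max_matching (hm0.mono (subset_union_left
            (s₁ := R) (s₂ := Z)))
          have hwRZ : w ∉ R ∪ Z := by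
            rw [mem_union]
            rintro (h | h)
            · exact hwR h
            · exact hwO' (hZ h)
          have hmw : m w = w := by
            by_contra h
            exact hwRZ (hm.2 w h).2
          have h6 : 2 * (R ∪ Z).card < (msup m).card + 2 * s := by
            by_contra h
            apply hnot
            intro m2 hm2
            have := hmax m2 hm2
            omega
          have h7 : ∀ r ∈ R ∪ Z, Γ.Adj r w → r ∈ msup m := by
            intro r hr hadj
            by_contra hrm
            have hmr : m r = r := by
              by_contra h; exact hrm (mem_msup.mpr h)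
            have h8 := hRho _ (hm.swp (i := r) (j := w) (subset_insert w (R ∪ Z)) hmr hadj
              (mem_insert_of_mem hr) (mem_insert_self w _))
            rw [card_msup_swp_add hm hmr hmw hadj.ne, card_insert_of_notMem hwRZ] at h8
            omega
          apply hcase
          refine ⟨rst m R, hm.rst, ?_⟩
          intro r hr hno
          have hrm : r ∈ msup m := by
            by_cases hadj : Γ.Adj r w
            · exact h7 r (mem_union_left _ hr) hadj
            · apply hsup
              apply hcov r hr
              intro o ho
              rw [← hOi] at ho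
              rcases mem_insert.mp ho with h | h
              · rw [h]; exact hadj
              · exact hno o h
          rw [mem_msup_rst]
          refine ⟨hr, ?_, mem_msup.mp hrm⟩
          have h8 := hm.msup_subset (hm.apply_mem_msup hrm)
          rcases mem_union.mp h8 with h | h
          · exact h
          · exact absurd (hm.2 r (mem_msup.mp hrm)).1 (hno _ (hZ h))
        refine (k1 t).congr (fun F => ?_)
        unfold Un
        constructor
        · rintro ⟨ha, hb, hc⟩
          exact ⟨ha, hb, hMono R _ _ (inter_subset_inter_left hO'O) hc⟩
        · rintro ⟨ha, hb, hc⟩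
          refine ⟨ha, hb, ?_⟩
          beta_reduce at hc ⊢
          by_cases hwF : w ∈ φ F
          · apply hkey _ inter_subset_right
            rw [← hOi, inter_insert_of_mem hwF] at hc
            have : R ∪ insert w (φ F ∩ O') = insert w (R ∪ φ F ∩ O') := by
              ext x; simp only [mem_union, mem_insert]; tauto
            rwa [this] at hc
          · rwa [← hOi, inter_insert_of_notMem hwF] at hc

end FB

end Pool.Agent.H36
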