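import Pool.Agent.H36.HomV

/-!
From a graded resolution with bounded degrees to Koszul vanishing.
-/

set_option autoImplicit false
set_option linter.unusedSectionVars false
set_option linter.unusedVariables false

namespace Pool.Agent.H36

open Finset MvPolynomial

variable {n : ℕ} {K : Type*} [Field K]

/-- Data of a graded free resolution of an ideal with degrees bounded by `r + i`. -/
def RegD (J : Ideal (MvPolynomial (Fin n) K)) (r : ℕ) : Prop :=
      ∃ (b : ℕ → ℕ) (deg : ∀ i : ℕ, Fin (b i) → ℕ)
        (g : Fin (b 0) → MvPolynomial (Fin n) K)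
        (d : ∀ i : ℕ, Matrix (Fin (b i)) (Fin (b (i + 1))) (MvPolynomial (Fin n) K)),
        Ideal.span (Set.range g) = J ∧
        (∀ k : Fin (b 0), (g k).IsHomogeneous (deg 0 k)) ∧
        (∀ (i : ℕ) (s : Fin (b i)) (c : Fin (b (i + 1))),
          d i s c = 0 ∨
            (deg i s ≤ deg (i + 1) c ∧ (d i s c).IsHomogeneous (deg (i + 1) c - deg i s))) ∧
        (∀ v : Fin (b 0) → MvPolynomial (Fin n) K,
          (∑ k, g k * v k = 0) ↔ ∃ w, Matrix.mulVec (d 0) w = v) ∧
        (∀ (i : ℕ) (v : Fin (b (i + 1)) → MvPolynomial (Fin n) K),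
          Matrix.mulVec (d i) v = 0 ↔ ∃ w, Matrix.mulVec (d (i + 1)) w = v) ∧
        (∀ (i : ℕ) (k : Fin (b i)), deg i k ≤ r + i)

lemma mem_span_range_iff {b : ℕ} (g : Fin b → MvPolynomial (Fin n) K)
    (f : MvPolynomial (Fin n) K) :
    f ∈ Ideal.span (Set.range g) ↔ ∃ w : Fin b → MvPolynomial (Fin n) K, ∑ k, g k * w k = f := by
  rw [Ideal.mem_span_range_iff_exists_fun]
  constructor
  · rintro ⟨c, hc⟩
    exact ⟨c, by rw [← hc]; exact sum_congr rfl (fun k _ => mul_comm _ _)⟩
  · rintro ⟨c, hc⟩
    exact ⟨c, by rw [← hc]; exact sum_congr rfl (fun k _ => mul_comm _ _)⟩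

theorem KV_of_RegD {J : Ideal (MvPolynomial (Fin n) K)} {r : ℕ} (hr : 1 ≤ r) (h : RegD J r)
    (m t : ℕ) (hm : r ≤ m) (ht : t ≤ n) : KV (fun _ : Fin 1 => 0) (IV J) m t := by
  obtain ⟨b, deg, g, d, hspan, hg, hd, h0, hi, hdeg⟩ := h
  have hP : ∀ (k t : ℕ), t + k = n → ∀ i m, r + i < m →
      KV (deg i) (LinearMap.range (Matrix.mulVecLin (d i))) m t := by
    intro k
    induction k with
    | zero =>
      intro t ht i m hm
      have : t = n := by omega
      subst this
      exact KV_top _ (fun k => lt_of_le_of_lt (hdeg i k) hm)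
    | succ k ih =>
      intro t ht i m hm
      apply KV_image (M := d i) (N' := LinearMap.range (Matrix.mulVecLin (d (i + 1))))
        (hd i) _ _ (by omega) (ih (t + 1) (by omega) (i + 1) (m + 1) (by omega))
      · intro v
        rw [LinearMap.mem_range]
        rfl
      · intro w
        rw [LinearMap.mem_range]
        exact (hi i w).symm
  rcases Nat.lt_or_ge t n with hlt | hge
  · apply KV_image (deg := fun _ : Fin 1 => 0) (deg' := deg 0) (M := fun _ k => g k)
      (N' := LinearMap.range (Matrix.mulVecLin (d 0))) _ _ _ hlt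
      (hP (n - (t + 1)) (t + 1) (by omega) 0 (m + 1) (by omega))
    · intro s k
      exact Or.inr ⟨Nat.zero_le _, by simpa using hg k⟩
    · intro v
      show v 0 ∈ J ↔ _
      rw [← hspan, mem_span_range_iff]
      constructor
      · rintro ⟨w, hw⟩
        refine ⟨w, ?_⟩
        funext i
        rw [Subsingleton.elim i 0]
        exact hw
      · rintro ⟨w, hw⟩
        exact ⟨w, congrFun hw 0⟩
    · intro w
      rw [LinearMap.mem_range]
      constructor
      · intro hw
        have := (h0 w).mpr hw
        funext i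
        exact this
      · intro hw
        exact (h0 w).mp (congrFun hw 0)
  · have : t = n := by omega
    subst this
    exact KV_top _ (fun k => by omega)

end Pool.Agent.H36
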