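import Pool.Agent.H36.Koszul

/-!
Homogeneous components of vectors of polynomials and their compatibility with graded matrices.
-/

set_option autoImplicit false
set_option linter.unusedSectionVars false
set_option linter.unusedVariables false

namespace Pool.Agent.H36

open Finset MvPolynomial

variable {n : ℕ} {K : Type*} [Field K]

lemma hc_mul {p : MvPolynomial (Fin n) K} {i : ℕ} (hp : p.IsHomogeneous i) (m : ℕ)
    (q : MvPolynomial (Fin n) K) :
    homogeneousComponent m (p * q) =
      if i ≤ m then p * homogeneousComponent (m - i) q else 0 := by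
  classical
  apply MvPolynomial.ext
  intro e
  rw [coeff_homogeneousComponent, coeff_mul]
  split_ifs with h1 h2 h2
  · rw [coeff_mul]
    apply sum_congr rfl
    rintro ⟨x, y⟩ hxy
    rw [HasAntidiagonal.mem_antidiagonal] at hxy
    simp only at hxy ⊢
    rw [coeff_homogeneousComponent]
    by_cases hx : coeff x p = 0
    · rw [hx, zero_mul, zero_mul]
    · have h3 : x.degree = i := by
        by_contra hcon
        exact hx (hp.coeff_eq_zero hcon)
      have h4 : x.degree + y.degree = e.degree := by rw [← hxy, map_add]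
      rw [if_pos (by omega)]
  · rw [coeff_zero]
    apply sum_eq_zero
    rintro ⟨x, y⟩ hxy
    rw [HasAntidiagonal.mem_antidiagonal] at hxy
    simp only at hxy ⊢
    by_cases hx : coeff x p = 0
    · rw [hx, zero_mul]
    · exfalso
      have h3 : x.degree = i := by
        by_contra hcon
        exact hx (hp.coeff_eq_zero hcon)
      have h4 : x.degree + y.degree = e.degree := by rw [← hxy, map_add]
      omega
  · rw [coeff_mul]
    symm
    apply sum_eq_zero
    rintro ⟨x, y⟩ hxy
    rw [HasAntidiagonal.mem_antidiagonal] at hxy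
    simp only at hxy ⊢
    rw [coeff_homogeneousComponent]
    by_cases hx : coeff x p = 0
    · rw [hx, zero_mul]
    · have h3 : x.degree = i := by
        by_contra hcon
        exact hx (hp.coeff_eq_zero hcon)
      have h4 : x.degree + y.degree = e.degree := by rw [← hxy, map_add]
      rw [if_neg (by omega), mul_zero]
  · rw [coeff_zero]

/-- Homogeneous component of a vector. -/
noncomputable def hcv {b : ℕ} (deg : Fin b → ℕ) (d : ℕ) (f : Fin b → MvPolynomial (Fin n) K) :
    Fin b → MvPolynomial (Fin n) K :=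
  fun k => if deg k ≤ d then homogeneousComponent (d - deg k) (f k) else 0

lemma HomV_hcv {b : ℕ} (deg : Fin b → ℕ) (d : ℕ) (f : Fin b → MvPolynomial (Fin n) K) :
    HomV deg d (hcv deg d f) := by
  intro k
  unfold hcv
  split_ifs with h
  · exact Or.inr ⟨h, homogeneousComponent_isHomogeneous _ _⟩
  · exact Or.inl rfl

lemma hcv_of_HomV {b : ℕ} {deg : Fin b → ℕ} {d : ℕ} {f : Fin b → MvPolynomial (Fin n) K}
    (h : HomV deg d f) : hcv deg d f = f := by
  funext k
  unfold hcv
  rcases h k with h0 | ⟨h1, h2⟩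
  · rw [h0, map_zero]; simp
  · rw [if_pos h1]
    rw [homogeneousComponent_of_mem (m := d - deg k) h2, if_pos rfl]

lemma hcv_sub {b : ℕ} (deg : Fin b → ℕ) (d : ℕ) (f g : Fin b → MvPolynomial (Fin n) K) :
    hcv deg d (f - g) = hcv deg d f - hcv deg d g := by
  funext k
  unfold hcv
  rw [Pi.sub_apply, Pi.sub_apply]
  split_ifs with h
  · rw [map_sub]
  · rw [sub_zero]

lemma hcv_smul {b : ℕ} (deg : Fin b → ℕ) (d i : ℕ) {p : MvPolynomial (Fin n) K}
    (hp : p.IsHomogeneous i) (f : Fin b → MvPolynomial (Fin n) K) :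
    hcv deg (d + i) (p • f) = p • hcv deg d f := by
  funext k
  unfold hcv
  rw [Pi.smul_apply, Pi.smul_apply, smul_eq_mul, smul_eq_mul, hc_mul hp]
  by_cases h1 : deg k ≤ d
  · rw [if_pos (show deg k ≤ d + i by omega), if_pos (show i ≤ d + i - deg k by omega),
      if_pos h1]
    have h2 : d + i - deg k - i = d - deg k := by omega
    rw [h2]
  · rw [if_neg h1, mul_zero]
    split_ifs with h2 h3
    · omega
    · rfl
    · rfl

lemma hcv_sum {b : ℕ} (deg : Fin b → ℕ) (d : ℕ) {ι : Type*} (s : Finset ι)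
    (f : ι → (Fin b → MvPolynomial (Fin n) K)) :
    hcv deg d (∑ i ∈ s, f i) = ∑ i ∈ s, hcv deg d (f i) := by
  funext k
  unfold hcv
  rw [Finset.sum_apply, Finset.sum_apply]
  split_ifs with h
  · rw [map_sum]
  · rw [sum_const_zero]

/-- Graded matrices. -/
def GrM {b c : ℕ} (deg : Fin b → ℕ) (deg' : Fin c → ℕ)
    (M : Matrix (Fin b) (Fin c) (MvPolynomial (Fin n) K)) : Prop :=
  ∀ s k, M s k = 0 ∨ (deg s ≤ deg' k ∧ (M s k).IsHomogeneous (deg' k - deg s))

lemma hcv_mulVec {b c : ℕ} {deg : Fin b → ℕ} {deg' : Fin c → ℕ}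
    {M : Matrix (Fin b) (Fin c) (MvPolynomial (Fin n) K)} (hM : GrM deg deg' M) (d : ℕ)
    (v : Fin c → MvPolynomial (Fin n) K) :
    M.mulVec (hcv deg' d v) = hcv deg d (M.mulVec v) := by
  funext s
  show ∑ k, M s k * (if deg' k ≤ d then homogeneousComponent (d - deg' k) (v k) else 0) =
    if deg s ≤ d then homogeneousComponent (d - deg s) (∑ k, M s k * v k) else 0
  by_cases hs : deg s ≤ d
  · rw [if_pos hs, map_sum]
    apply sum_congr rfl
    intro k _
    rcases hM s k with h0 | ⟨h1, h2⟩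
    · rw [h0, zero_mul, zero_mul, map_zero]
    · rw [hc_mul h2]
      by_cases hk : deg' k ≤ d
      · have h3 : d - deg s - (deg' k - deg s) = d - deg' k := by omega
        rw [if_pos hk, if_pos (by omega), h3]
      · rw [if_neg hk, if_neg (by omega), mul_zero]
  · rw [if_neg hs]
    apply sum_eq_zero
    intro k _
    rcases hM s k with h0 | ⟨h1, h2⟩
    · rw [h0, zero_mul]
    · rw [if_neg (by omega), mul_zero]

lemma kd_hcv {b : ℕ} (deg : Fin b → ℕ) (d : ℕ)
    (F : Finset (Fin n) → (Fin b → MvPolynomial (Fin n) K)) (Y : Finset (Fin n)) :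
    kd K (fun X => hcv deg d (F X)) Y = hcv deg (d + 1) (kd K F Y) := by
  unfold kd
  rw [hcv_sum]
  apply sum_congr rfl
  intro v _
  rw [hcv_smul]
  have h1 : (C (sg K v Y) : MvPolynomial (Fin n) K).IsHomogeneous 0 := isHomogeneous_C _ _
  have h2 : (X v : MvPolynomial (Fin n) K).IsHomogeneous 1 := isHomogeneous_X _ _
  simpa using h1.mul h2

lemma coeff_zero_of_HomV {b : ℕ} {deg : Fin b → ℕ} {d : ℕ} {f : Fin b → MvPolynomial (Fin n) K}
    (h : HomV deg d f) (k : Fin b) (hk : deg k < d) : coeff 0 (f k) = 0 := by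
  rcases h k with h0 | ⟨h1, h2⟩
  · rw [h0, coeff_zero]
  · apply h2.coeff_eq_zero
    rw [map_zero]; omega

/-- One step of the kernel direction: vanishing passes from the syzygies to the image. -/
theorem KV_image {b c : ℕ} {deg : Fin b → ℕ} {deg' : Fin c → ℕ}
    {M : Matrix (Fin b) (Fin c) (MvPolynomial (Fin n) K)} (hM : GrM deg deg' M)
    {N N' : Submodule (MvPolynomial (Fin n) K) _}
    (hN : ∀ v, v ∈ N ↔ ∃ w, M.mulVec w = v) (hN' : ∀ w, w ∈ N' ↔ M.mulVec w = 0)
    {m t : ℕ} (ht : t < n) (h : KV deg' N' (m + 1) (t + 1)) : KV deg N m t := by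
  classical
  intro F hF hFN
  have h1 : ∀ Y : Finset (Fin n), ∃ w, Y.card = t + 1 → HomV deg' (m + 1) w ∧
      M.mulVec w = kd K F Y := by
    intro Y
    by_cases hY : Y.card = t + 1
    · obtain ⟨w, hw⟩ := (hN _).mp (hFN Y hY)
      refine ⟨hcv deg' (m + 1) w, fun _ => ⟨HomV_hcv _ _ _, ?_⟩⟩
      rw [hcv_mulVec hM, hw, ← kd_hcv]
      apply kd_congr
      intro v hv
      apply hcv_of_HomV
      apply hF
      rw [card_erase_of_mem hv, hY]; rfl
    · exact ⟨0, fun h => absurd h hY⟩
  choose H hH using h1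
  let L := Matrix.mulVecLin M
  obtain ⟨g, hg⟩ := h H (fun Y hY => (hH Y hY).1) (by
    intro Z hZ
    rw [hN']
    have h2 : L (kd K H Z) = kd K (kd K F) Z := by
      rw [map_kd]
      apply kd_congr
      intro v hv
      exact (hH _ (by rw [card_erase_of_mem hv, hZ]; rfl)).2
    rw [kd_kd] at h2
    exact h2)
  obtain ⟨u, hu⟩ := free_exact (K := K) t (fun X => F X - L (g X)) (by
    intro Y hY
    rw [kd_sub, ← map_kd, ← (hH Y hY).2]
    have h2 := (hN' _).mp (hg Y hY)
    rw [Matrix.mulVec_sub] at h2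
    exact h2) (Or.inl ht)
  refine ⟨u, fun X hX => ?_⟩
  have h3 := hu X hX
  rw [hN]
  refine ⟨g X, ?_⟩
  rw [← h3]
  show L (g X) = F X - (F X - L (g X))
  abel

/-- The top case. -/
theorem KV_top {b : ℕ} {deg : Fin b → ℕ} (N : Submodule (MvPolynomial (Fin n) K) _)
    {m : ℕ} (hm : ∀ k, deg k < m) : KV deg N m n := by
  intro F hF _
  obtain ⟨g, hg⟩ := free_exact (K := K) n F (by
    intro Y hY
    exfalso
    have := card_le_univ Y
    rw [Fintype.card_fin] at this
    omega) (Or.inr (fun k => coeff_zero_of_HomV (hF univ (by simp)) k (hm k)))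
  refine ⟨g, fun X hX => ?_⟩
  rw [← hg X hX, sub_self]
  exact N.zero_mem

end Pool.Agent.H36
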