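import Pool.Agent.H36.Cochain

/-!
Koszul cochains over a polynomial ring: definitions shared by the two halves of the bridge.
-/

set_option autoImplicit false

namespace Pool.Agent.H36

open Finset

variable {n : ℕ} (K : Type*) [Field K]

/-- Koszul differential, written on functions of finite sets (cochain form). -/
noncomputable def kd {M : Type*} [AddCommGroup M] [Module (MvPolynomial (Fin n) K) M]
    (F : Finset (Fin n) → M) (Y : Finset (Fin n)) : M :=
  ∑ v ∈ Y, (MvPolynomial.C (sg K v Y) * MvPolynomial.X v : MvPolynomial (Fin n) K) • F (Y.erase v)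

variable {K}

/-- Homogeneous vectors of degree `d` in a free module with generators in degrees `deg`. -/
def HomV {b : ℕ} (deg : Fin b → ℕ) (d : ℕ) (f : Fin b → MvPolynomial (Fin n) K) : Prop :=
  ∀ k, f k = 0 ∨ (deg k ≤ d ∧ (f k).IsHomogeneous (d - deg k))

/-- Koszul vanishing for the quotient of a graded free module by `N`, for cochains of size `t`
with values homogeneous of degree `m`. -/
def KV {b : ℕ} (deg : Fin b → ℕ)
    (N : Submodule (MvPolynomial (Fin n) K) (Fin b → MvPolynomial (Fin n) K)) (m t : ℕ) : Prop :=
  ∀ F : Finset (Fin n) → (Fin b → MvPolynomial (Fin n) K),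
    (∀ X, X.card = t → HomV deg m (F X)) →
    (∀ Y, Y.card = t + 1 → kd K F Y ∈ N) →
    ∃ g : Finset (Fin n) → (Fin b → MvPolynomial (Fin n) K), ∀ X, X.card = t → F X - kd K g X ∈ N

/-- An ideal as a submodule of the free module of rank one. -/
def IV (I : Ideal (MvPolynomial (Fin n) K)) :
    Submodule (MvPolynomial (Fin n) K) (Fin 1 → MvPolynomial (Fin n) K) where
  carrier := {f | f 0 ∈ I}
  add_mem' := fun ha hb => I.add_mem ha hb
  zero_mem' := I.zero_mem
  smul_mem' := fun c _ hx => I.mul_mem_left c hx

end Pool.Agent.H36
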