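import Mathlib

/-!
Combinatorial membership predicates for powers of edge ideals.
-/

set_option autoImplicit false

namespace Pool.Agent.H36

open Finset

variable {V : Type*} [DecidableEq V]

/-- Subtract one at `u` and one at `v`. -/
def sub2 (b : V → ℕ) (u v : V) : V → ℕ :=
  fun w => b w - (if w = u then 1 else 0) - (if w = v then 1 else 0)

/-- `PwF G q F b`: there are `q` edges of `G` (with repetition) such that each vertex `v` outside
`F` occurs in them at most `b v` times.  For `F` empty this says that the monomial with exponent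
`b` lies in the `q`-th power of the edge ideal of `G`. -/
def PwF (G : SimpleGraph V) : ℕ → Finset V → (V → ℕ) → Prop
  | 0, _, _ => True
  | q + 1, F, b => ∃ u v, G.Adj u v ∧ (u ∉ F → 1 ≤ b u) ∧ (v ∉ F → 1 ≤ b v) ∧
      PwF G q F (sub2 b u v)

/-- The indicator of a finite set, as an exponent. -/
def ind (X : Finset V) : V → ℕ := fun v => if v ∈ X then 1 else 0

/-- The degree complex of the `q`-th power of the edge ideal in degree `a + 1_τ`. -/
def Dq (G : SimpleGraph V) (q : ℕ) (a : V → ℕ) (τ : Finset V) : Finset V → Prop :=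
  fun X => X ⊆ τ ∧ ¬ PwF G q ∅ (fun v => a v + ind X v)

/-- Independent faces. -/
def Ind (G : SimpleGraph V) (τ : Finset V) : Finset V → Prop :=
  fun X => X ⊆ τ ∧ ∀ u ∈ X, ∀ v ∈ X, ¬ G.Adj u v

end Pool.Agent.H36
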