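import Pool.Agent.H36.KDefs
import Pool.Agent.H36.PwDef

/-!
Basic properties of Koszul cochains: square zero, linearity, multidegree decomposition,
exactness for free modules.
-/

set_option autoImplicit false
set_option linter.unusedSectionVars false
set_option linter.unusedVariables false

namespace Pool.Agent.H36

open Finset MvPolynomial

variable {n : ℕ} {K : Type*} [Field K]

section Basic

variable {M : Type*} [AddCommGroup M] [Module (MvPolynomial (Fin n) K) M]

lemma kd_congr {F G : Finset (Fin n) → M} {Y : Finset (Fin n)}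
    (h : ∀ v ∈ Y, F (Y.erase v) = G (Y.erase v)) : kd K F Y = kd K G Y := by
  unfold kd
  exact sum_congr rfl (fun v hv => by rw [h v hv])

lemma kd_sub (F G : Finset (Fin n) → M) (Y : Finset (Fin n)) :
    kd K (fun X => F X - G X) Y = kd K F Y - kd K G Y := by
  unfold kd
  rw [← sum_sub_distrib]
  exact sum_congr rfl (fun v _ => by rw [smul_sub])

lemma kd_kd (F : Finset (Fin n) → M) (Y : Finset (Fin n)) : kd K (kd K F) Y = 0 := by
  unfold kd
  have h1 : ∀ v ∈ Y, (C (sg K v Y) * X v : MvPolynomial (Fin n) K) •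
      ∑ u ∈ Y.erase v, (C (sg K u (Y.erase v)) * X u : MvPolynomial (Fin n) K) •
        F ((Y.erase v).erase u)
      = ∑ u ∈ Y, if u = v then 0 else
          (C (sg K v Y * sg K u (Y.erase v)) * (X v * X u) : MvPolynomial (Fin n) K) •
            F ((Y.erase v).erase u) := by
    intro v hv
    rw [smul_sum, ← Finset.sum_erase (s := Y) (a := v)]
    · apply sum_congr rfl
      intro u hu
      rw [if_neg (mem_erase.mp hu).1, smul_smul, C_mul]
      congr 1
      ring
    · simp
  rw [sum_congr rfl h1]
  rw [← Finset.sum_product']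
  apply Finset.sum_involution (fun p _ => (p.2, p.1))
  · intro p hp
    simp only [mem_product] at hp
    by_cases h : p.1 = p.2
    · simp [h]
    · rw [if_neg (Ne.symm h), if_neg h, sg_swap hp.2 hp.1 (Ne.symm h), erase_right_comm,
        ← add_smul]
      have : (C (-(sg K p.2 Y * sg K p.1 (Y.erase p.2))) * (X p.1 * X p.2) +
        C (sg K p.2 Y * sg K p.1 (Y.erase p.2)) * (X p.2 * X p.1) : MvPolynomial (Fin n) K)
          = 0 := by
        rw [C_neg]; ring
      rw [this, zero_smul]
  · intro p hp h h'
    apply h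
    have : p.2 = p.1 := (Prod.ext_iff.mp h').1
    rw [if_pos this]
  · intro p hp
    simp only [mem_product] at hp ⊢
    exact ⟨hp.2, hp.1⟩
  · intro p hp
    rfl

lemma map_kd {M' : Type*} [AddCommGroup M'] [Module (MvPolynomial (Fin n) K) M']
    (L : M →ₗ[MvPolynomial (Fin n) K] M') (F : Finset (Fin n) → M) (Y : Finset (Fin n)) :
    L (kd K F Y) = kd K (fun X => L (F X)) Y := by
  unfold kd
  rw [map_sum]
  exact sum_congr rfl (fun v _ => by rw [map_smul])

lemma kd_apply {b : ℕ} (F : Finset (Fin n) → (Fin b → MvPolynomial (Fin n) K))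
    (Y : Finset (Fin n)) (k : Fin b) : kd K F Y k = kd K (fun X => F X k) Y :=
  map_kd (LinearMap.proj k) F Y

lemma kd_mem {N : Submodule (MvPolynomial (Fin n) K) M} {F : Finset (Fin n) → M}
    {Y : Finset (Fin n)} (h : ∀ v ∈ Y, F (Y.erase v) ∈ N) : kd K F Y ∈ N := by
  unfold kd
  exact N.sum_mem (fun v hv => N.smul_mem _ (h v hv))

end Basic

section Multi

/-- Exponent attached to a multidegree and a set. -/
noncomputable def exq (b : Fin n → ℕ) (X : Finset (Fin n)) : Fin n →₀ ℕ :=
  Finsupp.equivFunOnFinite.symm (fun v => if v ∈ X then b v else b v - 1)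

/-- The multidegree attached to an exponent and a set. -/
def bx (Z : Finset (Fin n)) (e : Fin n →₀ ℕ) : Fin n → ℕ := fun v => e v + if v ∈ Z then 0 else 1

/-- Zero set and support of a multidegree. -/
def zs (b : Fin n → ℕ) : Finset (Fin n) := univ.filter (fun v => b v = 0)

/-- The support of a multidegree. -/
def ns (b : Fin n → ℕ) : Finset (Fin n) := univ.filter (fun v => b v ≠ 0)

@[simp] lemma mem_zs {b : Fin n → ℕ} {v : Fin n} : v ∈ zs b ↔ b v = 0 := by simp [zs]

@[simp] lemma mem_ns {b : Fin n → ℕ} {v : Fin n} : v ∈ ns b ↔ b v ≠ 0 := by simp [ns]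

@[simp] lemma exq_apply (b : Fin n → ℕ) (X : Finset (Fin n)) (v : Fin n) :
    exq b X v = if v ∈ X then b v else b v - 1 := rfl

lemma exq_bx (Z : Finset (Fin n)) (e : Fin n →₀ ℕ) : exq (bx Z e) Z = e := by
  ext v
  rw [exq_apply]
  unfold bx
  split_ifs <;> omega

lemma zs_disj (b : Fin n → ℕ) {Y : Finset (Fin n)} (hY : Y ⊆ ns b) : Disjoint (zs b) Y := by
  rw [disjoint_left]
  intro v hv hvY
  exact (mem_ns.mp (hY hvY)) (mem_zs.mp hv)

lemma sg_union {v : Fin n} {A B : Finset (Fin n)} (h : Disjoint A B) :
    sg K v (A ∪ B) = sg K v A * sg K v B := by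
  unfold sg
  rw [filter_union, card_union_of_disjoint, pow_add]
  exact disjoint_filter_filter h

/-- The sign twist. -/
def eta (K : Type*) [Field K] (b : Fin n → ℕ) (X : Finset (Fin n)) : K :=
  ∏ u ∈ X, sg K u (zs b)

lemma eta_mul_self (b : Fin n → ℕ) (X : Finset (Fin n)) : eta K b X * eta K b X = 1 := by
  unfold eta
  rw [← prod_mul_distrib]
  exact prod_eq_one (fun u _ => sg_mul_self u (zs b))

lemma eta_erase {b : Fin n → ℕ} {X : Finset (Fin n)} {v : Fin n} (hv : v ∈ X) :
    eta K b X = sg K v (zs b) * eta K b (X.erase v) := by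
  unfold eta
  exact (mul_prod_erase X (fun u => sg K u (zs b)) hv).symm

/-- Coefficient formula for the Koszul differential. -/
lemma coeff_kd (b : Fin n → ℕ) {Y : Finset (Fin n)} (hY : Y ⊆ ns b)
    (G : Finset (Fin n) → MvPolynomial (Fin n) K) :
    coeff (exq b (zs b ∪ Y)) (kd K G (zs b ∪ Y)) =
      eta K b Y * cob K (fun X => eta K b X * coeff (exq b (zs b ∪ X)) (G (zs b ∪ X))) Y := by
  classical
  unfold kd
  rw [coeff_sum, sum_union (zs_disj b hY)]
  have h1 : ∀ v ∈ zs b, coeff (exq b (zs b ∪ Y))
      ((C (sg K v (zs b ∪ Y)) * X v : MvPolynomial (Fin n) K) • G ((zs b ∪ Y).erase v)) = 0 := by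
    intro v hv
    rw [smul_eq_mul, mul_assoc, coeff_C_mul, coeff_X_mul', if_neg, mul_zero]
    rw [Finsupp.mem_support_iff, exq_apply, if_pos (mem_union_left _ hv)]
    simp only [ne_eq, not_not]
    exact mem_zs.mp hv
  rw [sum_eq_zero h1, zero_add]
  unfold cob
  rw [mul_sum]
  apply sum_congr rfl
  intro v hv
  have hvz : v ∉ zs b := fun h => (mem_ns.mp (hY hv)) (mem_zs.mp h)
  rw [smul_eq_mul, mul_assoc, coeff_C_mul, coeff_X_mul', if_pos]
  · have h2 : exq b (zs b ∪ Y) - Finsupp.single v 1 = exq b (zs b ∪ Y.erase v) := by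
      ext w
      rw [Finsupp.tsub_apply, exq_apply, exq_apply, Finsupp.single_apply]
      by_cases hw : v = w
      · subst hw
        rw [if_pos (mem_union_right _ hv), if_pos rfl, if_neg]
        rw [mem_union, not_or]
        exact ⟨hvz, notMem_erase v Y⟩
      · rw [if_neg hw]
        have : w ∈ zs b ∪ Y ↔ w ∈ zs b ∪ Y.erase v := by
          simp only [mem_union, mem_erase]
          constructor
          · rintro (h | h)
            · exact Or.inl h
            · exact Or.inr ⟨fun h' => hw h'.symm, h⟩
          · rintro (h | h)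
            · exact Or.inl h
            · exact Or.inr h.2
        simp only [this, Nat.sub_zero]
    have h3 : (zs b ∪ Y).erase v = zs b ∪ Y.erase v := by
      ext w
      simp only [mem_union, mem_erase]
      constructor
      · rintro ⟨h, h' | h'⟩
        · exact Or.inl h'
        · exact Or.inr ⟨h, h'⟩
      · rintro (h | h)
        · exact ⟨fun h' => hvz (h' ▸ h), Or.inl h⟩
        · exact ⟨h.1, Or.inr h.2⟩
    rw [h2, h3, sg_union (zs_disj b hY), eta_erase hv]
    have h4 := eta_mul_self (K := K) b (Y.erase v)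
    linear_combination (- sg K v (zs b) * sg K v Y *
      coeff (exq b (zs b ∪ Y.erase v)) (G (zs b ∪ Y.erase v))) * h4
  · rw [Finsupp.mem_support_iff, exq_apply, if_pos (mem_union_right _ hv)]
    exact mem_ns.mp (hY hv)

/-- Multidegree decomposition: exactness of the Koszul cochains modulo a monomial subspace
follows from exactness of the degree complexes. -/
theorem multideg (J : (Fin n →₀ ℕ) → Prop) (t : ℕ) (F : Finset (Fin n) → MvPolynomial (Fin n) K)
    (hF : ∀ Y, Y.card = t + 1 → ∀ e, ¬ J e → coeff e (kd K F Y) = 0)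
    (hEx : ∀ X, X.card = t → ∀ e, coeff e (F X) ≠ 0 → ∀ t',
      t' + (zs (bx X e)).card = t →
      Ex K (fun X' => X' ⊆ ns (bx X e) ∧ ¬ J (exq (bx X e) (zs (bx X e) ∪ X'))) t') :
    ∃ g : Finset (Fin n) → MvPolynomial (Fin n) K,
      ∀ X, X.card = t → ∀ e, ¬ J e → coeff e (F X - kd K g X) = 0 := by
  classical
  let Bs : Finset (Fin n → ℕ) :=
    (univ.filter (fun X : Finset (Fin n) => X.card = t)).biUnion
      (fun X => (F X).support.image (fun e => bx X e))
  have hBs : ∀ X : Finset (Fin n), X.card = t → ∀ e, coeff e (F X) ≠ 0 → bx X e ∈ Bs := by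
    intro X hX e he
    simp only [Bs, mem_biUnion, mem_filter, mem_univ, true_and, mem_image]
    exact ⟨X, hX, e, by rwa [mem_support_iff], rfl⟩
  let phi : (Fin n → ℕ) → Finset (Fin n) → K :=
    fun b X => eta K b X * coeff (exq b (zs b ∪ X)) (F (zs b ∪ X))
  have hpsi : ∀ b : Fin n → ℕ, ∃ psi : Finset (Fin n) → K, (b ∉ Bs → psi = fun _ => 0) ∧
      (b ∈ Bs → ∀ X, X ⊆ ns b → ¬ J (exq b (zs b ∪ X)) → X.card + (zs b).card = t →
        phi b X = cob K psi X) := by
    intro b
    by_cases hb : b ∈ Bs
    · have hb' := hb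
      simp only [Bs, mem_biUnion, mem_filter, mem_univ, true_and, mem_image] at hb'
      obtain ⟨X0, hX0, e, he, hbe⟩ := hb'
      rw [mem_support_iff] at he
      have hEx' := hEx X0 hX0 e he
      rw [hbe] at hEx'
      have hzX : zs b ⊆ X0 := by
        intro v hv
        by_contra hcon
        rw [mem_zs, ← hbe] at hv
        unfold bx at hv
        rw [if_neg hcon] at hv
        omega
      have hzc : (zs b).card ≤ t := by rw [← hX0]; exact card_le_card hzX
      obtain ⟨psi, hpsi⟩ := hEx' (t - (zs b).card) (by omega) (phi b) (by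
        rintro Y ⟨hY1, hY2⟩ hYc
        have h1 := coeff_kd b hY1 F
        rw [hF (zs b ∪ Y) (by rw [card_union_of_disjoint (zs_disj b hY1)]; omega) _ hY2] at h1
        have h2 := eta_mul_self (K := K) b Y
        have h3 : eta K b Y ≠ 0 := by
          intro h; rw [h] at h2; simp at h2
        exact (mul_eq_zero.mp h1.symm).resolve_left h3)
      exact ⟨psi, fun h => absurd hb h, fun _ X hX1 hX2 hX3 => hpsi X ⟨hX1, hX2⟩ (by omega)⟩
    · exact ⟨fun _ => 0, fun _ => rfl, fun h => absurd h hb⟩
  choose psi hpsi0 hpsi1 using hpsi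
  let cf : Finset (Fin n) → (Fin n →₀ ℕ) → K := fun Z e =>
    eta K (bx Z e) (Z ∩ ns (bx Z e)) * psi (bx Z e) (Z ∩ ns (bx Z e))
  let g : Finset (Fin n) → MvPolynomial (Fin n) K := fun Z =>
    ∑ e ∈ Bs.image (fun b => exq b Z), monomial e (cf Z e)
  have hg : ∀ Z e, coeff e (g Z) = cf Z e := by
    intro Z e
    simp only [g, coeff_sum, coeff_monomial]
    rw [sum_ite_eq']
    split_ifs with h
    · rfl
    · have hbe : bx Z e ∉ Bs := by
        intro h'
        apply h
        rw [mem_image]
        exact ⟨bx Z e, h', exq_bx Z e⟩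
      simp only [cf, hpsi0 _ hbe, mul_zero]
  refine ⟨g, fun X hX e he => ?_⟩
  set b := bx X e with hb
  have heb : exq b X = e := exq_bx X e
  have hzX : zs b ⊆ X := by
    intro v hv
    by_contra hcon
    rw [mem_zs, hb] at hv
    unfold bx at hv
    rw [if_neg hcon] at hv
    omega
  have hsplit : ∀ Z : Finset (Fin n), zs b ⊆ Z → zs b ∪ (Z ∩ ns b) = Z := by
    intro Z hZ
    ext v
    simp only [mem_union, mem_inter, mem_zs, mem_ns]
    constructor
    · rintro (h | h)
      · exact hZ (mem_zs.mpr h)
      · exact h.1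
    · intro h
      by_cases h' : b v = 0
      · exact Or.inl h'
      · exact Or.inr ⟨h, h'⟩
  have hXs := hsplit X hzX
  have hXns : X ∩ ns b ⊆ ns b := inter_subset_right
  have h1 := coeff_kd b hXns g
  rw [hXs, heb] at h1
  have h2 : cob K (fun X' => eta K b X' * coeff (exq b (zs b ∪ X')) (g (zs b ∪ X')))
      (X ∩ ns b) = cob K (psi b) (X ∩ ns b) := by
    apply cob_congr
    intro v hv
    rw [hg]
    have hvX := (mem_inter.mp hv).1
    have hvb := (mem_inter.mp hv).2
    set Z := zs b ∪ (X ∩ ns b).erase v with hZ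
    have hbZ : bx Z (exq b Z) = b := by
      funext w
      unfold bx
      rw [exq_apply]
      by_cases hw : w ∈ Z
      · rw [if_pos hw, if_pos hw]; omega
      · rw [if_neg hw, if_neg hw]
        have : b w ≠ 0 := by
          intro h
          exact hw (mem_union_left _ (mem_zs.mpr h))
        omega
    have hZns : Z ∩ ns b = (X ∩ ns b).erase v := by
      ext w
      rw [hZ]
      simp only [mem_inter, mem_union, mem_erase, mem_zs, mem_ns]
      constructor
      · rintro ⟨h | h, h'⟩
        · exact absurd h h'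
        · exact h
      · rintro ⟨h, h', h''⟩
        exact ⟨Or.inr ⟨h, h', h''⟩, h''⟩
    simp only [cf, hbZ, hZns]
    rw [← mul_assoc, eta_mul_self, one_mul]
  rw [coeff_sub, h1, h2]
  by_cases hbB : b ∈ Bs
  · have h3 := hpsi1 b hbB (X ∩ ns b) hXns (by rw [hXs, heb]; exact he) (by
      have h4 := card_union_of_disjoint (zs_disj b hXns)
      rw [hXs, hX] at h4
      omega)
    rw [← h3]
    simp only [phi]
    rw [hXs, heb, ← mul_assoc, eta_mul_self, one_mul, sub_self]
  · have h3 : coeff e (F X) = 0 := by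
      by_contra h
      exact hbB (hBs X hX e h)
    rw [h3, hpsi0 b hbB]
    simp [cob]

/-- Exactness of Koszul cochains with values in a free module. -/
theorem free_exact {c : ℕ} (t : ℕ) (F : Finset (Fin n) → (Fin c → MvPolynomial (Fin n) K))
    (hF : ∀ Y, Y.card = t + 1 → kd K F Y = 0)
    (h0 : t < n ∨ ∀ k, coeff 0 (F univ k) = 0) :
    ∃ g : Finset (Fin n) → (Fin c → MvPolynomial (Fin n) K),
      ∀ X, X.card = t → F X = kd K g X := by
  have h1 : ∀ k : Fin c, ∃ g : Finset (Fin n) → MvPolynomial (Fin n) K,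
      ∀ X, X.card = t → ∀ e, ¬ False → coeff e (F X k - kd K g X) = 0 := by
    intro k
    apply multideg (fun _ => False) t (fun X => F X k)
    · intro Y hY e _
      rw [← kd_apply, hF Y hY]
      simp
    · intro X hX e he t' ht'
      have : ∃ w, w ∈ ns (bx X e) := by
        by_cases hXu : X = univ
        · rcases h0 with h0 | h0
          · rw [hXu, card_univ, Fintype.card_fin] at hX
            omega
          · have he0 : e ≠ 0 := by
              intro h
              rw [h, hXu] at he
              exact he (h0 k)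
            obtain ⟨w, hw⟩ : ∃ w, e w ≠ 0 := by
              by_contra hcon
              push Not at hcon
              exact he0 (Finsupp.ext hcon)
            refine ⟨w, mem_ns.mpr ?_⟩
            unfold bx
            omega
        · obtain ⟨w, hw⟩ : ∃ w, w ∉ X := by
            by_contra hcon
            push Not at hcon
            exact hXu (eq_univ_of_forall hcon)
          refine ⟨w, mem_ns.mpr ?_⟩
          unfold bx
          rw [if_neg hw]
          omega
      obtain ⟨w, hw⟩ := this
      apply Ex_cone w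
      rintro σ ⟨h1, h2⟩
      exact ⟨insert_subset hw h1, not_false⟩
  choose g hg using h1
  refine ⟨fun X k => g k X, fun X hX => ?_⟩
  funext k
  rw [kd_apply]
  apply MvPolynomial.ext
  intro e
  have := hg k X hX e not_false
  rw [coeff_sub] at this
  exact sub_eq_zero.mp this

end Multi

end Pool.Agent.H36
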