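import Pool.Agent.H36.LES_Limit

/-! # L14: existence of weak solutions from the sequence and the limit objects -/

open MeasureTheory Set Filter Topology
open scoped ContDiff ENNReal
open H36.MHD

noncomputable section

namespace H37.LES

/-- statement of L11 -/
def SeqStatement : Prop := ∀ P : Prob,
    ∃ (V : ℕ → Fin 3 → X → ℝ) (R : ℕ → Fin 3 → Fin 3 → X → ℝ),
    (∀ n, P.IsPert (V n)) ∧ (∀ n, P.IsErr (R n)) ∧
    (∀ n φ, P.IsTest φ → P.Res (V n) φ = P.Bd (R n) φ) ∧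
    (∀ n i z, |V (n + 1) i z - V n i z| ≤ (1 / 16) ^ n) ∧
    (∀ n i j, ∫ z, (dx j (V (n + 2) i) z - dx j (V (n + 1) i) z) ^ 2 ∂P.μ ≤ (1 / 16) ^ n) ∧
    (∀ n, P.L1 (R (n + 1)) ≤ (1 / 16) ^ n)

/-- statement of L12 -/
def LimStatement : Prop := ∀ (P : Prob) (V : ℕ → Fin 3 → X → ℝ) (_ : ∀ n, P.IsPert (V n))
    (_ : ∀ n i z, |V (n + 1) i z - V n i z| ≤ (1 / 16) ^ n)
    (_ : ∀ n i j, ∫ z, (dx j (V (n + 1) i) z - dx j (V n i) z) ^ 2 ∂P.μ ≤ (1 / 16) ^ n),
    ∃ (U : Fin 3 → X → ℝ) (H : Fin 3 → Fin 3 → X → ℝ), (∀ i, Continuous (U i)) ∧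
      (∀ i, ∃ C, ∀ n z, |V n i z| ≤ C ∧ |U i z| ≤ C) ∧
      (∀ i z, Tendsto (fun n => V n i z) atTop (𝓝 (U i z))) ∧
      (∀ i j, Measurable (H i j)) ∧ (∀ i j, MemLp (H i j) 2 P.μ) ∧
      (∀ i j, Tendsto (fun n => ∫ z, (dx j (V n i) z - H i j z) ^ 2 ∂P.μ) atTop (𝓝 0)) ∧
      ∀ᵐ t ∂(volume.restrict (Ioo 0 P.T)),
        InV P.Ω (fun x i => P.w0 x i + U i (t, x)) (fun x i j => P.G0 x i j + H i j (t, x))

lemma memLp_slice (P : Prob) {E : Type*} [NormedAddCommGroup E] (g : V3 → E)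
    (hg : MemLp g 2 (volume.restrict P.Ω)) : MemLp (fun z : X => g z.2) 2 P.μ := by
  have hμ : P.μ = (volume.restrict (Ioo 0 P.T)).prod (volume.restrict P.Ω) := by
    show volume.restrict (Ioo 0 P.T ×ˢ P.Ω) = _
    rw [Measure.prod_restrict]
    rfl
  rw [hμ]
  exact hg.comp_snd _

theorem exists_weak_of (hseq : SeqStatement) (hlo : LimStatement) (Ω : Set V3) (hΩ : IsOpen Ω)
    (hb : Bornology.IsBounded Ω) (Re δ T : ℝ)
    (_hRe : 0 < Re) (hδ : 0 < δ) (hT : 0 < T) (w₀ : V3 → V3) (G₀ : V3 → Fin 3 → Fin 3 → ℝ)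
    (hw₀ : InV Ω w₀ G₀) (f : ℝ → V3 → V3)
    (hf : Integrable (fun z : ℝ × V3 => f z.1 z.2) (volume.restrict (cyl Ω T))) :
    ∃ w : ℝ → V3 → V3, IsWeakSolution Ω Re δ T w₀ f w := by
  let P : Prob := ⟨Ω, hΩ, hb, T, hT, 1 / Re, δ ^ 2 / 12, by positivity, w₀, G₀, hw₀,
    fun z => f z.1 z.2, hf⟩
  have hfin : IsFiniteMeasure P.μ := isFinite_cyl hb
  have hfinΩ : IsFiniteMeasure (volume.restrict Ω) := isFinite_om hb
  obtain ⟨V, R, hV, hR, hres, h1, h2, h3⟩ := hseq P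
  have hpow : ∀ n : ℕ, ((1:ℝ) / 16) ^ (n + 1) ≤ (1 / 16) ^ n := fun n =>
    pow_le_pow_of_le_one (by norm_num) (by norm_num) (Nat.le_succ n)
  obtain ⟨U, H, hU, hbd, hlim, hHm, hH, hlimH, hInV⟩ := hlo P (fun n => V (n + 1))
    (fun n => hV (n + 1)) (fun n i z => (h1 (n + 1) i z).trans (hpow n)) (fun n i j => h2 n i j)
  have hR0 : Tendsto (fun n => P.L1 (R (n + 1))) atTop (𝓝 0) := by
    refine squeeze_zero (fun n => ?_) h3 (tendsto_pow_atTop_nhds_zero_of_lt_one (by norm_num)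
      (by norm_num))
    exact Finset.sum_nonneg fun i _ => Finset.sum_nonneg fun j _ =>
      integral_nonneg fun z => abs_nonneg _
  -- square integrability
  have hUm : ∀ i, MemLp (U i) 2 P.μ := fun i => by
    obtain ⟨C, hC⟩ := hbd i
    exact MemLp.of_bound (hU i).aestronglyMeasurable C (Eventually.of_forall fun z => (hC 0 z).2)
  have hw0 : MemLp (fun z : X => w₀ z.2) 2 P.μ := memLp_slice P w₀ hw₀.1.1.1
  have hG0 : MemLp (fun z : X => G₀ z.2) 2 P.μ := memLp_slice P G₀ hw₀.1.1.2.1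
  have hUv : MemLp (fun z : X => fun i => U i z) 2 P.μ := MemLp.of_eval hUm
  have hHv : MemLp (fun z : X => fun i j => H i j z) 2 P.μ :=
    MemLp.of_eval fun i => MemLp.of_eval fun j => hH i j
  refine ⟨fun t x i => w₀ x i + U i (t, x), fun t x i j => G₀ x i j + H i j (t, x),
    hw0.add hUv, hG0.add hHv, hInV, ?_, ?_⟩
  · -- bound in `L^∞(L^2)`
    choose C hC using hbd
    refine ⟨∫ x in Ω, (∑ i, (2 * (w₀ x i) ^ 2 + 2 * C i ^ 2)), Eventually.of_forall fun t => ?_⟩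
    have hint : Integrable (fun x => ∑ i, (2 * (w₀ x i) ^ 2 + 2 * C i ^ 2)) (volume.restrict Ω) := by
      refine integrable_finsetSum _ fun i _ => ?_
      have h4 : MemLp (fun x => w₀ x i) 2 (volume.restrict Ω) :=
        (ContinuousLinearMap.proj (R := ℝ) (φ := fun _ : Fin 3 => ℝ) i).comp_memLp' hw₀.1.1.1
      exact (h4.integrable_sq.const_mul 2).add (integrable_const _)
    refine integral_mono_of_nonneg (Eventually.of_forall fun x => ?_) hint
      (Eventually.of_forall fun x => ?_)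
    · exact Finset.sum_nonneg fun i _ => mul_self_nonneg _
    · show ∑ i, (w₀ x i + U i (t, x)) * (w₀ x i + U i (t, x)) ≤ _
      refine Finset.sum_le_sum fun i _ => ?_
      have h5 := (hC i 0 (t, x)).2
      have h6 : (U i (t, x)) ^ 2 ≤ C i ^ 2 := by
        rw [← sq_abs]
        exact pow_le_pow_left₀ (abs_nonneg _) h5 2
      nlinarith [sq_nonneg (w₀ x i - U i (t, x))]
  · intro φ hφ hφc hφs hdiv
    have htest : P.IsTest (fun i z => φ z i) := by
      refine ⟨fun i => ?_, fun i => ?_, fun i => ?_, fun z hz => hdiv z hz⟩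
      · exact (contDiff_pi.1 hφ) i
      · exact HasCompactSupport.of_support_subset_isCompact hφc
          ((subset_tsupport _).trans (tsupport_comp_subset φ i))
      · exact (tsupport_comp_subset φ i).trans hφs
    have := limit_res P (fun n => V (n + 1)) (fun n => hV (n + 1)) (fun n => R (n + 1))
      (fun n => hR (n + 1)) (fun n φ hφ => hres (n + 1) φ hφ) hR0 U H hU hbd hlim hH hlimH
      (fun i z => φ z i) htest
    exact this

end H37.LES
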