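import Pool.Agent.H37.LES.Defs
import Pool.Agent.H36.MHD.Main

/-! # L13: limit of the residual -/

open MeasureTheory Set Filter Topology
open scoped ContDiff ENNReal
open H36.MHD

noncomputable section

namespace H37.LES

section Conv

variable {α : Type*} [MeasurableSpace α] {μ : Measure α}

/-- Cauchy-Schwarz -/
lemma lim_cs {a b : α → ℝ} (ha : MemLp a 2 μ) (hb : MemLp b 2 μ) :
    ∫ z, |a z * b z| ∂μ ≤ √(∫ z, (a z) ^ 2 ∂μ) * √(∫ z, (b z) ^ 2 ∂μ) := by
  have h := integral_mul_le_Lp_mul_Lq_of_nonneg (μ := μ) (p := 2) (q := 2) Real.HolderConjugate.two_two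
    (f := fun z => |a z|) (g := fun z => |b z|)
    (Eventually.of_forall fun _ => abs_nonneg _) (Eventually.of_forall fun _ => abs_nonneg _)
    (by simpa using! ha.abs) (by simpa using! hb.abs)
  have e1 : ∀ c : α → ℝ, (∫ z, |c z| ^ (2:ℝ) ∂μ) ^ (1 / (2:ℝ)) = √(∫ z, (c z) ^ 2 ∂μ) := by
    intro c
    rw [Real.sqrt_eq_rpow]
    congr 1
    refine integral_congr_ae (Eventually.of_forall fun z => ?_)
    simp
  rw [e1, e1] at h
  calc ∫ z, |a z * b z| ∂μ = ∫ z, |a z| * |b z| ∂μ := by simp only [abs_mul]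
    _ ≤ _ := h

/-- convergence in `L^1` -/
def L1C (μ : Measure α) (F : ℕ → α → ℝ) (G : α → ℝ) : Prop :=
  (∀ n, Integrable (F n) μ) ∧ Integrable G μ ∧
    Tendsto (fun n => ∫ z, |F n z - G z| ∂μ) atTop (𝓝 0)

/-- convergence in `L^2` -/
def L2C (μ : Measure α) (F : ℕ → α → ℝ) (G : α → ℝ) : Prop :=
  (∀ n, MemLp (F n) 2 μ) ∧ MemLp G 2 μ ∧
    Tendsto (fun n => ∫ z, (F n z - G z) ^ 2 ∂μ) atTop (𝓝 0)

lemma L1C.tendsto {F : ℕ → α → ℝ} {G : α → ℝ} (h : L1C μ F G) :
    Tendsto (fun n => ∫ z, F n z ∂μ) atTop (𝓝 (∫ z, G z ∂μ)) := by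
  rw [tendsto_iff_norm_sub_tendsto_zero]
  refine squeeze_zero (fun _ => norm_nonneg _) (fun n => ?_) h.2.2
  rw [← integral_sub (h.1 n) h.2.1]
  exact norm_integral_le_integral_norm _

lemma L1C.congr {F F' : ℕ → α → ℝ} {G G' : α → ℝ} (h : L1C μ F G) (h1 : ∀ n z, F' n z = F n z)
    (h2 : ∀ z, G' z = G z) : L1C μ F' G' := by
  have e1 : F' = F := by funext n z; exact h1 n z
  have e2 : G' = G := by funext z; exact h2 z
  rw [e1, e2]
  exact h

lemma L1C.const {g : α → ℝ} (hg : Integrable g μ) : L1C μ (fun _ => g) g :=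
  ⟨fun _ => hg, hg, by simp⟩

lemma L1C.add {F F' : ℕ → α → ℝ} {G G' : α → ℝ} (h : L1C μ F G) (h' : L1C μ F' G') :
    L1C μ (fun n z => F n z + F' n z) (fun z => G z + G' z) := by
  refine ⟨fun n => (h.1 n).add (h'.1 n), h.2.1.add h'.2.1, ?_⟩
  have h3 := h.2.2.add h'.2.2
  rw [add_zero] at h3
  refine squeeze_zero (fun _ => integral_nonneg fun _ => abs_nonneg _) (fun n => ?_) h3
  have i1 : Integrable (fun z => |F n z - G z|) μ := ((h.1 n).sub h.2.1).abs
  have i2 : Integrable (fun z => |F' n z - G' z|) μ := ((h'.1 n).sub h'.2.1).abs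
  rw [← integral_add i1 i2]
  refine integral_mono_of_nonneg (Eventually.of_forall fun _ => abs_nonneg _) (i1.add i2)
    (Eventually.of_forall fun z => ?_)
  show |F n z + F' n z - (G z + G' z)| ≤ |F n z - G z| + |F' n z - G' z|
  have : F n z + F' n z - (G z + G' z) = (F n z - G z) + (F' n z - G' z) := by ring
  rw [this]
  exact abs_add_le _ _

lemma L1C.mul_bdd {F : ℕ → α → ℝ} {G : α → ℝ} (h : L1C μ F G) {g : α → ℝ} {C : ℝ}
    (hg : AEStronglyMeasurable g μ) (hC : ∀ z, |g z| ≤ C) :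
    L1C μ (fun n z => F n z * g z) (fun z => G z * g z) := by
  have hbd : ∀ f : α → ℝ, Integrable f μ → Integrable (fun z => f z * g z) μ := fun f hf =>
    hf.mul_bdd (c := C) hg (Eventually.of_forall fun z => by simpa using hC z)
  refine ⟨fun n => hbd _ (h.1 n), hbd _ h.2.1, ?_⟩
  have h3 := h.2.2.mul_const C
  rw [zero_mul] at h3
  refine squeeze_zero (fun _ => integral_nonneg fun _ => abs_nonneg _) (fun n => ?_) h3
  have i1 : Integrable (fun z => |F n z - G z|) μ := ((h.1 n).sub h.2.1).abs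
  rw [← integral_mul_const]
  refine integral_mono_of_nonneg (Eventually.of_forall fun _ => abs_nonneg _) (i1.mul_const C)
    (Eventually.of_forall fun z => ?_)
  show |F n z * g z - G z * g z| ≤ |F n z - G z| * C
  rw [← sub_mul, abs_mul]
  exact mul_le_mul_of_nonneg_left (hC z) (abs_nonneg _)

lemma L1C.const_mul {F : ℕ → α → ℝ} {G : α → ℝ} (h : L1C μ F G) (c : ℝ) :
    L1C μ (fun n z => c * F n z) (fun z => c * G z) := by
  refine (h.mul_bdd (g := fun _ => c) (C := |c|) aestronglyMeasurable_const (fun _ => le_rfl)).congr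
    (fun n z => mul_comm _ _) (fun z => mul_comm _ _)

lemma L1C.neg {F : ℕ → α → ℝ} {G : α → ℝ} (h : L1C μ F G) :
    L1C μ (fun n z => - F n z) (fun z => - G z) :=
  (h.const_mul (-1)).congr (fun n z => by ring) (fun z => by ring)

lemma L1C.sub {F F' : ℕ → α → ℝ} {G G' : α → ℝ} (h : L1C μ F G) (h' : L1C μ F' G') :
    L1C μ (fun n z => F n z - F' n z) (fun z => G z - G' z) :=
  (h.add h'.neg).congr (fun n z => by ring) (fun z => by ring)

lemma L1C.sum3 {F : Fin 3 → ℕ → α → ℝ} {G : Fin 3 → α → ℝ} (h : ∀ i, L1C μ (F i) (G i)) :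
    L1C μ (fun n z => ∑ i, F i n z) (fun z => ∑ i, G i z) := by
  simp only [Fin.sum_univ_three]
  exact ((h 0).add (h 1)).add (h 2)

lemma L2C.add_const {F : ℕ → α → ℝ} {G : α → ℝ} (h : L2C μ F G) {g : α → ℝ} (hg : MemLp g 2 μ) :
    L2C μ (fun n z => g z + F n z) (fun z => g z + G z) := by
  refine ⟨fun n => hg.add (h.1 n), hg.add h.2.1, ?_⟩
  refine h.2.2.congr fun n => ?_
  refine integral_congr_ae (Eventually.of_forall fun z => ?_)
  simp

lemma L2C.mul {F F' : ℕ → α → ℝ} {G G' : α → ℝ} (h : L2C μ F G) (h' : L2C μ F' G') :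
    L1C μ (fun n z => F n z * F' n z) (fun z => G z * G' z) := by
  refine ⟨fun n => (h.1 n).integrable_mul (h'.1 n), h.2.1.integrable_mul h'.2.1, ?_⟩
  have hsq : ∀ {A : ℕ → α → ℝ} {B : α → ℝ}, L2C μ A B →
      Tendsto (fun n => √(∫ z, (A n z - B z) ^ 2 ∂μ)) atTop (𝓝 0) := by
    intro A B hAB
    have := (Real.continuous_sqrt.tendsto 0).comp hAB.2.2
    rw [Real.sqrt_zero] at this
    exact this
  have l1 := hsq h
  have l2 := hsq h'
  have h3 := ((l1.mul l2).add ((l2.const_mul (√(∫ z, (G z) ^ 2 ∂μ))))).add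
    (l1.mul_const (√(∫ z, (G' z) ^ 2 ∂μ)))
  simp only [mul_zero, zero_mul, add_zero] at h3
  refine squeeze_zero (fun _ => integral_nonneg fun _ => abs_nonneg _) (fun n => ?_) h3
  have m1 : MemLp (fun z => F n z - G z) 2 μ := (h.1 n).sub h.2.1
  have m2 : MemLp (fun z => F' n z - G' z) 2 μ := (h'.1 n).sub h'.2.1
  have c1 := lim_cs m1 m2
  have c2 := lim_cs h.2.1 m2
  have c3 := lim_cs m1 h'.2.1
  have i1 : Integrable (fun z => |(F n z - G z) * (F' n z - G' z)|) μ := (m1.integrable_mul m2).abs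
  have i2 : Integrable (fun z => |G z * (F' n z - G' z)|) μ := (h.2.1.integrable_mul m2).abs
  have i3 : Integrable (fun z => |(F n z - G z) * G' z|) μ := (m1.integrable_mul h'.2.1).abs
  have hle : ∫ z, |F n z * F' n z - G z * G' z| ∂μ ≤ ∫ z, (|(F n z - G z) * (F' n z - G' z)|
      + |G z * (F' n z - G' z)| + |(F n z - G z) * G' z|) ∂μ := by
    refine integral_mono_of_nonneg (Eventually.of_forall fun _ => abs_nonneg _) ((i1.add i2).add i3)
      (Eventually.of_forall fun z => ?_)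
    show |F n z * F' n z - G z * G' z| ≤ |(F n z - G z) * (F' n z - G' z)|
      + |G z * (F' n z - G' z)| + |(F n z - G z) * G' z|
    have e : F n z * F' n z - G z * G' z = (F n z - G z) * (F' n z - G' z)
      + G z * (F' n z - G' z) + (F n z - G z) * G' z := by ring
    rw [e]
    exact (abs_add_le _ _).trans (add_le_add (abs_add_le _ _) le_rfl)
  have i12 : Integrable (fun z => |(F n z - G z) * (F' n z - G' z)| + |G z * (F' n z - G' z)|) μ :=
    i1.add i2
  rw [integral_add i12 i3, integral_add i1 i2] at hle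
  linarith

lemma L2C.toL1 [IsFiniteMeasure μ] {F : ℕ → α → ℝ} {G : α → ℝ} (h : L2C μ F G) : L1C μ F G := by
  have h1 : L2C μ (fun _ _ => (1:ℝ)) (fun _ : α => (1:ℝ)) :=
    ⟨fun _ => memLp_const _, memLp_const _, by simp⟩
  exact (h.mul h1).congr (fun n z => (mul_one _).symm) (fun z => (mul_one _).symm)

/-- bounded convergence gives convergence in `L^2` -/
lemma L2C.of_bdd [IsFiniteMeasure μ] {F : ℕ → α → ℝ} {G : α → ℝ}
    (hF : ∀ n, AEStronglyMeasurable (F n) μ) (hG : AEStronglyMeasurable G μ) {C : ℝ}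
    (hC : ∀ n z, |F n z| ≤ C ∧ |G z| ≤ C) (hlim : ∀ z, Tendsto (fun n => F n z) atTop (𝓝 (G z))) :
    L2C μ F G := by
  refine ⟨fun n => MemLp.of_bound (hF n) C (Eventually.of_forall fun z => (hC n z).1),
    MemLp.of_bound hG C (Eventually.of_forall fun z => (hC 0 z).2), ?_⟩
  have h0 : (0:ℝ) = ∫ _z : α, (0:ℝ) ∂μ := by simp
  rw [h0]
  refine tendsto_integral_of_dominated_convergence (fun _ => (2 * C) ^ 2)
    (fun n => ((hF n).sub hG).pow 2) (integrable_const _) (fun n => Eventually.of_forall fun z => ?_)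
    (Eventually.of_forall fun z => ?_)
  · rw [Real.norm_eq_abs, abs_pow]
    refine pow_le_pow_left₀ (abs_nonneg _) ?_ 2
    have := (hC n z).1
    have := (hC n z).2
    exact (abs_sub _ _).trans (by linarith)
  · have := ((hlim z).sub_const (G z)).pow 2
    simpa using this

end Conv

/-- the residual functional for given velocity and gradient -/
lemma bd_le (P : Prob) (R : Fin 3 → Fin 3 → X → ℝ) (hR : P.IsErr R) (φ : Fin 3 → X → ℝ) (C : ℝ)
    (hC : ∀ i j z, |dx j (φ i) z| ≤ C) (hm : ∀ i j, Continuous (dx j (φ i))) :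
    |P.Bd R φ| ≤ C * P.L1 R := by
  unfold Prob.Bd Prob.L1
  have hint : ∀ i j, Integrable (fun z => R i j z * dx j (φ i) z) P.μ := fun i j =>
    (hR.int i j).mul_bdd (c := C) (hm i j).aestronglyMeasurable
      (Eventually.of_forall fun z => by simpa using hC i j z)
  rw [integral_finsetSum _ (fun i _ => integrable_finsetSum _ fun j _ => hint i j), Finset.mul_sum]
  refine (Finset.abs_sum_le_sum_abs _ _).trans (Finset.sum_le_sum fun i _ => ?_)
  rw [integral_finsetSum _ (fun j _ => hint i j), Finset.mul_sum]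
  refine (Finset.abs_sum_le_sum_abs _ _).trans (Finset.sum_le_sum fun j _ => ?_)
  rw [← Real.norm_eq_abs]
  refine (norm_integral_le_integral_norm _).trans ?_
  rw [← integral_const_mul]
  refine integral_mono_of_nonneg (Eventually.of_forall fun _ => norm_nonneg _)
    ((hR.int i j).abs.const_mul C) (Eventually.of_forall fun z => ?_)
  show ‖R i j z * dx j (φ i) z‖ ≤ C * |R i j z|
  rw [Real.norm_eq_abs, abs_mul, mul_comm C]
  exact mul_le_mul_of_nonneg_left (hC i j z) (abs_nonneg _)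

theorem limit_res (P : Prob) (V : ℕ → Fin 3 → X → ℝ) (hV : ∀ n, P.IsPert (V n))
    (R : ℕ → Fin 3 → Fin 3 → X → ℝ) (hR : ∀ n, P.IsErr (R n))
    (hres : ∀ n φ, P.IsTest φ → P.Res (V n) φ = P.Bd (R n) φ)
    (hR0 : Tendsto (fun n => P.L1 (R n)) atTop (𝓝 0))
    (U : Fin 3 → X → ℝ) (H : Fin 3 → Fin 3 → X → ℝ) (hU : ∀ i, Continuous (U i))
    (hb : ∀ i, ∃ C, ∀ n z, |V n i z| ≤ C ∧ |U i z| ≤ C)
    (hlim : ∀ i z, Tendsto (fun n => V n i z) atTop (𝓝 (U i z)))
    (hH : ∀ i j, MemLp (H i j) 2 P.μ)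
    (hlimH : ∀ i j, Tendsto (fun n => ∫ z, (dx j (V n i) z - H i j z) ^ 2 ∂P.μ) atTop (𝓝 0))
    (φ : Fin 3 → X → ℝ) (hφ : P.IsTest φ) :
    (∫ z, ((-∑ i, (P.w0 z.2 i + U i z) * dt (φ i) z)
      + (∑ i, ∑ j, (P.w0 z.2 j + U j z) * (P.G0 z.2 i j + H i j z) * φ i z)
      + P.nu * (∑ i, ∑ j, (P.G0 z.2 i j + H i j z) * dx j (φ i) z)
      - P.al * (∑ i, ∑ j, (∑ l, (P.G0 z.2 i l + H i l z) * (P.G0 z.2 j l + H j l z))
          * dx j (φ i) z)
      - ∑ i, P.f z i * φ i z) ∂P.μ)
    = ∫ x in P.Ω, ∑ i, P.w0 x i * φ i (0, x) := by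
  have hfin : IsFiniteMeasure P.μ := isFinite_cyl P.hb
  -- bounds for the test field
  have hbd : ∀ g : X → ℝ, Continuous g → HasCompactSupport g → ∃ C, ∀ z, |g z| ≤ C := by
    intro g hg hc
    obtain ⟨C, hC⟩ := hg.bounded_above_of_compact_support hc
    exact ⟨C, fun z => hC z⟩
  have cdx : ∀ i j, Continuous (dx j (φ i)) := fun i j => (smooth_dx (hφ.smooth i) j).continuous
  have sdx : ∀ i j, HasCompactSupport (dx j (φ i)) := fun i j =>
    HasCompactSupport.of_support_subset_isCompact (hφ.compact i)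
      ((subset_tsupport _).trans (tsupport_dx_subset (φ i) j))
  have cdt : ∀ i, Continuous (dt (φ i)) := fun i => (smooth_dt (hφ.smooth i)).continuous
  have sdt : ∀ i, HasCompactSupport (dt (φ i)) := fun i =>
    HasCompactSupport.of_support_subset_isCompact (hφ.compact i)
      ((subset_tsupport _).trans (tsupport_dt_subset (φ i)))
  choose Cx hCx using fun i j => hbd _ (cdx i j) (sdx i j)
  choose Ct hCt using fun i => hbd _ (cdt i) (sdt i)
  choose Cφ hCφ using fun i => hbd _ (hφ.smooth i).continuous (hφ.compact i)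
  -- `L^2` data
  have hslice : ∀ g : V3 → ℝ, MemLp g 2 (volume.restrict P.Ω) → MemLp (fun z : X => g z.2) 2 P.μ := by
    intro g hg
    have hμ : P.μ = (volume.restrict (Ioo 0 P.T)).prod (volume.restrict P.Ω) := by
      show volume.restrict (Ioo 0 P.T ×ˢ P.Ω) = _
      rw [Measure.prod_restrict]
      rfl
    rw [hμ]
    exact hg.comp_snd _
  have hw0 : ∀ i, MemLp (fun z : X => P.w0 z.2 i) 2 P.μ := by
    intro i
    exact hslice (fun x => P.w0 x i) ((ContinuousLinearMap.proj (R := ℝ) (φ := fun _ : Fin 3 => ℝ) i).comp_memLp' P.hw0.1.1.1)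
  have hG0 : ∀ i j, MemLp (fun z : X => P.G0 z.2 i j) 2 P.μ := by
    intro i j
    have h1 := P.hw0.1.1.2.1
    have h2 : MemLp (fun x => P.G0 x i) 2 (volume.restrict P.Ω) :=
      (ContinuousLinearMap.proj (R := ℝ) (φ := fun _ : Fin 3 => Fin 3 → ℝ) i).comp_memLp' h1
    exact hslice (fun x => P.G0 x i j)
      ((ContinuousLinearMap.proj (R := ℝ) (φ := fun _ : Fin 3 => ℝ) j).comp_memLp' h2)
  have hW : ∀ i, L2C P.μ (fun n z => P.w0 z.2 i + V n i z) (fun z => P.w0 z.2 i + U i z) := by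
    intro i
    obtain ⟨C, hC⟩ := hb i
    exact (L2C.of_bdd (fun n => ((hV n).smooth i).continuous.aestronglyMeasurable)
      (hU i).aestronglyMeasurable hC (hlim i)).add_const (hw0 i)
  have hGG : ∀ i j, L2C P.μ (fun n z => P.G0 z.2 i j + dx j (V n i) z)
      (fun z => P.G0 z.2 i j + H i j z) := by
    intro i j
    refine L2C.add_const ⟨fun n => ?_, hH i j, hlimH i j⟩ (hG0 i j)
    have c1 : Continuous (dx j (V n i)) := (smooth_dx ((hV n).smooth i) j).continuous
    have c2 : HasCompactSupport (dx j (V n i)) :=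
      HasCompactSupport.of_support_subset_isCompact ((hV n).compact i)
        ((subset_tsupport _).trans (tsupport_dx_subset (V n i) j))
    exact c1.memLp_of_hasCompactSupport c2
  -- the integrand
  have key : L1C P.μ
      (fun n z => ((-∑ i, P.W (V n) i z * dt (φ i) z)
        + (∑ i, ∑ j, P.W (V n) j z * P.G (V n) i j z * φ i z)
        + P.nu * (∑ i, ∑ j, P.G (V n) i j z * dx j (φ i) z)
        - P.al * (∑ i, ∑ j, (∑ l, P.G (V n) i l z * P.G (V n) j l z) * dx j (φ i) z)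
        - ∑ i, P.f z i * φ i z))
      (fun z => ((-∑ i, (P.w0 z.2 i + U i z) * dt (φ i) z)
      + (∑ i, ∑ j, (P.w0 z.2 j + U j z) * (P.G0 z.2 i j + H i j z) * φ i z)
      + P.nu * (∑ i, ∑ j, (P.G0 z.2 i j + H i j z) * dx j (φ i) z)
      - P.al * (∑ i, ∑ j, (∑ l, (P.G0 z.2 i l + H i l z) * (P.G0 z.2 j l + H j l z))
          * dx j (φ i) z)
      - ∑ i, P.f z i * φ i z)) := by
    refine L1C.sub (L1C.sub (L1C.add (L1C.add ?_ ?_) ?_) ?_) ?_
    · refine L1C.neg (L1C.sum3 fun i => ?_)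
      exact (hW i).toL1.mul_bdd (cdt i).aestronglyMeasurable (hCt i)
    · refine L1C.sum3 fun i => L1C.sum3 fun j => ?_
      exact ((hW j).mul (hGG i j)).mul_bdd (hφ.smooth i).continuous.aestronglyMeasurable (hCφ i)
    · refine L1C.const_mul (L1C.sum3 fun i => L1C.sum3 fun j => ?_) _
      exact (hGG i j).toL1.mul_bdd (cdx i j).aestronglyMeasurable (hCx i j)
    · refine L1C.const_mul (L1C.sum3 fun i => L1C.sum3 fun j => ?_) _
      exact (L1C.sum3 fun l => (hGG i l).mul (hGG j l)).mul_bdd (cdx i j).aestronglyMeasurable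
        (hCx i j)
    · refine L1C.const (integrable_finsetSum _ fun i _ => ?_)
      have hfi : Integrable (fun z => P.f z i) P.μ := by
        have := P.hf
        exact (ContinuousLinearMap.proj (R := ℝ) (φ := fun _ : Fin 3 => ℝ) i).integrable_comp this
      exact hfi.mul_bdd (c := Cφ i) (hφ.smooth i).continuous.aestronglyMeasurable
        (Eventually.of_forall fun z => by simpa using hCφ i z)
  have hlim1 := key.tendsto
  -- the residuals tend to zero
  have hCx' : ∀ i j z, |dx j (φ i) z| ≤ ∑ i, ∑ j, |Cx i j| := by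
    intro i j z
    refine (hCx i j z).trans ((le_abs_self _).trans ?_)
    refine (Finset.single_le_sum (f := fun j => |Cx i j|) (fun _ _ => abs_nonneg _)
      (Finset.mem_univ j)).trans ?_
    exact Finset.single_le_sum (f := fun i => ∑ j, |Cx i j|)
      (fun _ _ => Finset.sum_nonneg fun _ _ => abs_nonneg _) (Finset.mem_univ i)
  have hzero : Tendsto (fun n => P.Res (V n) φ) atTop (𝓝 0) := by
    have h1 : Tendsto (fun n => (∑ i, ∑ j, |Cx i j|) * P.L1 (R n)) atTop (𝓝 0) := by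
      simpa using hR0.const_mul (∑ i, ∑ j, |Cx i j|)
    refine squeeze_zero_norm (fun n => ?_) h1
    rw [hres n φ hφ]
    exact bd_le P (R n) (hR n) φ _ hCx' cdx
  have hlim2 := hlim1.sub_const (∫ x in P.Ω, ∑ i, P.w0 x i * φ i (0, x))
  have := tendsto_nhds_unique hlim2 hzero
  linarith

end H37.LES
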