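import Mathlib

/-!
# Weak solutions of the multifluid incompressible MHD system (problem MP_59296a_an)

All fields are functions on `ℝ × V3` (time, space), `V3 = ℝ³` with explicit coordinates.
-/

open MeasureTheory Set Filter Topology
open scoped ContDiff ENNReal

noncomputable section

namespace H36.MHD

/-- Physical space `ℝ³` (coordinates). -/
abbrev V3 : Type := Fin 3 → ℝ

/-- The open Euclidean unit ball of `ℝ³`: a bounded, simply connected domain with `C^∞`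
boundary. -/
def ball3 : Set V3 := {x | x 0 ^ 2 + x 1 ^ 2 + x 2 ^ 2 < 1}

/-- Euclidean inner product. -/
def dot (a b : V3) : ℝ := ∑ i, a i * b i

/-- `j`-th spatial partial derivative of a scalar function on space. -/
def pd (j : Fin 3) (g : V3 → ℝ) (x : V3) : ℝ := fderiv ℝ g x (Pi.single j 1)

/-- Time derivative of a scalar function on space-time. -/
def dt (g : ℝ × V3 → ℝ) (z : ℝ × V3) : ℝ := fderiv ℝ g z (1, 0)

/-- `j`-th spatial partial derivative of a scalar function on space-time. -/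
def dx (j : Fin 3) (g : ℝ × V3 → ℝ) (z : ℝ × V3) : ℝ := fderiv ℝ g z (0, Pi.single j 1)

/-- The cross product of two vectors. -/
def cross (a b : V3) : V3 :=
  ![a 1 * b 2 - a 2 * b 1, a 2 * b 0 - a 0 * b 2, a 0 * b 1 - a 1 * b 0]

/-- The curl computed from a gradient matrix `G i j = ∂_j v_i`. -/
def curlOf (G : Fin 3 → Fin 3 → ℝ) : V3 :=
  ![G 2 1 - G 1 2, G 0 2 - G 2 0, G 1 0 - G 0 1]

/-- The space-time cylinder `(0,T) × Ω`. -/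
def cyl (Ω : Set V3) (T : ℝ) : Set (ℝ × V3) := Ioo 0 T ×ˢ Ω

/-- `G i j` is the weak derivative `∂_j v_i` on `Ω`, and `v`, `G` are square integrable:
`v ∈ H¹(Ω)³` with gradient `G`. -/
def InH1 (Ω : Set V3) (v : V3 → V3) (G : V3 → Fin 3 → Fin 3 → ℝ) : Prop :=
  MemLp v 2 (volume.restrict Ω) ∧ MemLp G 2 (volume.restrict Ω) ∧
  ∀ ψ : V3 → ℝ, ContDiff ℝ ∞ ψ → HasCompactSupport ψ → tsupport ψ ⊆ Ω →
    ∀ i j, ∫ x in Ω, v x i * pd j ψ x = - ∫ x in Ω, G x i j * ψ x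

/-- `v ∈ H¹₀(Ω)³` with gradient `G`: in addition `v` is the `H¹` limit of smooth fields compactly
supported in `Ω`. -/
def InH10 (Ω : Set V3) (v : V3 → V3) (G : V3 → Fin 3 → Fin 3 → ℝ) : Prop :=
  InH1 Ω v G ∧ ∃ φ : ℕ → V3 → V3,
    (∀ n, ContDiff ℝ ∞ (φ n) ∧ HasCompactSupport (φ n) ∧ tsupport (φ n) ⊆ Ω) ∧
    (∀ i, Tendsto (fun n => ∫ x in Ω, (φ n x i - v x i) ^ 2) atTop (𝓝 0)) ∧
    (∀ i j, Tendsto (fun n => ∫ x in Ω, (pd j (fun y => φ n y i) x - G x i j) ^ 2) atTop (𝓝 0))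

/-- The space `H`: square integrable fields with `div v = 0` in `Ω` and `v · n = 0` on `∂Ω`, both
encoded by `∫_Ω v · ∇ψ = 0` for all smooth `ψ` on `ℝ³`. -/
def InH (Ω : Set V3) (v : V3 → V3) : Prop :=
  MemLp v 2 (volume.restrict Ω) ∧
  ∀ ψ : V3 → ℝ, ContDiff ℝ ∞ ψ → ∫ x in Ω, ∑ i, v x i * pd i ψ x = 0

/-- The space `V` of divergence free `H¹₀` fields. -/
def InV (Ω : Set V3) (v : V3 → V3) (G : V3 → Fin 3 → Fin 3 → ℝ) : Prop :=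
  InH10 Ω v G ∧ ∀ᵐ x ∂(volume.restrict Ω), ∑ i, G x i i = 0

/-- The space `W` of divergence free `H¹` fields tangent to the boundary. -/
def InW (Ω : Set V3) (v : V3 → V3) (G : V3 → Fin 3 → Fin 3 → ℝ) : Prop :=
  InH1 Ω v G ∧ InH Ω v

/-- The density class `L^∞(Ω × (0,T)) ∩ C([0,T]; L^p(Ω))` for all finite `p ≥ 1`. -/
def DensityClass (Ω : Set V3) (T : ℝ) (ρ : ℝ → V3 → ℝ) : Prop :=
  Measurable (fun z : ℝ × V3 => ρ z.1 z.2) ∧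
  (∃ C, ∀ t ∈ Icc 0 T, ∀ᵐ x ∂(volume.restrict Ω), |ρ t x| ≤ C) ∧
  ∀ p : ℝ, 1 ≤ p → ∀ t₀ ∈ Icc 0 T,
    Tendsto (fun t => ∫ x in Ω, |ρ t x - ρ t₀ x| ^ p) (𝓝[Icc 0 T] t₀) (𝓝 0)

/-- The class `L²(0,T;X) ∩ L^∞(0,T;H) ∩ C([0,T];H_w)` for a space `X` of `H¹` fields
(`X = V` or `X = W`), with `G` the space gradient. -/
def FieldClass (X : (V3 → V3) → (V3 → Fin 3 → Fin 3 → ℝ) → Prop) (Ω : Set V3) (T : ℝ)
    (u : ℝ → V3 → V3) (G : ℝ → V3 → Fin 3 → Fin 3 → ℝ) : Prop :=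
  Measurable (fun z : ℝ × V3 => u z.1 z.2) ∧
  Measurable (fun z : ℝ × V3 => G z.1 z.2) ∧
  MemLp (fun z : ℝ × V3 => u z.1 z.2) 2 (volume.restrict (cyl Ω T)) ∧
  MemLp (fun z : ℝ × V3 => G z.1 z.2) 2 (volume.restrict (cyl Ω T)) ∧
  (∀ᵐ t ∂(volume.restrict (Ioo 0 T)), X (u t) (G t)) ∧
  (∀ t ∈ Icc 0 T, InH Ω (u t)) ∧
  (∃ C, ∀ t ∈ Icc 0 T, ∫ x in Ω, dot (u t x) (u t x) ≤ C) ∧
  ∀ w : V3 → V3, MemLp w 2 (volume.restrict Ω) →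
    ContinuousOn (fun t => ∫ x in Ω, dot (u t x) (w x)) (Icc 0 T)

/-- The transport equation in the sense of distributions on `Ω × (0,T)`. -/
def WeakTransport (Ω : Set V3) (T : ℝ) (ρ : ℝ → V3 → ℝ) (u : ℝ → V3 → V3) : Prop :=
  ∀ ψ : ℝ × V3 → ℝ, ContDiff ℝ ∞ ψ → HasCompactSupport ψ → tsupport ψ ⊆ cyl Ω T →
    ∫ z in cyl Ω T, (ρ z.1 z.2 * dt ψ z + ρ z.1 z.2 * ∑ j, u z.1 z.2 j * dx j ψ z) = 0

/-- The weak momentum equation, tested against smooth fields compactly supported in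
`Ω × [0,T)` and divergence free. -/
def WeakMomentum (Ω : Set V3) (T : ℝ) (η : ℝ → ℝ) (f : ℝ → V3 → V3) (ρ₀ : V3 → ℝ)
    (u₀ : V3 → V3) (ρ : ℝ → V3 → ℝ) (u : ℝ → V3 → V3) (Du : ℝ → V3 → Fin 3 → Fin 3 → ℝ)
    (B : ℝ → V3 → V3) (DB : ℝ → V3 → Fin 3 → Fin 3 → ℝ) : Prop :=
  ∀ φ : ℝ × V3 → V3, ContDiff ℝ ∞ φ → HasCompactSupport φ → tsupport φ ⊆ Iio T ×ˢ Ω →
    (∀ z : ℝ × V3, 0 ≤ z.1 → ∑ j, dx j (fun y => φ y j) z = 0) →
    (∫ z in cyl Ω T,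
      (ρ z.1 z.2 * ∑ i, u z.1 z.2 i * dt (fun y => φ y i) z
        + ρ z.1 z.2 * ∑ i, ∑ j, u z.1 z.2 i * u z.1 z.2 j * dx j (fun y => φ y i) z
        - η (ρ z.1 z.2) * ∑ i, ∑ j, (Du z.1 z.2 i j + Du z.1 z.2 j i) * dx j (fun y => φ y i) z
        + ρ z.1 z.2 * dot (f z.1 z.2) (φ z)
        + dot (cross (curlOf (DB z.1 z.2)) (B z.1 z.2)) (φ z)))
      + (∫ x in Ω, ρ₀ x * dot (u₀ x) (φ (0, x))) = 0

/-- The weak induction equation.  It is tested against ALL smooth fields on `ℝ³ × (-∞,T)` with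
compact support (not only those vanishing near `∂Ω`), which also encodes the boundary condition
`curl B × n = 0`. -/
def WeakInduction (Ω : Set V3) (T : ℝ) (σ : ℝ → ℝ) (B₀ : V3 → V3) (ρ : ℝ → V3 → ℝ)
    (u : ℝ → V3 → V3) (B : ℝ → V3 → V3) (DB : ℝ → V3 → Fin 3 → Fin 3 → ℝ) : Prop :=
  ∀ φ : ℝ × V3 → V3, ContDiff ℝ ∞ φ → HasCompactSupport φ → tsupport φ ⊆ Iio T ×ˢ univ →
    (∫ z in cyl Ω T,
      ((∑ i, B z.1 z.2 i * dt (fun y => φ y i) z)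
        - 1 / σ (ρ z.1 z.2) * dot (curlOf (DB z.1 z.2)) (curlOf fun i j => dx j (fun y => φ y i) z)
        + dot (cross (u z.1 z.2) (B z.1 z.2)) (curlOf fun i j => dx j (fun y => φ y i) z)))
      + (∫ x in Ω, dot (B₀ x) (φ (0, x))) = 0

/-- Admissible data of the problem on `Ω × [0,T]`. -/
structure Data (Ω : Set V3) (T : ℝ) where
  /-- initial density -/
  ρ₀ : V3 → ℝ
  /-- initial velocity -/
  u₀ : V3 → V3
  /-- initial magnetic field -/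
  B₀ : V3 → V3
  /-- force -/
  f : ℝ → V3 → V3
  /-- viscosity -/
  η : ℝ → ℝ
  /-- conductivity -/
  σ : ℝ → ℝ
  ρ₀_meas : Measurable ρ₀
  ρ₀_bdd : ∃ C, ∀ᵐ x ∂(volume.restrict Ω), |ρ₀ x| ≤ C
  ρ₀_pos : ∃ c, 0 < c ∧ ∀ᵐ x ∂(volume.restrict Ω), c ≤ ρ₀ x
  u₀_mem : InH Ω u₀
  B₀_mem : InH Ω B₀
  f_meas : Measurable (fun z : ℝ × V3 => f z.1 z.2)
  f_mem : MemLp (fun z : ℝ × V3 => f z.1 z.2) 2 (volume.restrict (cyl Ω T))
  η_cont : ContinuousOn η (Ici 0)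
  σ_cont : ContinuousOn σ (Ici 0)
  η_bdd : ∃ a b, 0 < a ∧ ∀ s, 0 ≤ s → a ≤ η s ∧ η s ≤ b
  σ_bdd : ∃ a b, 0 < a ∧ ∀ s, 0 ≤ s → a ≤ σ s ∧ σ s ≤ b

/-- A weak solution `(ρ, u, B)` of the multifluid MHD system for the data `D`. -/
def IsWeakSolution (Ω : Set V3) (T : ℝ) (D : Data Ω T) (ρ : ℝ → V3 → ℝ) (u B : ℝ → V3 → V3) :
    Prop :=
  ∃ Du DB : ℝ → V3 → Fin 3 → Fin 3 → ℝ,
    DensityClass Ω T ρ ∧
    (∀ᵐ x ∂(volume.restrict Ω), ρ 0 x = D.ρ₀ x) ∧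
    FieldClass (InV Ω) Ω T u Du ∧
    FieldClass (InW Ω) Ω T B DB ∧
    WeakTransport Ω T ρ u ∧
    WeakMomentum Ω T D.η D.f D.ρ₀ D.u₀ ρ u Du B DB ∧
    WeakInduction Ω T D.σ D.B₀ ρ u B DB

end H36.MHD
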