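import Pool.Agent.H36.Cochain

/-!
Matchings as involutions, deficiency predicate, exchange lemma, connected vertex sets.
-/

set_option autoImplicit false
set_option linter.unusedSectionVars false
set_option linter.unusedVariables false

namespace Pool.Agent.H36

open Finset

section Matching

variable {ι : Type*} [Fintype ι] [DecidableEq ι]

/-- `m` is a matching of `Γ` inside `X`, coded as an involution. -/
def IsM (Γ : SimpleGraph ι) (X : Finset ι) (m : ι → ι) : Prop :=
  (∀ i, m (m i) = i) ∧ (∀ i, m i ≠ i → Γ.Adj i (m i) ∧ i ∈ X)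

/-- The vertices covered by a matching. -/
def msup (m : ι → ι) : Finset ι := univ.filter (fun i => m i ≠ i)

/-- `Rho Γ s X`: the size of `X` minus the matching number of `Γ` on `X` is at least `s`. -/
def Rho (Γ : SimpleGraph ι) (s : ℕ) (X : Finset ι) : Prop :=
  ∀ m, IsM Γ X m → (msup m).card + 2 * s ≤ 2 * X.card

@[simp] lemma mem_msup {m : ι → ι} {i : ι} : i ∈ msup m ↔ m i ≠ i := by simp [msup]

lemma IsM_id (Γ : SimpleGraph ι) (X : Finset ι) : IsM Γ X id :=
  ⟨fun _ => rfl, fun _ h => absurd rfl h⟩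

lemma msup_id : msup (id : ι → ι) = ∅ := by
  ext i; simp

lemma IsM.mono {Γ : SimpleGraph ι} {X Y : Finset ι} {m : ι → ι} (h : IsM Γ X m) (hXY : X ⊆ Y) :
    IsM Γ Y m := ⟨h.1, fun i hi => ⟨(h.2 i hi).1, hXY (h.2 i hi).2⟩⟩

lemma IsM.msup_subset {Γ : SimpleGraph ι} {X : Finset ι} {m : ι → ι} (h : IsM Γ X m) :
    msup m ⊆ X := fun i hi => (h.2 i (mem_msup.mp hi)).2

lemma IsM.apply_mem_msup {Γ : SimpleGraph ι} {X : Finset ι} {m : ι → ι} (h : IsM Γ X m) {i : ι}
    (hi : i ∈ msup m) : m i ∈ msup m := by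
  rw [mem_msup] at hi ⊢
  rw [h.1]; exact Ne.symm hi

/-- Restrict a matching to a subset, keeping the pairs that lie inside. -/
def rst (m : ι → ι) (X : Finset ι) : ι → ι := fun i => if i ∈ X ∧ m i ∈ X then m i else i

lemma IsM.rst {Γ : SimpleGraph ι} {X Y : Finset ι} {m : ι → ι} (hm : IsM Γ Y m) :
    IsM Γ X (rst m X) := by
  constructor
  · intro i
    by_cases hi : i ∈ X ∧ m i ∈ X
    · have h1 : H36.rst m X i = m i := if_pos hi
      rw [h1]
      have h2 : m i ∈ X ∧ m (m i) ∈ X := ⟨hi.2, by rw [hm.1]; exact hi.1⟩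
      have h3 : H36.rst m X (m i) = m (m i) := if_pos h2
      rw [h3, hm.1]
    · have h1 : H36.rst m X i = i := if_neg hi
      rw [h1, h1]
  · intro i hi
    by_cases hi' : i ∈ X ∧ m i ∈ X
    · have h1 : H36.rst m X i = m i := if_pos hi'
      rw [h1] at hi ⊢
      exact ⟨(hm.2 i hi).1, hi'.1⟩
    · exact absurd (if_neg hi') hi

lemma mem_msup_rst {m : ι → ι} {X : Finset ι} {i : ι} :
    i ∈ msup (rst m X) ↔ i ∈ X ∧ m i ∈ X ∧ m i ≠ i := by
  rw [mem_msup]
  unfold rst
  split_ifs with h
  · constructor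
    · intro h'; exact ⟨h.1, h.2, h'⟩
    · intro h'; exact h'.2.2
  · constructor
    · intro h'; exact absurd rfl h'
    · intro h'; exact absurd ⟨h'.1, h'.2.1⟩ h

lemma Rho_mono {Γ : SimpleGraph ι} {s : ℕ} {X Y : Finset ι} (h : X ⊆ Y) (hX : Rho Γ s X) :
    Rho Γ s Y := by
  intro m hm
  have h1 := hX _ (hm.rst (X := X))
  have h2 : msup m ⊆ msup (rst m X) ∪ ((Y \ X) ∪ (Y \ X).image m) := by
    intro i hi
    have hiY := hm.msup_subset hi
    have hmiY := hm.msup_subset (hm.apply_mem_msup hi)
    by_cases h3 : i ∈ X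
    · by_cases h4 : m i ∈ X
      · exact mem_union_left _ (mem_msup_rst.mpr ⟨h3, h4, mem_msup.mp hi⟩)
      · apply mem_union_right
        apply mem_union_right
        exact mem_image.mpr ⟨m i, mem_sdiff.mpr ⟨hmiY, h4⟩, hm.1 i⟩
    · apply mem_union_right
      apply mem_union_left
      exact mem_sdiff.mpr ⟨hiY, h3⟩
  have h3 := card_le_card h2
  have h4 := card_union_le (msup (rst m X)) ((Y \ X) ∪ (Y \ X).image m)
  have h5 := card_union_le (Y \ X) ((Y \ X).image m)
  have h6 : ((Y \ X).image m).card ≤ (Y \ X).card := card_image_le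
  have h7 : (Y \ X).card + X.card = Y.card := card_sdiff_add_card_eq_card h
  omega

lemma not_Rho_empty {Γ : SimpleGraph ι} {s : ℕ} (hs : 1 ≤ s) : ¬ Rho Γ s ∅ := by
  intro h
  have := h id (IsM_id Γ ∅)
  simp at this; omega

/-- Exchange: match `i` with `j`, releasing the old partner of `j`. -/
def swp (m : ι → ι) (i j : ι) : ι → ι :=
  fun x => if x = i then j else if x = j then i else if x = m j then x else m x

lemma swp_left (m : ι → ι) (i j : ι) : swp m i j i = j := by simp [swp]

lemma swp_right (m : ι → ι) (i j : ι) : swp m i j j = i := by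
  unfold swp
  by_cases h : j = i
  · rw [if_pos h, h]
  · rw [if_neg h, if_pos rfl]

lemma IsM.swp {Γ : SimpleGraph ι} {X Y : Finset ι} {m : ι → ι} (hm : IsM Γ X m) {i j : ι}
    (hXY : X ⊆ Y) (hi : m i = i) (hij : Γ.Adj i j) (hiY : i ∈ Y) (hjY : j ∈ Y) :
    IsM Γ Y (swp m i j) := by
  have hne : i ≠ j := hij.ne
  constructor
  · intro x
    by_cases h1 : x = i
    · subst h1; rw [swp_left, swp_right]
    by_cases h2 : x = j
    · subst h2; rw [swp_right, swp_left]
    by_cases h3 : x = m j
    · have h4 : H36.swp m i j x = x := by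
        unfold H36.swp; rw [if_neg h1, if_neg h2, if_pos h3]
      rw [h4, h4]
    · have h4 : H36.swp m i j x = m x := by
        unfold H36.swp; rw [if_neg h1, if_neg h2, if_neg h3]
      rw [h4]
      have h5 : m x ≠ i := by
        intro h; apply h1; rw [← hm.1 x, h, hi]
      have h6 : m x ≠ j := by
        intro h; apply h3; rw [← h, hm.1]
      have h7 : m x ≠ m j := by
        intro h; apply h2; rw [← hm.1 x, h, hm.1]
      unfold H36.swp
      rw [if_neg h5, if_neg h6, if_neg h7, hm.1]
  · intro x hx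
    by_cases h1 : x = i
    · subst h1; rw [swp_left]; exact ⟨hij, hiY⟩
    by_cases h2 : x = j
    · subst h2; rw [swp_right]; exact ⟨hij.symm, hjY⟩
    by_cases h3 : x = m j
    · have h4 : H36.swp m i j x = x := by
        unfold H36.swp; rw [if_neg h1, if_neg h2, if_pos h3]
      exact absurd h4 hx
    · have h4 : H36.swp m i j x = m x := by
        unfold H36.swp; rw [if_neg h1, if_neg h2, if_neg h3]
      rw [h4] at hx ⊢
      exact ⟨(hm.2 x hx).1, hXY (hm.2 x hx).2⟩

/-- Adding a disjoint pair adds two covered vertices. -/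
lemma card_msup_swp_add {Γ : SimpleGraph ι} {X : Finset ι} {m : ι → ι} (hm : IsM Γ X m) {i j : ι}
    (hi : m i = i) (hj : m j = j) (hne : i ≠ j) :
    (msup (swp m i j)).card = (msup m).card + 2 := by
  have h1 : msup (swp m i j) = insert i (insert j (msup m)) := by
    ext x
    rw [mem_msup, mem_insert, mem_insert, mem_msup]
    by_cases h1 : x = i
    · subst h1; rw [swp_left]; simp [Ne.symm hne]
    by_cases h2 : x = j
    · subst h2; rw [swp_right]; simp [hne]
    have h4 : swp m i j x = m x := by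
      unfold swp; rw [if_neg h1, if_neg h2, hj, if_neg h2]
    rw [h4]; simp [h1, h2]
  rw [h1, card_insert_of_notMem, card_insert_of_notMem]
  · simp [hj]
  · simp [hi, hne]

/-- Exchanging keeps the number of covered vertices. -/
lemma card_msup_swp_exch {Γ : SimpleGraph ι} {X : Finset ι} {m : ι → ι} (hm : IsM Γ X m) {i j : ι}
    (hi : m i = i) (hj : m j ≠ j) (hne : i ≠ j) :
    (msup (swp m i j)).card = (msup m).card := by
  have hmj : m j ≠ i := by
    intro h
    have : m (m j) = m i := by rw [h]
    rw [hm.1, hi] at this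
    exact hne this.symm
  have h1 : msup (swp m i j) = insert i ((msup m).erase (m j)) := by
    ext x
    rw [mem_msup, mem_insert, mem_erase, mem_msup]
    by_cases h1 : x = i
    · subst h1; rw [swp_left]; simp [Ne.symm hne]
    by_cases h2 : x = j
    · subst h2; rw [swp_right]; simp [hne, hj, Ne.symm hj]
    by_cases h3 : x = m j
    · have h4 : swp m i j x = x := by
        unfold swp; rw [if_neg h1, if_neg h2, if_pos h3]
      rw [h4]; simp [h3, hmj]
    · have h4 : swp m i j x = m x := by
        unfold swp; rw [if_neg h1, if_neg h2, if_neg h3]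
      rw [h4]; simp [h1, h3]
  have h2 : i ∉ (msup m).erase (m j) := by
    rw [mem_erase, mem_msup]; simp [hi]
  have h3 : m j ∈ msup m := hm.apply_mem_msup (mem_msup.mpr hj)
  rw [h1, card_insert_of_notMem h2, card_erase_of_mem h3]
  have := card_pos.mpr ⟨_, h3⟩
  omega

/-- The support of every matching is contained in the support of some maximum matching. -/
lemma exists_max_matching {Γ : SimpleGraph ι} {Y : Finset ι} {m' : ι → ι} (hm' : IsM Γ Y m') :
    ∃ m, IsM Γ Y m ∧ (∀ m₂, IsM Γ Y m₂ → (msup m₂).card ≤ (msup m).card) ∧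
      msup m' ⊆ msup m := by
  classical
  let ag : (ι → ι) → Finset ι := fun m => (msup m').filter (fun i => m i = m' i)
  let S : Finset (ι → ι) := univ.filter (fun m => IsM Γ Y m)
  have hS : S.Nonempty := ⟨m', by simp [S, hm']⟩
  obtain ⟨m1, hm1, hmax1⟩ := exists_max_image S (fun m => (msup m).card) hS
  let S2 := S.filter (fun m => (msup m).card = (msup m1).card)
  have hS2 : S2.Nonempty := ⟨m1, by simp [S2, hm1]⟩
  obtain ⟨m, hm, hmax⟩ := exists_max_image S2 (fun m => (ag m).card) hS2
  have hmM : IsM Γ Y m := by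
    have := (mem_filter.mp hm).1
    exact (mem_filter.mp this).2
  have hcard : (msup m).card = (msup m1).card := (mem_filter.mp hm).2
  have hmaxc : ∀ m₂, IsM Γ Y m₂ → (msup m₂).card ≤ (msup m).card := by
    intro m₂ hm₂
    rw [hcard]
    exact hmax1 m₂ (by simp [S, hm₂])
  refine ⟨m, hmM, hmaxc, ?_⟩
  intro i hi
  by_contra hcon
  have hmi : m i = i := by
    by_contra h; exact hcon (mem_msup.mpr h)
  have hm'i : m' i ≠ i := mem_msup.mp hi
  have hij : Γ.Adj i (m' i) := (hm'.2 i hm'i).1
  have hiY : i ∈ Y := (hm'.2 i hm'i).2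
  have hjY : m' i ∈ Y := hm'.msup_subset (hm'.apply_mem_msup hi)
  set j := m' i with hj
  have hne : i ≠ j := hij.ne
  by_cases hmj : m j = j
  · have h1 := card_msup_swp_add hmM hmi hmj hne
    have h2 := hmaxc _ (hmM.swp (Subset.refl Y) hmi hij hiY hjY)
    omega
  · have h1 := card_msup_swp_exch hmM hmi hmj hne
    have h3 : swp m i j ∈ S2 := by
      simp only [S2, S, mem_filter, mem_univ, true_and]
      exact ⟨hmM.swp (Subset.refl Y) hmi hij hiY hjY, by rw [h1, hcard]⟩
    have h4 := hmax _ h3
    have h5 : ag m ⊆ ag (swp m i j) := by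
      intro x hx
      simp only [ag, mem_filter] at hx ⊢
      refine ⟨hx.1, ?_⟩
      have hx1 : x ≠ i := by
        intro h
        rw [h, hmi] at hx
        exact hm'i hx.2.symm
      have hx2 : x ≠ j := by
        intro h
        have h6 : m' j = i := by rw [hj]; exact hm'.1 i
        have h7 := hx.2
        rw [h, h6] at h7
        have h8 : m (m j) = m i := by rw [h7]
        rw [hmM.1, hmi] at h8
        exact hne h8.symm
      have hx3 : x ≠ m j := by
        intro h
        have h7 := hx.2
        rw [h, hmM.1] at h7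
        have h8 : m' (m' (m j)) = m' j := by rw [← h7]
        rw [hm'.1] at h8
        have h6 : m' j = i := by rw [hj]; exact hm'.1 i
        rw [h6] at h8
        have h9 : m (m j) = m i := by rw [h8]
        rw [hmM.1, hmi] at h9
        exact hne h9.symm
      unfold swp
      rw [if_neg hx1, if_neg hx2, if_neg hx3]
      exact hx.2
    have h6 : i ∈ ag (swp m i j) := by
      simp only [ag, mem_filter]
      exact ⟨hi, by rw [swp_left]⟩
    have h7 : i ∉ ag m := by
      simp only [ag, mem_filter, not_and]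
      intro _
      rw [hmi]; exact hne
    have h8 : (ag m).card < (ag (swp m i j)).card :=
      card_lt_card (Finset.ssubset_iff_subset_ne.mpr ⟨h5, fun h => h7 (h ▸ h6)⟩)
    omega

/-- Connectedness of a set of vertices (cut form). -/
def Conn (Γ : SimpleGraph ι) (O : Finset ι) : Prop :=
  O.Nonempty ∧ ∀ A, A ⊆ O → A.Nonempty → A ≠ O → ∃ a ∈ A, ∃ b ∈ O, b ∉ A ∧ Γ.Adj a b

lemma Conn_singleton (Γ : SimpleGraph ι) (v : ι) : Conn Γ {v} := by
  refine ⟨singleton_nonempty v, fun A hA hne hA' => ?_⟩
  rcases subset_singleton_iff.mp hA with h | h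
  · rw [h] at hne; exact absurd hne (by simp)
  · exact absurd h hA'

lemma Conn_insert {Γ : SimpleGraph ι} {C : Finset ι} {a b : ι} (hC : Conn Γ C) (ha : a ∈ C)
    (hb : b ∉ C) (hab : Γ.Adj a b) : Conn Γ (insert b C) := by
  refine ⟨insert_nonempty b C, fun A hA hne hA' => ?_⟩
  by_cases h1 : (A ∩ C).Nonempty
  · by_cases h2 : A ∩ C = C
    · have h3 : C ⊆ A := by rw [← h2]; exact inter_subset_left
      have h4 : b ∉ A := by
        intro h
        apply hA'
        apply Subset.antisymm hA
        exact insert_subset h h3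
      exact ⟨a, h3 ha, b, mem_insert_self b C, h4, hab⟩
    · obtain ⟨x, hx, y, hy, hy2, hxy⟩ := hC.2 (A ∩ C) inter_subset_right h1 h2
      refine ⟨x, (mem_inter.mp hx).1, y, mem_insert_of_mem hy, ?_, hxy⟩
      intro h; exact hy2 (mem_inter.mpr ⟨h, hy⟩)
  · have h2 : A = {b} := by
      rw [not_nonempty_iff_eq_empty] at h1
      apply Subset.antisymm
      · intro x hx
        rcases mem_insert.mp (hA hx) with h | h
        · exact mem_singleton.mpr h
        · have : x ∈ A ∩ C := mem_inter.mpr ⟨hx, h⟩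
          rw [h1] at this; exact absurd this (notMem_empty x)
      · obtain ⟨x, hx⟩ := hne
        rcases mem_insert.mp (hA hx) with h | h
        · rw [← h]; exact singleton_subset_iff.mpr hx
        · have : x ∈ A ∩ C := mem_inter.mpr ⟨hx, h⟩
          rw [h1] at this; exact absurd this (notMem_empty x)
    refine ⟨b, by rw [h2]; exact mem_singleton_self b, a, mem_insert_of_mem ha, ?_, hab.symm⟩
    rw [h2, mem_singleton]
    intro h; exact hb (h ▸ ha)

/-- A connected set with at least two vertices has a non-cut vertex. -/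
lemma exists_noncut {Γ : SimpleGraph ι} {O : Finset ι} (hO : Conn Γ O) (h2 : 2 ≤ O.card) :
    ∃ w ∈ O, Conn Γ (O.erase w) := by
  classical
  obtain ⟨v, hv⟩ := hO.1
  let S : Finset (Finset ι) := O.powerset.filter (fun C => Conn Γ C ∧ C ≠ O)
  have hS : S.Nonempty := by
    refine ⟨{v}, ?_⟩
    simp only [S, mem_filter, mem_powerset, singleton_subset_iff]
    refine ⟨hv, Conn_singleton Γ v, ?_⟩
    intro h
    rw [← h] at h2; simp at h2
  obtain ⟨C, hC, hmax⟩ := exists_max_image S card hS
  simp only [S, mem_filter, mem_powerset] at hC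
  obtain ⟨a, ha, b, hb, hbC, hab⟩ := hO.2 C hC.1 hC.2.1.1 hC.2.2
  have h3 : insert b C = O := by
    by_contra h
    have h4 : insert b C ∈ S := by
      simp only [S, mem_filter, mem_powerset]
      exact ⟨insert_subset hb hC.1, Conn_insert hC.2.1 ha hbC hab, h⟩
    have h5 := hmax _ h4
    rw [card_insert_of_notMem hbC] at h5
    omega
  refine ⟨b, hb, ?_⟩
  rw [← h3, erase_insert hbC]
  exact hC.2.1

end Matching

end Pool.Agent.H36
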