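import Pool.Agent.H36.Family
import Pool.Agent.H36.PwDef

/-!
The main connectivity theorem for gap-free graphs: the complex of independent sets `F` inside `τ`
such that the family members not adjacent to `F` have matching deficiency at least `s`.
-/

set_option autoImplicit false
set_option linter.unusedSectionVars false
set_option linter.unusedVariables false

namespace Pool.Agent.H36

open Finset

/-- Gap-free graphs (no induced matching of size two). -/
def GapFree {V : Type*} (G : SimpleGraph V) : Prop :=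
  ∀ a b c d : V, G.Adj a b → G.Adj c d → a ≠ c → a ≠ d → b ≠ c → b ≠ d →
      G.Adj a c ∨ G.Adj a d ∨ G.Adj b c ∨ G.Adj b d

section Star

variable {V : Type*} [LinearOrder V] [Fintype V] {ι : Type*} [Fintype ι] [LinearOrder ι]
  {K : Type*} [Field K]

/-- Left part of a face of the joined vertex set. -/
def lp (Z : Finset (V ⊕ₗ ι)) : Finset V := univ.filter (fun v => toLex (Sum.inl v) ∈ Z)

/-- Right part of a face of the joined vertex set. -/
def rp (Z : Finset (V ⊕ₗ ι)) : Finset ι := univ.filter (fun i => toLex (Sum.inr i) ∈ Z)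

lemma mem_lp {Z : Finset (V ⊕ₗ ι)} {v : V} : v ∈ lp Z ↔ toLex (Sum.inl v) ∈ Z := by simp [lp]

lemma mem_rp {Z : Finset (V ⊕ₗ ι)} {i : ι} : i ∈ rp Z ↔ toLex (Sum.inr i) ∈ Z := by simp [rp]

lemma lp_mono {Z Z' : Finset (V ⊕ₗ ι)} (h : Z ⊆ Z') : lp Z ⊆ lp Z' :=
  fun _ hv => mem_lp.mpr (h (mem_lp.mp hv))

lemma rp_mono {Z Z' : Finset (V ⊕ₗ ι)} (h : Z ⊆ Z') : rp Z ⊆ rp Z' :=
  fun _ hv => mem_rp.mpr (h (mem_rp.mp hv))

lemma lp_insert_inl [DecidableEq (V ⊕ₗ ι)] (v : V) (Z : Finset (V ⊕ₗ ι)) :
    lp (insert (toLex (Sum.inl v)) Z) = insert v (lp Z) := by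
  ext x
  rw [mem_lp, mem_insert, mem_insert, mem_lp]
  simp

lemma rp_insert_inl [DecidableEq (V ⊕ₗ ι)] (v : V) (Z : Finset (V ⊕ₗ ι)) :
    rp (insert (toLex (Sum.inl v)) Z) = rp Z := by
  ext x
  rw [mem_rp, mem_insert, mem_rp]
  simp

lemma lp_insert_inr [DecidableEq (V ⊕ₗ ι)] (a : ι) (Z : Finset (V ⊕ₗ ι)) :
    lp (insert (toLex (Sum.inr a)) Z) = lp Z := by
  ext x
  rw [mem_lp, mem_insert, mem_lp]
  simp

lemma rp_insert_inr [DecidableEq (V ⊕ₗ ι)] (a : ι) (Z : Finset (V ⊕ₗ ι)) :
    rp (insert (toLex (Sum.inr a)) Z) = insert a (rp Z) := by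
  ext x
  rw [mem_rp, mem_insert, mem_insert, mem_rp]
  simp

variable (G : SimpleGraph V) (α : ι → V) (τ : Finset V)

open Classical in
/-- The indices of the family not adjacent to any vertex of `F`. -/
noncomputable def phi (F : Finset V) : Finset ι := univ.filter (fun i => ∀ v ∈ F, ¬ G.Adj v (α i))

lemma mem_phi {F : Finset V} {i : ι} : i ∈ phi G α F ↔ ∀ v ∈ F, ¬ G.Adj v (α i) := by
  simp [phi]

lemma phi_anti : Antitone (phi G α) := fun F F' h i hi =>
  (mem_phi G α).mpr (fun v hv => (mem_phi G α).mp hi v (h hv))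

/-- The extended base complex. -/
def Bp (A' : Finset ι) : Finset (V ⊕ₗ ι) → Prop := fun Z => Ind G τ (lp Z) ∧ rp Z ⊆ A'

/-- The extended index map. -/
noncomputable def php (Z : Finset (V ⊕ₗ ι)) : Finset ι := phi G α (lp Z) \ rp Z

lemma Ind_DC : DC (Ind G τ) := fun σ ρ h hρ =>
  ⟨h.trans hρ.1, fun u hu v hv => hρ.2 u (h hu) v (h hv)⟩

lemma Bp_DC (A' : Finset ι) : DC (Bp G τ A') := fun σ ρ h hρ =>
  ⟨Ind_DC G τ _ _ (lp_mono h) hρ.1, (rp_mono h).trans hρ.2⟩

lemma php_anti : Antitone (php G α) := fun Z Z' h =>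
  sdiff_subset_sdiff (phi_anti G α (lp_mono h)) (rp_mono h)

/-- A nonempty member of the family is a cone or has no vertex. -/
lemma member_cone (hG : GapFree G) (hα : ∀ i, α i ∈ τ) (X : Finset ι) (hX : X.Nonempty) :
    (∃ v, ∀ F, Cx (Ind G τ) (phi G α) X F → Cx (Ind G τ) (phi G α) X (insert v F)) ∨
    (∀ v, ¬ Cx (Ind G τ) (phi G α) X {v}) := by
  by_cases hE : ∃ i ∈ X, ∃ j ∈ X, G.Adj (α i) (α j)
  · obtain ⟨i, hi, j, hj, hij⟩ := hE
    by_cases h : ∃ v, Cx (Ind G τ) (phi G α) X {v}
    · obtain ⟨v, hv⟩ := h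
      left
      refine ⟨v, fun F hF => ?_⟩
      have hvτ : v ∈ τ := hv.1.1 (mem_singleton_self v)
      have hvX : ∀ k ∈ X, ¬ G.Adj v (α k) := fun k hk =>
        (mem_phi G α).mp (hv.2 hk) v (mem_singleton_self v)
      have hFX : ∀ u ∈ F, ∀ k ∈ X, ¬ G.Adj u (α k) := fun u hu k hk =>
        (mem_phi G α).mp (hF.2 hk) u hu
      have hkey : ∀ u ∈ F, ¬ G.Adj u v := by
        intro u hu huv
        have e1 : α i ≠ u := fun h => hFX u hu j hj (h ▸ hij)
        have e2 : α i ≠ v := fun h => hvX j hj (h ▸ hij)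
        have e3 : α j ≠ u := fun h => hFX u hu i hi (h ▸ hij.symm)
        have e4 : α j ≠ v := fun h => hvX i hi (h ▸ hij.symm)
        rcases hG (α i) (α j) u v hij huv e1 e2 e3 e4 with h | h | h | h
        · exact hFX u hu i hi h.symm
        · exact hvX i hi h.symm
        · exact hFX u hu j hj h.symm
        · exact hvX j hj h.symm
      refine ⟨⟨insert_subset hvτ hF.1.1, ?_⟩, ?_⟩
      · intro a ha b hb
        rcases mem_insert.mp ha with h1 | h1
        · rcases mem_insert.mp hb with h2 | h2
          · rw [h1, h2]; exact G.loopless.irrefl _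
          · rw [h1]; exact fun h => hkey b h2 h.symm
        · rcases mem_insert.mp hb with h2 | h2
          · rw [h2]; exact hkey a h1
          · exact hF.1.2 a h1 b h2
      · intro k hk
        rw [mem_phi]
        intro a ha
        rcases mem_insert.mp ha with rfl | ha
        · exact hvX k hk
        · exact hFX a ha k hk
    · right
      exact fun v hv => h ⟨v, hv⟩
  · left
    obtain ⟨i, hi⟩ := hX
    refine ⟨α i, fun F hF => ?_⟩
    have hFX : ∀ u ∈ F, ∀ k ∈ X, ¬ G.Adj u (α k) := fun u hu k hk =>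
      (mem_phi G α).mp (hF.2 hk) u hu
    refine ⟨⟨insert_subset (hα i) hF.1.1, ?_⟩, ?_⟩
    · intro a ha b hb
      rcases mem_insert.mp ha with rfl | ha
      · rcases mem_insert.mp hb with rfl | hb
        · exact G.loopless.irrefl _
        · exact fun h => hFX b hb i hi h.symm
      · rcases mem_insert.mp hb with rfl | hb
        · exact hFX a ha i hi
        · exact hF.1.2 a ha b hb
    · intro k hk
      rw [mem_phi]
      intro a ha
      rcases mem_insert.mp ha with rfl | ha
      · exact fun h => hE ⟨i, hi, k, hk, h⟩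
      · exact hFX a ha k hk

/-- If the member at `A` has no vertex then `A` is connected for the pulled back graph. -/
lemma member_conn (hG : GapFree G) (hα : ∀ i, α i ∈ τ) (A : Finset ι) (hA : A.Nonempty)
    (h : ∀ v, ¬ Cx (Ind G τ) (phi G α) A {v}) : Conn (G.comap α) A := by
  have h1 : ∀ v ∈ τ, ∃ k ∈ A, G.Adj v (α k) := by
    intro v hv
    by_contra hcon
    push Not at hcon
    apply h v
    refine ⟨⟨singleton_subset_iff.mpr hv, ?_⟩, ?_⟩
    · intro a ha b hb
      rw [mem_singleton.mp ha, mem_singleton.mp hb]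
      exact G.loopless.irrefl _
    · intro k hk
      rw [mem_phi]
      intro a ha
      rw [mem_singleton.mp ha]
      exact hcon k hk
  refine ⟨hA, fun P hPA hP hne => ?_⟩
  obtain ⟨i, hi⟩ := hP
  obtain ⟨j, hjA, hjP⟩ : ∃ j ∈ A, j ∉ P := by
    by_contra hcon
    push Not at hcon
    exact hne (Subset.antisymm hPA hcon)
  obtain ⟨i', hi'A, hii'⟩ := h1 (α i) (hα i)
  obtain ⟨j', hj'A, hjj'⟩ := h1 (α j) (hα j)
  by_cases hi'P : i' ∈ P
  · by_cases hj'P : j' ∈ P
    · exact ⟨j', hj'P, j, hjA, hjP, hjj'.symm⟩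
    · by_cases e1 : α i = α j
      · exact ⟨i', hi'P, j, hjA, hjP, by
          show G.Adj (α i') (α j)
          rw [← e1]; exact hii'.symm⟩
      by_cases e2 : α i = α j'
      · exact ⟨i', hi'P, j', hj'A, hj'P, by
          show G.Adj (α i') (α j')
          rw [← e2]; exact hii'.symm⟩
      by_cases e3 : α i' = α j
      · exact ⟨i, hi, j, hjA, hjP, by
          show G.Adj (α i) (α j)
          rw [← e3]; exact hii'⟩
      by_cases e4 : α i' = α j'
      · exact ⟨i, hi, j', hj'A, hj'P, by
          show G.Adj (α i) (α j')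
          rw [← e4]; exact hii'⟩
      rcases hG (α i) (α i') (α j) (α j') hii' hjj' e1 e2 e3 e4 with h | h | h | h
      · exact ⟨i, hi, j, hjA, hjP, h⟩
      · exact ⟨i, hi, j', hj'A, hj'P, h⟩
      · exact ⟨i', hi'P, j, hjA, hjP, h⟩
      · exact ⟨i', hi'P, j', hj'A, hj'P, h⟩
  · exact ⟨i, hi, i', hi'A, hi'P, hii'⟩

/-- The extended statement. -/
theorem star_ext (hG : GapFree G) (hα : ∀ i, α i ∈ τ) (s : ℕ) (hs : 1 ≤ s) :
    ∀ (N : ℕ) (A : Finset ι), A.card = N → ∀ A', A' ⊆ A → ∀ t, A.card + 2 ≤ t + 2 * s →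
      Ex K (Un (Bp G τ A') (php G α) ∅ A (Rho (G.comap α) s)) t := by
  intro N
  induction N using Nat.strong_induction_on with
  | _ N ih =>
    intro A hN
    have hM : ∀ X Y, X ⊆ Y → Rho (G.comap α) s X → Rho (G.comap α) s Y :=
      fun X Y h h' => Rho_mono h h'
    rcases A.eq_empty_or_nonempty with hA | hA
    · intro A' hA' t ht
      apply Ex_void
      intro F hF
      have h1 := hF.2.2
      rw [hA, inter_empty] at h1
      exact not_Rho_empty hs h1
    by_cases hD : ∃ v, Cx (Ind G τ) (phi G α) A {v}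
    · -- all relevant members are cones
      obtain ⟨v0, hv0⟩ := hD
      intro A' hA' t ht
      apply Ex_Un (Bp_DC G τ A') (php_anti G α) A ∅ _ hM
      intro X hXA hX t
      rw [empty_union]
      have hXne : X.Nonempty := by
        rw [nonempty_iff_ne_empty]
        intro h; rw [h] at hX; exact not_Rho_empty hs hX
      rcases member_cone G α τ hG hα X hXne with ⟨v, hv⟩ | h
      · apply Ex_cone (toLex (Sum.inl v))
        rintro Z ⟨⟨hZ1, hZ2⟩, hZ3⟩
        have h1 : Cx (Ind G τ) (phi G α) X (lp Z) := ⟨hZ1, hZ3.trans sdiff_subset⟩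
        have h2 := hv _ h1
        refine ⟨⟨?_, ?_⟩, ?_⟩
        · rw [lp_insert_inl]; exact h2.1
        · rw [rp_insert_inl]; exact hZ2
        · intro x hx
          unfold php
          rw [lp_insert_inl, rp_insert_inl, mem_sdiff]
          exact ⟨h2.2 hx, (mem_sdiff.mp (hZ3 hx)).2⟩
      · exact absurd ⟨hv0.1, hXA.trans hv0.2⟩ (h v0)
    · -- the connected case
      have hD' : ∀ v, ¬ Cx (Ind G τ) (phi G α) A {v} := fun v hv => hD ⟨v, hv⟩
      have hconn := member_conn G α τ hG hα A hA hD'
      have htop : ∀ t, A.card + 2 ≤ t + 2 * s →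
          Ex K (Un (Bp G τ A) (php G α) ∅ A (Rho (G.comap α) s)) t := by
        intro t ht
        have h1 := Ex_FB (K := K) (Bp_DC G τ A) (php_anti G α) (G.comap α) s A.card A ∅ ∅ rfl
          (disjoint_empty_right A) ?_ ?_ hconn ⟨id, IsM_id _ _, fun r hr => absurd hr (notMem_empty r)⟩
          t (by rw [card_empty]; omega)
        · refine h1.congr (fun F => ?_)
          unfold Un
          beta_reduce
          rw [empty_union]
        · intro X hX hXne t
          rw [empty_union]
          obtain ⟨a, haA, haX⟩ : ∃ a ∈ A, a ∉ X := by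
            by_contra hcon
            push Not at hcon
            exact hXne (Subset.antisymm hX hcon)
          apply Ex_cone (toLex (Sum.inr a))
          rintro Z ⟨⟨hZ1, hZ2⟩, hZ3⟩
          refine ⟨⟨?_, ?_⟩, ?_⟩
          · rw [lp_insert_inr]; exact hZ1
          · rw [rp_insert_inr]; exact insert_subset haA hZ2
          · intro x hx
            unfold php
            rw [lp_insert_inr, rp_insert_inr, mem_sdiff, mem_insert]
            have h3 := mem_sdiff.mp (hZ3 hx)
            refine ⟨h3.1, ?_⟩
            rintro (h | h)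
            · exact haX (h ▸ hx)
            · exact h3.2 h
        · intro t ht1
          rw [empty_union]
          apply Ex_of_empty ht1
          rintro Z ⟨⟨hZ1, hZ2⟩, hZ3⟩
          apply eq_empty_of_forall_notMem
          intro x hx
          rcases hx' : (ofLex x) with v | i
          · have hx2 : x = toLex (Sum.inl v) := by rw [← hx']; rfl
            rw [hx2] at hx
            apply hD' v
            have hv : v ∈ lp Z := mem_lp.mpr hx
            refine ⟨Ind_DC G τ _ _ (singleton_subset_iff.mpr hv) hZ1, ?_⟩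
            exact (hZ3.trans sdiff_subset).trans
              (phi_anti G α (singleton_subset_iff.mpr hv))
          · have hx2 : x = toLex (Sum.inr i) := by rw [← hx']; rfl
            rw [hx2] at hx
            have hi : i ∈ rp Z := mem_rp.mpr hx
            exact (mem_sdiff.mp (hZ3 (hZ2 hi))).2 hi
      -- downward induction
      have hdown : ∀ (k : ℕ) (A' : Finset ι), A' ⊆ A → (A \ A').card = k → ∀ t,
          A.card + 2 ≤ t + 2 * s →
          Ex K (Un (Bp G τ A') (php G α) ∅ A (Rho (G.comap α) s)) t := by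
        intro k
        induction k with
        | zero =>
          intro A' hA' hk t ht
          have h1 : A' = A := Subset.antisymm hA' (by
            rw [card_eq_zero, sdiff_eq_empty_iff_subset] at hk; exact hk)
          rw [h1]; exact htop t ht
        | succ k ihk =>
          intro A' hA' hk t ht
          obtain ⟨a, ha⟩ : (A \ A').Nonempty := card_pos.mp (by omega)
          rw [mem_sdiff] at ha
          have h1 := ihk (insert a A') (insert_subset ha.1 hA') (by
            have : A \ insert a A' = (A \ A').erase a := by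
              ext x; simp only [mem_sdiff, mem_insert, mem_erase]; tauto
            rw [this, card_erase_of_mem (mem_sdiff.mpr ha), hk]; rfl) t ht
          have hc : (A.erase a).card = A.card - 1 := card_erase_of_mem ha.1
          have hApos : 0 < A.card := card_pos.mpr hA
          have h2 := ih (A.erase a).card (by omega) (A.erase a) rfl A' (by
            intro x hx
            rw [mem_erase]
            exact ⟨fun h => ha.2 (h ▸ hx), hA' hx⟩) t (by omega)
          have hanti : Antitone (fun Z => php G α Z \ {a}) := fun Z Z' h =>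
            sdiff_subset_sdiff (php_anti G α h) (Subset.refl _)
          refine Ex_part (P := Un (Bp G τ A') (php G α) ∅ A (Rho (G.comap α) s))
            (Q := Un (Bp G τ (insert a A')) (fun Z => php G α Z \ {a}) ∅ A (Rho (G.comap α) s))
            (Un_DC (Bp_DC G τ A') (php_anti G α) ∅ A hM)
            (Un_DC (Bp_DC G τ (insert a A')) hanti ∅ A hM) ?_ ?_
          · refine h1.congr (fun Z => ?_)
            unfold Un Bp
            constructor
            · rintro ⟨⟨hZ1, hZ2⟩, hZ3, hZ4⟩
              by_cases har : a ∈ rp Z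
              · right
                refine ⟨⟨hZ1, hZ2⟩, empty_subset _, ?_⟩
                have h3 : php G α Z \ {a} = php G α Z := by
                  rw [Finset.sdiff_eq_self_iff_disjoint, disjoint_singleton_right]
                  unfold php
                  rw [mem_sdiff]
                  exact fun h => h.2 har
                beta_reduce
                rw [h3]; exact hZ4
              · left
                refine ⟨⟨hZ1, ?_⟩, empty_subset _, hZ4⟩
                intro x hx
                rcases mem_insert.mp (hZ2 hx) with h | h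
                · exact absurd (h ▸ hx) har
                · exact h
            · rintro (⟨⟨hZ1, hZ2⟩, hZ3, hZ4⟩ | ⟨⟨hZ1, hZ2⟩, hZ3, hZ4⟩)
              · exact ⟨⟨hZ1, hZ2.trans (subset_insert a A')⟩, empty_subset _, hZ4⟩
              · exact ⟨⟨hZ1, hZ2⟩, empty_subset _,
                  hM _ _ (inter_subset_inter_right sdiff_subset) hZ4⟩
          · refine h2.congr (fun Z => ?_)
            have h3 : (php G α Z \ {a}) ∩ A = php G α Z ∩ A.erase a := by
              ext x; simp only [mem_sdiff, mem_inter, mem_singleton, mem_erase]; tauto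
            unfold Un Bp
            constructor
            · rintro ⟨⟨hZ1, hZ2⟩, hZ3, hZ4⟩
              refine ⟨⟨⟨hZ1, hZ2⟩, empty_subset _,
                hM _ _ (inter_subset_inter_left (erase_subset a A)) hZ4⟩,
                ⟨hZ1, hZ2.trans (subset_insert a A')⟩, empty_subset _, ?_⟩
              beta_reduce
              rw [h3]; exact hZ4
            · rintro ⟨⟨⟨hZ1, hZ2⟩, hZ3, hZ4⟩, ⟨hZ5, hZ6⟩, hZ7, hZ8⟩
              beta_reduce at hZ8
              rw [h3] at hZ8
              exact ⟨⟨hZ1, hZ2⟩, empty_subset _, hZ8⟩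
      intro A' hA' t ht
      exact hdown _ A' hA' rfl t ht

/-- The order embedding of the left vertices. -/
def inlE : V ↪o V ⊕ₗ ι where
  toFun v := toLex (Sum.inl v)
  inj' := fun a b h => by simpa using h
  map_rel_iff' := by
    intro a b
    exact Sum.Lex.inl_le_inl_iff

/-- The main connectivity theorem. -/
theorem star (hG : GapFree G) (hα : ∀ i, α i ∈ τ) (s : ℕ) (hs : 1 ≤ s) (t : ℕ)
    (ht : Fintype.card ι + 2 ≤ t + 2 * s) :
    Ex K (fun F => Ind G τ F ∧ Rho (G.comap α) s (phi G α F)) t := by
  have h1 := star_ext (K := K) G α τ hG hα s hs _ univ rfl ∅ (empty_subset _) t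
    (by rw [card_univ]; exact ht)
  have hmap : ∀ σ : Finset V, lp (σ.map (inlE (V := V) (ι := ι)).toEmbedding) = σ := by
    intro σ
    ext x
    rw [mem_lp, mem_map]
    constructor
    · rintro ⟨a, ha, h⟩
      have : a = x := by
        have h' : (toLex (Sum.inl a) : V ⊕ₗ ι) = toLex (Sum.inl x) := h
        simpa using h'
      exact this ▸ ha
    · intro hx; exact ⟨x, hx, rfl⟩
  have hmap2 : ∀ σ : Finset V, rp (σ.map (inlE (V := V) (ι := ι)).toEmbedding) = ∅ := by
    intro σ
    apply eq_empty_of_forall_notMem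
    intro x hx
    rw [mem_rp, mem_map] at hx
    obtain ⟨a, ha, h⟩ := hx
    have h' : (toLex (Sum.inl a) : V ⊕ₗ ι) = toLex (Sum.inr x) := h
    simp at h'
  refine Ex_transfer (inlE (V := V) (ι := ι)) ?_ ?_ h1
  · rintro σ ⟨hσ1, hσ2⟩
    refine ⟨⟨?_, ?_⟩, empty_subset _, ?_⟩
    · rw [hmap]; exact hσ1
    · rw [hmap2]
    · unfold php
      rw [hmap, hmap2, sdiff_empty, inter_univ]
      exact hσ2
  · rintro ρ ⟨⟨hρ1, hρ2⟩, hρ3, hρ4⟩
    have h2 : rp ρ = ∅ := subset_empty.mp hρ2
    refine ⟨lp ρ, ⟨hρ1, ?_⟩, ?_⟩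
    · unfold php at hρ4
      rw [h2, sdiff_empty, inter_univ] at hρ4
      exact hρ4
    · ext x
      rw [mem_map]
      constructor
      · intro hx
        rcases hx' : (ofLex x) with v | i
        · have hx2 : x = toLex (Sum.inl v) := by rw [← hx']; rfl
          exact ⟨v, mem_lp.mpr (hx2 ▸ hx), hx2.symm⟩
        · have hx2 : x = toLex (Sum.inr i) := by rw [← hx']; rfl
          have : i ∈ rp ρ := mem_rp.mpr (hx2 ▸ hx)
          rw [h2] at this
          exact absurd this (notMem_empty i)
      · rintro ⟨v, hv, rfl⟩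
        exact mem_lp.mp hv

end Star

end Pool.Agent.H36
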