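import Pool.Agent.H36.FromReg

/-!
From Koszul vanishing to a graded resolution with bounded degrees.
-/

set_option autoImplicit false
set_option linter.unusedSectionVars false
set_option linter.unusedVariables false

namespace Pool.Agent.H36

open Finset MvPolynomial

variable {n : ℕ} {K : Type*} [Field K]

/-- Graded submodules. -/
def GrN {b : ℕ} (deg : Fin b → ℕ)
    (N : Submodule (MvPolynomial (Fin n) K) (Fin b → MvPolynomial (Fin n) K)) : Prop :=
  ∀ f ∈ N, ∀ d, hcv deg d f ∈ N

/-- A vector is the sum of its homogeneous components. -/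
lemma sum_hcv {b : ℕ} (deg : Fin b → ℕ) (f : Fin b → MvPolynomial (Fin n) K) :
    ∃ D : ℕ, f = ∑ d ∈ range D, hcv deg d f := by
  classical
  refine ⟨∑ k, (deg k + (f k).totalDegree + 1), ?_⟩
  funext k
  rw [Finset.sum_apply]
  set D := ∑ k, (deg k + (f k).totalDegree + 1) with hD
  have hDk : deg k + (f k).totalDegree + 1 ≤ D :=
    single_le_sum (f := fun k => deg k + (f k).totalDegree + 1) (fun _ _ => Nat.zero_le _)
      (mem_univ k)
  apply MvPolynomial.ext
  intro e
  rw [coeff_sum]
  unfold hcv
  by_cases he : coeff e (f k) = 0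
  · rw [he]
    symm
    apply sum_eq_zero
    intro d _
    split_ifs with h
    · rw [coeff_homogeneousComponent, he]; simp
    · simp
  · have h1 : e.degree ≤ (f k).totalDegree := by
      have := le_totalDegree (mem_support_iff.mpr he)
      rw [Finsupp.degree_eq_sum]
      rwa [Finsupp.sum_fintype _ _ (fun _ => rfl)] at this
    rw [sum_eq_single (deg k + e.degree)]
    · rw [if_pos (by omega), coeff_homogeneousComponent, if_pos (by omega)]
    · intro d _ hd
      split_ifs with h
      · rw [coeff_homogeneousComponent, if_neg (by omega)]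
      · simp
    · intro h
      exfalso
      apply h
      rw [mem_range]
      omega

/-- Generation in low degrees. -/
theorem generated {b : ℕ} {deg : Fin b → ℕ} {ρ : ℕ}
    {N : Submodule (MvPolynomial (Fin n) K) (Fin b → MvPolynomial (Fin n) K)}
    (hdeg : ∀ k, deg k < ρ) (hgr : GrN deg N) (hKV : ∀ m t, ρ ≤ m → t ≤ n → KV deg N m t) :
    N = Submodule.span (MvPolynomial (Fin n) K) {f | f ∈ N ∧ ∃ d, d ≤ ρ ∧ HomV deg d f} := by
  classical
  set N1 := Submodule.span (MvPolynomial (Fin n) K) {f | f ∈ N ∧ ∃ d, d ≤ ρ ∧ HomV deg d f}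
    with hN1
  apply le_antisymm
  · have key : ∀ d f, f ∈ N → HomV deg d f → f ∈ N1 := by
      intro d
      induction d using Nat.strong_induction_on with
      | _ d ih =>
        intro f hf hfd
        rcases Nat.lt_or_ge ρ d with hlt | hge
        · obtain ⟨g0, hg0⟩ := free_exact (K := K) n (fun _ => f) (by
            intro Y hY
            exfalso
            have := card_le_univ Y
            rw [Fintype.card_fin] at this
            omega) (Or.inr (fun k => coeff_zero_of_HomV hfd k ((hdeg k).trans hlt)))
          have hf0 : f = kd K g0 univ := hg0 univ (by simp)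
          have hf1 : f = kd K (fun X => hcv deg (d - 1) (g0 X)) univ := by
            rw [kd_hcv, ← hf0]
            have : d - 1 + 1 = d := by omega
            rw [this, hcv_of_HomV hfd]
          rcases Nat.eq_zero_or_pos n with hn | hn
          · subst hn
            have : f = 0 := by
              rw [hf0]; unfold kd; simp
            rw [this]; exact N1.zero_mem
          · obtain ⟨g, hg⟩ := hKV (d - 1) (n - 1) (by omega) (by omega)
              (fun X => hcv deg (d - 1) (g0 X)) (fun X _ => HomV_hcv _ _ _) (by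
                intro Y hY
                have : Y = univ := by
                  rw [← card_eq_iff_eq_univ, hY, Fintype.card_fin]; omega
                rw [this, ← hf1]
                exact hf)
            have hf2 : f = kd K (fun X => hcv deg (d - 1) (g0 X) - kd K g X) univ := by
              rw [kd_sub, kd_kd, sub_zero, ← hf1]
            have hf3 : f = kd K (fun X => hcv deg (d - 1)
                (hcv deg (d - 1) (g0 X) - kd K g X)) univ := by
              rw [kd_hcv, ← hf2]
              have : d - 1 + 1 = d := by omega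
              rw [this, hcv_of_HomV hfd]
            rw [hf3]
            apply kd_mem
            intro v _
            apply ih (d - 1) (by omega)
            · apply hgr
              apply hg
              rw [card_erase_of_mem (mem_univ v), card_univ, Fintype.card_fin]
            · exact HomV_hcv _ _ _
        · exact Submodule.subset_span ⟨hf, d, hge, hfd⟩
    intro f hf
    obtain ⟨D, hD⟩ := sum_hcv deg f
    rw [hD]
    exact N1.sum_mem (fun d _ => key d _ (hgr f hf d) (HomV_hcv _ _ _))
  · rw [hN1, Submodule.span_le]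
    rintro f ⟨hf, -⟩
    exact hf

/-- A stage of the construction. -/
structure Stage (n : ℕ) (K : Type*) [Field K] where
  b : ℕ
  deg : Fin b → ℕ
  N : Submodule (MvPolynomial (Fin n) K) (Fin b → MvPolynomial (Fin n) K)
  rho : ℕ
  hdeg : ∀ k, deg k < rho
  hgr : GrN deg N
  hKV : ∀ m t, rho ≤ m → t ≤ n → KV deg N m t

theorem exists_next (s : Stage n K) : ∃ (s' : Stage n K)
    (M : Matrix (Fin s.b) (Fin s'.b) (MvPolynomial (Fin n) K)),
    GrM s.deg s'.deg M ∧ (∀ v, v ∈ s.N ↔ ∃ w, M.mulVec w = v) ∧
    (∀ w, w ∈ s'.N ↔ M.mulVec w = 0) ∧ s'.rho = s.rho + 1 := by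
  classical
  have hgen := generated s.hdeg s.hgr s.hKV
  set T := {f | f ∈ s.N ∧ ∃ d, d ≤ s.rho ∧ HomV s.deg d f} with hT
  have hfg : (Submodule.span (MvPolynomial (Fin n) K) T).FG := IsNoetherian.noetherian _
  rw [Submodule.fg_span_iff_fg_span_finset_subset] at hfg
  obtain ⟨T', hT'T, hT'⟩ := hfg
  let e := T'.equivFin
  let w : Fin T'.card → (Fin s.b → MvPolynomial (Fin n) K) := fun k => (e.symm k).1
  have hw : ∀ k, w k ∈ T := fun k => hT'T (e.symm k).2
  have hw1 : ∀ k, ∃ d, d ≤ s.rho ∧ HomV s.deg d (w k) := fun k => (hw k).2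
  choose deg' hdeg' hHom using hw1
  let M : Matrix (Fin s.b) (Fin T'.card) (MvPolynomial (Fin n) K) := fun i k => w k i
  have hGr : GrM s.deg deg' M := fun i k => hHom k i
  have hrange : ∀ v, v ∈ s.N ↔ ∃ x, M.mulVec x = v := by
    intro v
    rw [hgen, hT']
    have hset : (T' : Set (Fin s.b → MvPolynomial (Fin n) K)) = Set.range w := by
      ext x
      constructor
      · intro hx
        exact ⟨e ⟨x, hx⟩, by simp [w]⟩
      · rintro ⟨k, rfl⟩
        exact (e.symm k).2
    rw [hset, Submodule.mem_span_range_iff_exists_fun]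
    constructor
    · rintro ⟨c, hc⟩
      refine ⟨c, ?_⟩
      rw [← hc]
      funext i
      rw [Finset.sum_apply]
      show ∑ k, M i k * c k = _
      exact sum_congr rfl (fun k _ => mul_comm _ _)
    · rintro ⟨c, hc⟩
      refine ⟨c, ?_⟩
      rw [← hc]
      funext i
      rw [Finset.sum_apply]
      show _ = ∑ k, M i k * c k
      exact sum_congr rfl (fun k _ => mul_comm _ _)
  let L := Matrix.mulVecLin M
  have hker : ∀ x, x ∈ LinearMap.ker L ↔ M.mulVec x = 0 := by
    intro x
    rw [LinearMap.mem_ker]
    rfl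
  refine ⟨⟨T'.card, deg', LinearMap.ker L, s.rho + 1, ?_, ?_, ?_⟩, M, hGr, hrange, hker, rfl⟩
  · intro k
    have := hdeg' k
    omega
  · intro f hf d
    rw [hker] at hf ⊢
    rw [hcv_mulVec hGr, hf]
    funext i
    unfold hcv
    simp
  · intro m' t' hm' ht'
    rcases Nat.lt_or_ge t' n with hlt | hge
    · intro h hh hker2
      have hD : ∀ Y : Finset (Fin n), Y.card = t' + 1 → kd K (fun X => L (h X)) Y = 0 := by
        intro Y hY
        rw [← map_kd]
        exact (hker _).mp (hker2 Y hY)
      obtain ⟨f0, hf0⟩ := free_exact (K := K) t' (fun X => L (h X)) hD (Or.inl hlt)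
      rcases Nat.eq_zero_or_pos t' with ht0 | ht0
      · subst ht0
        refine ⟨fun _ => 0, fun X hX => ?_⟩
        have hX0 : X = ∅ := card_eq_zero.mp hX
        have h1 := hf0 X hX
        rw [hker]
        have h2 : kd K (fun _ => (0 : Fin T'.card → MvPolynomial (Fin n) K)) X = 0 := by
          unfold kd; simp
        rw [h2, sub_zero]
        have h3 : kd K f0 X = 0 := by rw [hX0]; unfold kd; simp
        rw [h3] at h1
        exact h1
      · have hf1 : ∀ X : Finset (Fin n), X.card = t' →
            kd K (fun Z => hcv s.deg (m' - 1) (f0 Z)) X = L (h X) := by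
          intro X hX
          rw [kd_hcv, ← hf0 X hX]
          have h1 : m' - 1 + 1 = m' := by omega
          rw [h1]
          show hcv s.deg m' (M.mulVec (h X)) = M.mulVec (h X)
          rw [← hcv_mulVec hGr, hcv_of_HomV (hh X hX)]
        obtain ⟨g, hg⟩ := s.hKV (m' - 1) (t' - 1) (by omega) (by omega)
          (fun Z => hcv s.deg (m' - 1) (f0 Z)) (fun Z _ => HomV_hcv _ _ _) (by
            intro Y hY
            rw [hf1 Y (by omega), hrange]
            exact ⟨h Y, rfl⟩)
        have hx : ∀ Z : Finset (Fin n), ∃ x, Z.card = t' - 1 →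
            L x = hcv s.deg (m' - 1) (f0 Z) - kd K g Z := by
          intro Z
          by_cases hZ : Z.card = t' - 1
          · obtain ⟨x, hx⟩ := (hrange _).mp (hg Z hZ)
            exact ⟨x, fun _ => hx⟩
          · exact ⟨0, fun h => absurd h hZ⟩
        choose x hx using hx
        refine ⟨x, fun X hX => ?_⟩
        rw [LinearMap.mem_ker, map_sub, map_kd, ← hf1 X hX, ← kd_sub]
        have h2 : kd K (fun Z => hcv s.deg (m' - 1) (f0 Z) - L (x Z)) X = kd K (kd K g) X := by
          apply kd_congr
          intro v hv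
          rw [hx _ (by rw [card_erase_of_mem hv, hX])]
          abel
        rw [h2, kd_kd]
    · have : t' = n := by omega
      subst this
      apply KV_top
      intro k
      have := hdeg' k
      omega

/-- Homogeneous ideals. -/
def HomI (J : Ideal (MvPolynomial (Fin n) K)) : Prop :=
  ∀ f ∈ J, ∀ d, homogeneousComponent d f ∈ J

theorem RegD_of_KV {J : Ideal (MvPolynomial (Fin n) K)} {r : ℕ} (hr : 1 ≤ r) (hJ : HomI J)
    (h : ∀ m t, r ≤ m → t ≤ n → KV (fun _ : Fin 1 => 0) (IV J) m t) : RegD J r := by
  classical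
  let s0 : Stage n K := ⟨1, fun _ => 0, IV J, r, fun _ => by omega, by
    intro f hf d
    show hcv (fun _ => 0) d f 0 ∈ J
    unfold hcv
    rw [if_pos (Nat.zero_le d)]
    exact hJ _ hf _, h⟩
  choose nx Mx hGr hrange hker hrho using (exists_next (n := n) (K := K))
  let sq : ℕ → Stage n K := fun i => Nat.rec s0 (fun _ s => nx s) i
  have hsq : ∀ i, (sq i).rho = r + i := by
    intro i
    induction i with
    | zero => rfl
    | succ i ih =>
      have : (sq (i + 1)).rho = (sq i).rho + 1 := hrho (sq i)
      rw [this, ih]; omega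
  refine ⟨fun i => (sq (i + 1)).b, fun i => (sq (i + 1)).deg, fun k => Mx (sq 0) 0 k,
    fun i => Mx (sq (i + 1)), ?_, ?_, ?_, ?_, ?_, ?_⟩
  · ext f
    rw [mem_span_range_iff]
    have h1 := hrange (sq 0) (fun _ => f)
    have h2 : (fun _ => f) ∈ (sq 0).N ↔ f ∈ J := Iff.rfl
    rw [← h2, h1]
    constructor
    · rintro ⟨w, hw⟩
      refine ⟨w, ?_⟩
      funext i
      have : i = (0 : Fin 1) := Subsingleton.elim (α := Fin 1) _ _
      subst this
      exact hw
    · rintro ⟨w, hw⟩
      exact ⟨w, congrFun hw 0⟩
  · intro k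
    show (Mx (sq 0) 0 k).IsHomogeneous ((sq 1).deg k)
    rcases hGr (sq 0) 0 k with h0 | ⟨h1, h2⟩
    · rw [h0]; exact isHomogeneous_zero _ _ _
    · have h3 : (sq 0).deg 0 = 0 := rfl
      rw [h3, Nat.sub_zero] at h2
      exact h2
  · intro i s c
    exact hGr (sq (i + 1)) s c
  · intro v
    have h1 := hker (sq 0) v
    have h2 := hrange (sq 1) v
    have h3 : v ∈ (sq 1).N ↔ v ∈ (nx (sq 0)).N := Iff.rfl
    have h4 : (∑ k, Mx (sq 0) 0 k * v k = 0) ↔ v ∈ (sq 1).N := by
      rw [h3, h1]
      constructor
      · intro hv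
        funext i
        have : i = (0 : Fin 1) := Subsingleton.elim (α := Fin 1) _ _
        subst this
        exact hv
      · intro hv
        exact congrFun hv 0
    exact h4.trans h2
  · intro i v
    have h1 := hker (sq (i + 1)) v
    have h2 := hrange (sq (i + 2)) v
    have h3 : v ∈ (sq (i + 2)).N ↔ v ∈ (nx (sq (i + 1))).N := Iff.rfl
    rw [← h1, ← h3, h2]
  · intro i k
    have h1 := (sq (i + 1)).hdeg k
    have h2 := hsq (i + 1)
    show (sq (i + 1)).deg k ≤ r + i
    omega

end Pool.Agent.H36
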